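import Pool.Agent.SOL.Defs

/-!
# Affine maps as linear maps of `V × ℝ`; restriction to subgroups of finite index
-/

set_option autoImplicit false

open Set Filter Topology

namespace Pool.Agent.SOL

open Pool.Agent.Helper2.MK

section lift

variable {V : Type*} [NormedAddCommGroup V] [NormedSpace ℝ V]

theorem act_mul {a b : EndE V} (hb : IsAff b) (v : V) : act (a * b) v = act a (act b v) := by
  have h : b (v, 1) = (act b v, 1) := Prod.ext rfl (hb (v, 1))
  change (a (b (v, 1))).1 = (a (act b v, 1)).1
  rw [h]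

theorem act_one (v : V) : act (1 : EndE V) v = v := rfl

theorem isAff_one : IsAff (1 : EndE V) := fun _ => rfl

theorem IsAff.mul {a b : EndE V} (ha : IsAff a) (hb : IsAff b) : IsAff (a * b) := fun x => by
  change (a (b x)).2 = x.2
  rw [ha, hb]

theorem IsAff.inv {a : (EndE V)ˣ} (ha : IsAff (a : EndE V)) : IsAff ((a⁻¹ : (EndE V)ˣ) : EndE V) :=
  fun x => by
    have h := ha (((a⁻¹ : (EndE V)ˣ) : EndE V) x)
    have h2 : (a : EndE V) (((a⁻¹ : (EndE V)ˣ) : EndE V) x) = x := by
      change ((a : EndE V) * ((a⁻¹ : (EndE V)ˣ) : EndE V)) x = x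
      rw [Units.mul_inv]
      rfl
    rw [h2] at h
    exact h.symm

theorem act_inv_act {a : (EndE V)ˣ} (ha : IsAff (a : EndE V)) (v : V) :
    act ((a⁻¹ : (EndE V)ˣ) : EndE V) (act (a : EndE V) v) = v := by
  rw [← act_mul ha, Units.inv_mul, act_one]

theorem act_act_inv {a : (EndE V)ˣ} (ha : IsAff (a : EndE V)) (v : V) :
    act (a : EndE V) (act ((a⁻¹ : (EndE V)ˣ) : EndE V) v) = v := by
  rw [← act_mul ha.inv, Units.mul_inv, act_one]

variable [FiniteDimensional ℝ V]

theorem liftA_apply (f : V ≃ᵃ[ℝ] V) (x : V × ℝ) :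
    liftA f x = (f.linear x.1 + x.2 • f 0, x.2) := rfl

theorem isAff_liftA (f : V ≃ᵃ[ℝ] V) : IsAff (liftA f) := fun _ => rfl

theorem act_liftA (f : V ≃ᵃ[ℝ] V) (v : V) : act (liftA f) v = f v := by
  have h : f v = f.linear v + f 0 := by
    have := f.map_vadd 0 v
    simpa using this
  change f.linear v + (1 : ℝ) • f 0 = f v
  rw [one_smul, h]

theorem liftA_mul (f g : V ≃ᵃ[ℝ] V) : liftA (f * g) = liftA f * liftA g := by
  refine ContinuousLinearMap.ext fun x => Prod.ext ?_ ?_
  · change (f * g).linear x.1 + x.2 • (f * g) 0 =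
      f.linear (g.linear x.1 + x.2 • g 0) + x.2 • f 0
    have h1 : (f * g) 0 = f.linear (g 0) + f 0 := by
      have := f.map_vadd 0 (g 0)
      simpa using this
    have h2 : (f * g).linear x.1 = f.linear (g.linear x.1) := rfl
    rw [h1, h2, map_add, map_smul, smul_add, add_assoc]
  · rfl

theorem liftA_one : liftA (1 : V ≃ᵃ[ℝ] V) = 1 := by
  refine ContinuousLinearMap.ext fun x => Prod.ext ?_ ?_
  · change x.1 + x.2 • (0 : V) = x.1
    rw [smul_zero, add_zero]
  · rfl

/-- The linearisation as a homomorphism. -/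
noncomputable def liftM : (V ≃ᵃ[ℝ] V) →* EndE V where
  toFun := liftA
  map_one' := liftA_one
  map_mul' := liftA_mul

/-- The linearised holonomy. -/
noncomputable def rhoOf {G Y : Type*} [Group G] [TopologicalSpace Y] [MulAction G Y]
    (M : AffineDeveloping V G Y) : G →* (EndE V)ˣ := (liftM.toHomUnits).comp M.holHom

theorem rhoOf_coe {G Y : Type*} [Group G] [TopologicalSpace Y] [MulAction G Y]
    (M : AffineDeveloping V G Y) (g : G) : (rhoOf M g : EndE V) = liftA (M.hol g) := rfl

theorem act_rhoOf {G Y : Type*} [Group G] [TopologicalSpace Y] [MulAction G Y]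
    (M : AffineDeveloping V G Y) (g : G) (v : V) : act (rhoOf M g : EndE V) v = M.hol g v :=
  act_liftA _ v

end lift

section restrict

variable {V G Y : Type*} [NormedAddCommGroup V] [NormedSpace ℝ V] [Group G]
    [TopologicalSpace Y] [MulAction G Y]

/-- A subgroup of finite index acts cocompactly. -/
theorem restrict_covering (hc : IsCocompactCovering G Y) (H : Subgroup G) [H.FiniteIndex] :
    IsCocompactCovering H Y where
  continuous_smul h := hc.continuous_smul (h : G)
  free h y hy := Subtype.ext (hc.free (h : G) y hy)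
  proper K hK := by
    have h1 := hc.proper K hK
    refine (h1.preimage (f := fun h : H => (h : G)) Subtype.coe_injective.injOn).subset ?_
    intro h hh
    exact hh
  cocompact := by
    obtain ⟨K, hK, hK'⟩ := hc.cocompact
    have hfin : Finite (G ⧸ H) := inferInstance
    refine ⟨⋃ q : G ⧸ H, (fun y => (Quotient.out q)⁻¹ • y) '' K,
      isCompact_iUnion fun q => hK.image (hc.continuous_smul _), fun y => ?_⟩
    obtain ⟨g, hg⟩ := hK' y
    set q : G ⧸ H := ((g : G) : G ⧸ H) with hq
    have h1 : (Quotient.out q)⁻¹ * g ∈ H := by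
      rw [← QuotientGroup.eq]
      exact Quotient.out_eq' q
    refine ⟨⟨_, h1⟩, mem_iUnion.2 ⟨q, g • y, hg, ?_⟩⟩
    change (Quotient.out q)⁻¹ • g • y = ((Quotient.out q)⁻¹ * g) • y
    rw [mul_smul]

/-- Restriction of an affine developing pair to a subgroup of finite index. -/
def restrictFI (M : AffineDeveloping V G Y) (H : Subgroup G) [H.FiniteIndex] :
    AffineDeveloping V H Y where
  dev := M.dev
  hol h := M.hol (h : G)
  dev_local := M.dev_local
  hol_mul h h' x := M.hol_mul (h : G) (h' : G) x
  dev_smul h y := M.dev_smul (h : G) y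
  volume_hol h := M.volume_hol (h : G)
  covering := restrict_covering M.covering H

end restrict

end Pool.Agent.SOL
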