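import Pool.Agent.SOL.Zar

/-!
# Module B3: real powers of unipotent elements, logarithm and exponential
-/

set_option autoImplicit false

open Set Filter Topology

namespace Pool.Agent.SOL

section B3

variable {A : Type*} [Ring A] [Algebra ℝ A] [FiniteDimensional ℝ A]

/-- The logarithm of a unipotent element. -/
noncomputable def ulog (u : A) : A :=
  ∑ j ∈ Finset.range (Module.finrank ℝ A), ((-1 : ℝ) ^ j / ((j : ℝ) + 1)) • (u - 1) ^ (j + 1)

theorem pow_finrank_eq_zero {x : A} (hx : IsNilpotent x) : x ^ Module.finrank ℝ A = 0 := by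
  obtain ⟨n, hn⟩ := hx
  have key : ∀ (m : ℕ) (y : A), ((LinearMap.mulLeft ℝ x) ^ m) y = x ^ m * y := by
    intro m
    induction m with
    | zero => intro y; simp
    | succ m ih =>
      intro y
      rw [pow_succ, Module.End.mul_apply, LinearMap.mulLeft_apply, ih, pow_succ, mul_assoc]
  have h1 : (1 : A) ∈ LinearMap.ker ((LinearMap.mulLeft ℝ x) ^ n) := by
    rw [LinearMap.mem_ker, key, hn, zero_mul]
  have h2 := Module.End.ker_pow_le_ker_pow_finrank (LinearMap.mulLeft ℝ x) n h1
  rw [LinearMap.mem_ker, key, mul_one] at h2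
  exact h2

/-- The coefficients of the binomial series. -/
noncomputable def bcoef (j : ℕ) (t : ℝ) : ℝ := (descPochhammer ℝ j).eval t / (j.factorial : ℝ)

theorem bcoef_zero_right (j : ℕ) : bcoef j 0 = if j = 0 then 1 else 0 := by
  rw [bcoef, descPochhammer_eval_zero]
  split_ifs with h
  · subst h; simp
  · simp

theorem bcoef_natCast (j n : ℕ) : bcoef j (n : ℝ) = (n.choose j : ℝ) := by
  rw [bcoef, descPochhammer_eval_eq_descFactorial, Nat.descFactorial_eq_factorial_mul_choose,
    Nat.cast_mul, mul_div_cancel_left₀]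
  exact_mod_cast j.factorial_ne_zero

omit [FiniteDimensional ℝ A] in
theorem upow_eq (u : A) (t : ℝ) :
    upow u t = ∑ j ∈ Finset.range (Module.finrank ℝ A + 1), bcoef j t • (u - 1) ^ j := rfl

omit [FiniteDimensional ℝ A] in
theorem upow_zero (u : A) : upow u 0 = 1 := by
  rw [upow_eq, Finset.sum_eq_single 0]
  · rw [bcoef_zero_right, if_pos rfl, one_smul, pow_zero]
  · intro j _ hj
    rw [bcoef_zero_right, if_neg hj, zero_smul]
  · intro h
    exact absurd (Finset.mem_range.2 (Nat.succ_pos _)) h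

theorem upow_natCast {u : A} (hu : IsNilpotent (u - 1)) (n : ℕ) : upow u n = u ^ n := by
  set d := Module.finrank ℝ A
  have h0 : ∀ j, d ≤ j → (u - 1) ^ j = 0 := fun j hj => by
    rw [← Nat.sub_add_cancel hj, pow_add, pow_finrank_eq_zero hu, mul_zero]
  have h1 : upow u n = ∑ j ∈ Finset.range (d + 1 + (n + 1)), bcoef j n • (u - 1) ^ j := by
    rw [upow_eq]
    refine Finset.sum_subset (Finset.range_mono (Nat.le_add_right _ _)) fun j _ hj => ?_
    rw [Finset.mem_range, not_lt] at hj
    rw [h0 j (by omega), smul_zero]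
  have h2 : u ^ n = ∑ j ∈ Finset.range (d + 1 + (n + 1)), bcoef j n • (u - 1) ^ j := by
    have h3 : u ^ n = ((u - 1) + 1) ^ n := by rw [sub_add_cancel]
    rw [h3, (Commute.one_right (u - 1)).add_pow]
    refine Eq.trans (Finset.sum_congr rfl fun j hj => ?_)
      (Finset.sum_subset (Finset.range_mono (Nat.le_add_left _ _)) fun j _ hj => ?_)
    · rw [one_pow, mul_one, bcoef_natCast, ← Nat.cast_commute, ← nsmul_eq_mul,
        Nat.cast_smul_eq_nsmul]
    · rw [Finset.mem_range, not_lt] at hj
      rw [bcoef_natCast, Nat.choose_eq_zero_of_lt (by omega), Nat.cast_zero, zero_smul]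
  rw [h1, h2]

theorem polyFun_eval {W : Type*} [AddCommGroup W] [Module ℝ W] (p : Polynomial ℝ) {f : W → ℝ}
    (hf : f ∈ polyFun W) : (fun x => p.eval (f x)) ∈ polyFun W := by
  induction p using Polynomial.induction_on' with
  | add p q hp hq =>
    simp only [Polynomial.eval_add]
    exact add_mem_polyFun hp hq
  | monomial n a =>
    simp only [Polynomial.eval_monomial]
    refine mul_mem_polyFun (const_mem_polyFun a) ?_
    exact (polyFun W).pow_mem hf n

theorem bcoef_mem_polyFun {W : Type*} [AddCommGroup W] [Module ℝ W] (j : ℕ) {f : W → ℝ}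
    (hf : f ∈ polyFun W) : (fun x => bcoef j (f x)) ∈ polyFun W := by
  simp only [bcoef, div_eq_mul_inv]
  exact mul_mem_polyFun (polyFun_eval _ hf) (const_mem_polyFun _)

theorem IsPoly.upow {W : Type*} [AddCommGroup W] [Module ℝ W] {φ : W → A} (hφ : IsPoly φ)
    {f : W → ℝ} (hf : f ∈ polyFun W) : IsPoly fun x => upow (φ x) (f x) := by
  simp only [upow_eq]
  exact IsPoly.sum _ fun j _ => IsPoly.smul (bcoef_mem_polyFun j hf) ((hφ.sub (isPoly_const 1)).pow j)

/-- The real powers are polynomial in the element and in the exponent. -/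
theorem isPoly_upow : IsPoly fun x : A × ℝ => upow x.1 x.2 :=
  IsPoly.upow (isPoly_linear (LinearMap.fst ℝ A ℝ)) (linear_mem_polyFun (LinearMap.snd ℝ A ℝ))

theorem isPoly_upow_right (u : A) : IsPoly fun t : ℝ => upow u t :=
  IsPoly.upow (isPoly_const u) (linear_mem_polyFun (LinearMap.id : ℝ →ₗ[ℝ] ℝ))

theorem isPoly_ulog : IsPoly fun x : A => ulog x := by
  simp only [ulog]
  refine IsPoly.sum _ fun j _ => IsPoly.smul (const_mem_polyFun _) ?_
  exact (isPoly_id.sub (isPoly_const 1)).pow _

omit [FiniteDimensional ℝ A] in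
theorem ulog_one : ulog (1 : A) = 0 := by
  rw [ulog]
  refine Finset.sum_eq_zero fun j _ => ?_
  rw [sub_self, zero_pow (Nat.succ_ne_zero j), smul_zero]

/-- A polynomial identity in a real variable may be checked at the natural numbers. -/
theorem isPoly_ext {W : Type*} [AddCommGroup W] [Module ℝ W] {c d : ℝ → W} (hc : IsPoly c)
    (hd : IsPoly d) (h : ∀ n : ℕ, c n = d n) (t : ℝ) : c t = d t := by
  rw [← sub_eq_zero]
  by_contra hne
  obtain ⟨ψ, hψ⟩ : ∃ ψ : W →ₗ[ℝ] ℝ, ψ (c t - d t) ≠ 0 := by
    by_contra hcon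
    push Not at hcon
    exact hne ((Module.forall_dual_apply_eq_zero_iff ℝ _).1 hcon)
  exact hψ (polyFun_real_eq_zero ((hc.sub hd) ψ) (fun n => by
    change ψ (c n - d n) = 0
    rw [h n, sub_self, map_zero]) t)

theorem id_mem_polyFun : (fun t : ℝ => t) ∈ polyFun ℝ :=
  linear_mem_polyFun (LinearMap.id : ℝ →ₗ[ℝ] ℝ)

theorem upow_add {u : A} (hu : IsNilpotent (u - 1)) (s t : ℝ) :
    upow u (s + t) = upow u s * upow u t := by
  have h1 : ∀ (m : ℕ) (t : ℝ), upow u (m + t) = upow u m * upow u t := fun m t =>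
    isPoly_ext (IsPoly.upow (isPoly_const u) (add_mem_polyFun (const_mem_polyFun _) id_mem_polyFun))
      ((isPoly_const (upow u m)).mul (isPoly_upow_right u)) (fun n => by
        rw [← Nat.cast_add, upow_natCast hu, upow_natCast hu, upow_natCast hu, pow_add]) t
  exact isPoly_ext (c := fun s => upow u (s + t)) (d := fun s => upow u s * upow u t)
    (IsPoly.upow (isPoly_const u) (add_mem_polyFun id_mem_polyFun (const_mem_polyFun _)))
    ((isPoly_upow_right u).mul (isPoly_const _)) (fun m => h1 m t) s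

theorem upow_one {u : A} (hu : IsNilpotent (u - 1)) : upow u 1 = u := by
  have := upow_natCast hu 1
  rwa [Nat.cast_one, pow_one] at this

omit [FiniteDimensional ℝ A] in
theorem commute_upow (u : A) (t : ℝ) : Commute (u - 1) (upow u t) := by
  rw [upow_eq]
  refine Commute.sum_right _ _ _ fun j _ => ?_
  exact ((Commute.refl (u - 1)).pow_right j).smul_right _

omit [FiniteDimensional ℝ A] in
theorem upow_sub_one (u : A) (t : ℝ) : upow u t - 1 = (u - 1) *
    ∑ j ∈ Finset.range (Module.finrank ℝ A), bcoef (j + 1) t • (u - 1) ^ j := by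
  rw [upow_eq, Finset.sum_range_succ', Finset.mul_sum]
  have h0 : bcoef 0 t • (u - 1) ^ 0 = 1 := by
    rw [bcoef, descPochhammer_zero, Polynomial.eval_one, Nat.factorial_zero, Nat.cast_one, div_one,
      one_smul, pow_zero]
  rw [h0, add_sub_cancel_right]
  refine Finset.sum_congr rfl fun j _ => ?_
  rw [mul_smul_comm, pow_succ']

omit [FiniteDimensional ℝ A] in
theorem isNilpotent_upow {u : A} (hu : IsNilpotent (u - 1)) (t : ℝ) :
    IsNilpotent (upow u t - 1) := by
  rw [upow_sub_one]
  refine Commute.isNilpotent_mul_right ?_ hu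
  refine Commute.sum_right _ _ _ fun j _ => ?_
  exact ((Commute.refl (u - 1)).pow_right j).smul_right _

theorem isNilpotent_pow_sub_one {u : A} (hu : IsNilpotent (u - 1)) (n : ℕ) :
    IsNilpotent (u ^ n - 1) := by
  rw [← upow_natCast hu n]
  exact isNilpotent_upow hu n

theorem upow_mul {u : A} (hu : IsNilpotent (u - 1)) (s t : ℝ) :
    upow (upow u s) t = upow u (s * t) := by
  have h1 : ∀ (m : ℕ) (t : ℝ), upow (upow u m) t = upow u (m * t) := fun m t =>
    isPoly_ext (isPoly_upow_right _)
      (IsPoly.upow (isPoly_const u) (mul_mem_polyFun (const_mem_polyFun _) id_mem_polyFun))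
      (fun n => by
        rw [upow_natCast (isNilpotent_upow hu _), ← Nat.cast_mul, upow_natCast hu,
          upow_natCast hu, pow_mul]) t
  exact isPoly_ext (c := fun s => upow (upow u s) t) (d := fun s => upow u (s * t))
    (IsPoly.upow (isPoly_upow_right u) (const_mem_polyFun _))
    (IsPoly.upow (isPoly_const u) (mul_mem_polyFun id_mem_polyFun (const_mem_polyFun _)))
    (fun m => h1 m t) s

end B3

section B3n

variable {A : Type*} [NormedRing A] [NormedAlgebra ℝ A] [FiniteDimensional ℝ A]

theorem hasDerivAt_bcoef_zero (j : ℕ) :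
    HasDerivAt (bcoef (j + 1)) ((-1 : ℝ) ^ j / ((j : ℝ) + 1)) 0 := by
  have h1 : ∀ j : ℕ, HasDerivAt (fun t : ℝ => (descPochhammer ℝ (j + 1)).eval t)
      ((-1 : ℝ) ^ j * (j.factorial : ℝ)) 0 := by
    intro j
    induction j with
    | zero =>
      simp only [zero_add, descPochhammer_one, Polynomial.eval_X, pow_zero, Nat.factorial_zero,
        Nat.cast_one, mul_one]
      exact hasDerivAt_id 0
    | succ j ih =>
      have h2 : (fun t : ℝ => (descPochhammer ℝ (j + 1 + 1)).eval t) =
          fun t => (descPochhammer ℝ (j + 1)).eval t * (t - ((j : ℝ) + 1)) := by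
        ext t
        rw [descPochhammer_succ_eval]
        push_cast
        ring
      rw [h2]
      have h3 := ih.mul ((hasDerivAt_id (0 : ℝ)).sub_const ((j : ℝ) + 1))
      refine h3.congr_deriv ?_
      have h4 : (descPochhammer ℝ (j + 1)).eval (0 : ℝ) = 0 :=
        descPochhammer_ne_zero_eval_zero ℝ (Nat.succ_ne_zero j)
      simp only [id_eq, h4, zero_sub, zero_mul, add_zero]
      rw [Nat.factorial_succ]
      push_cast
      ring
  have h5 := (h1 j).div_const (((j + 1).factorial : ℕ) : ℝ)
  refine h5.congr_deriv ?_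
  have h6 : (j.factorial : ℝ) ≠ 0 := by exact_mod_cast j.factorial_ne_zero
  have h7 : (j : ℝ) + 1 ≠ 0 := by positivity
  rw [Nat.factorial_succ]
  push_cast
  field_simp

omit [FiniteDimensional ℝ A] in
theorem hasDerivAt_upow_zero (u : A) : HasDerivAt (fun t => upow u t) (ulog u) 0 := by
  have e : (fun t : ℝ => upow u t) = fun t => (∑ j ∈ Finset.range (Module.finrank ℝ A),
      bcoef (j + 1) t • (u - 1) ^ (j + 1)) + 1 := by
    ext t
    rw [upow_eq, Finset.sum_range_succ']
    congr 1
    rw [bcoef, descPochhammer_zero, Polynomial.eval_one, Nat.factorial_zero, Nat.cast_one, div_one,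
      one_smul, pow_zero]
  rw [e]
  refine HasDerivAt.add_const _ ?_
  exact HasDerivAt.fun_sum fun j _ => (hasDerivAt_bcoef_zero j).smul_const _

omit [FiniteDimensional ℝ A] in
theorem commute_ulog (u : A) : Commute (u - 1) (ulog u) := by
  rw [ulog]
  refine Commute.sum_right _ _ _ fun j _ => ?_
  exact ((Commute.refl (u - 1)).pow_right _).smul_right _

omit [FiniteDimensional ℝ A] in
theorem ulog_eq_mul (u : A) : ulog u = (u - 1) * ∑ j ∈ Finset.range (Module.finrank ℝ A),
    ((-1 : ℝ) ^ j / ((j : ℝ) + 1)) • (u - 1) ^ j := by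
  rw [ulog, Finset.mul_sum]
  refine Finset.sum_congr rfl fun j _ => ?_
  rw [mul_smul_comm, pow_succ']

omit [FiniteDimensional ℝ A] in
theorem isNilpotent_ulog {u : A} (hu : IsNilpotent (u - 1)) : IsNilpotent (ulog u) := by
  rw [ulog_eq_mul]
  refine Commute.isNilpotent_mul_right ?_ hu
  refine Commute.sum_right _ _ _ fun j _ => ?_
  exact ((Commute.refl (u - 1)).pow_right j).smul_right _

omit [FiniteDimensional ℝ A] in
theorem commute_ulog_upow (u : A) (t : ℝ) : Commute (ulog u) (upow u t) := by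
  rw [upow_eq]
  refine Commute.sum_right _ _ _ fun j _ => ?_
  exact ((commute_ulog u).symm.pow_right j).smul_right _

theorem hasDerivAt_upow {u : A} (hu : IsNilpotent (u - 1)) (t : ℝ) :
    HasDerivAt (fun t => upow u t) (ulog u * upow u t) t := by
  have h1 : (fun s : ℝ => upow u s) = fun s => upow u (s - t) * upow u t := by
    ext s
    rw [← upow_add hu, sub_add_cancel]
  rw [h1]
  refine HasDerivAt.mul_const ?_ _
  have h2 := hasDerivAt_upow_zero u
  rw [← sub_self t] at h2
  exact h2.comp_sub_const t t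

theorem exp_smul_ulog {u : A} (hu : IsNilpotent (u - 1)) (t : ℝ) :
    NormedSpace.exp (t • ulog u) = upow u t := by
  have : CompleteSpace A := FiniteDimensional.complete ℝ A
  set X := ulog u with hX
  have h1 : ∀ t : ℝ, HasDerivAt (fun t => NormedSpace.exp (-t • X) * upow u t) 0 t := by
    intro t
    have h2 : HasDerivAt (fun t : ℝ => NormedSpace.exp (-t • X))
        (-(NormedSpace.exp (-t • X) * X)) t := by
      have h3 := (hasDerivAt_exp_smul_const (𝕂 := ℝ) X (-t)).scomp t (hasDerivAt_neg t)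
      refine h3.congr_deriv ?_
      rw [neg_smul, one_smul]
    refine (h2.mul (hasDerivAt_upow hu t)).congr_deriv ?_
    rw [neg_mul, mul_assoc, neg_add_cancel]
  have h4 : NormedSpace.exp (-t • X) * upow u t = 1 := by
    have h5 := is_const_of_deriv_eq_zero (f := fun t => NormedSpace.exp (-t • X) * upow u t)
      (fun t => (h1 t).differentiableAt) (fun t => (h1 t).deriv) t 0
    simp only [neg_zero, zero_smul, NormedSpace.exp_zero, upow_zero, mul_one] at h5
    exact h5
  have h6 : NormedSpace.exp (t • X) * NormedSpace.exp (-t • X) = 1 := by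
    let _ : NormedAlgebra ℚ A := NormedAlgebra.restrictScalars ℚ ℝ A
    rw [← NormedSpace.exp_add_of_commute, neg_smul, add_neg_cancel, NormedSpace.exp_zero]
    exact ((Commute.refl X).smul_right _).smul_left _
  calc NormedSpace.exp (t • X) = NormedSpace.exp (t • X) * (NormedSpace.exp (-t • X) * upow u t) := by
        rw [h4, mul_one]
    _ = upow u t := by rw [← mul_assoc, h6, one_mul]

/-- The exponential series of a nilpotent element. -/
theorem exp_eq_sum {X : A} (hX : IsNilpotent X) (t : ℝ) : NormedSpace.exp (t • X) =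
    ∑ j ∈ Finset.range (Module.finrank ℝ A), (t ^ j * ((j.factorial : ℝ))⁻¹) • X ^ j := by
  rw [NormedSpace.exp_eq_tsum ℝ]
  simp only
  rw [tsum_eq_sum (s := Finset.range (Module.finrank ℝ A))]
  · refine Finset.sum_congr rfl fun j _ => ?_
    rw [smul_pow, smul_smul, mul_comm]
  · intro j hj
    rw [Finset.mem_range, not_lt] at hj
    have h1 : X ^ j = 0 := by
      rw [← Nat.sub_add_cancel hj, pow_add, pow_finrank_eq_zero hX, mul_zero]
    rw [smul_pow, h1, smul_zero, smul_zero]

theorem isPoly_exp_smul {X : A} (hX : IsNilpotent X) :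
    IsPoly fun t : ℝ => NormedSpace.exp (t • X) := by
  simp only [exp_eq_sum hX]
  refine IsPoly.sum _ fun j _ => IsPoly.smul ?_ (isPoly_const _)
  exact mul_mem_polyFun ((polyFun ℝ).pow_mem id_mem_polyFun j) (const_mem_polyFun _)

theorem isNilpotent_exp_sub_one {X : A} (hX : IsNilpotent X) :
    IsNilpotent (NormedSpace.exp X - 1) := by
  by_cases hd : Module.finrank ℝ A = 0
  · have : Subsingleton A := Module.finrank_zero_iff.1 hd
    rw [Subsingleton.elim (NormedSpace.exp X - 1) 0]
    exact IsNilpotent.zero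
  obtain ⟨d, hd'⟩ := Nat.exists_eq_succ_of_ne_zero hd
  have h1 := exp_eq_sum hX 1
  rw [one_smul, hd', Finset.sum_range_succ'] at h1
  have h2 : NormedSpace.exp X - 1 = X * ∑ j ∈ Finset.range d,
      ((1 : ℝ) ^ (j + 1) * (((j + 1).factorial : ℝ))⁻¹) • X ^ j := by
    rw [h1]
    have h3 : ((1 : ℝ) ^ 0 * ((Nat.factorial 0 : ℝ))⁻¹) • X ^ 0 = 1 := by simp
    rw [h3, add_sub_cancel_right, Finset.mul_sum]
    refine Finset.sum_congr rfl fun j _ => ?_
    rw [mul_smul_comm, pow_succ' X j]
  rw [h2]
  refine Commute.isNilpotent_mul_right ?_ hX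
  refine Commute.sum_right _ _ _ fun j _ => ?_
  exact ((Commute.refl X).pow_right j).smul_right _

theorem upow_exp {X : A} (hX : IsNilpotent X) (t : ℝ) :
    upow (NormedSpace.exp X) t = NormedSpace.exp (t • X) := by
  refine isPoly_ext (isPoly_upow_right _) (isPoly_exp_smul hX) (fun n => ?_) t
  have : CompleteSpace A := FiniteDimensional.complete ℝ A
  let _ : NormedAlgebra ℚ A := NormedAlgebra.restrictScalars ℚ ℝ A
  rw [upow_natCast (isNilpotent_exp_sub_one hX), Nat.cast_smul_eq_nsmul, NormedSpace.exp_nsmul]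

theorem ulog_exp {X : A} (hX : IsNilpotent X) : ulog (NormedSpace.exp X) = X := by
  have : CompleteSpace A := FiniteDimensional.complete ℝ A
  have h1 := hasDerivAt_upow_zero (NormedSpace.exp X)
  have e : (fun t : ℝ => upow (NormedSpace.exp X) t) = fun t => NormedSpace.exp (t • X) :=
    funext fun t => upow_exp hX t
  rw [e] at h1
  have h2 := hasDerivAt_exp_smul_const (𝕂 := ℝ) X 0
  rw [zero_smul, NormedSpace.exp_zero, one_mul] at h2
  exact h1.unique h2

omit [FiniteDimensional ℝ A] in
theorem isNilpotent_smul {X : A} (hX : IsNilpotent X) (t : ℝ) : IsNilpotent (t • X) := by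
  obtain ⟨n, hn⟩ := hX
  exact ⟨n, by rw [smul_pow, hn, smul_zero]⟩

theorem ulog_upow {u : A} (hu : IsNilpotent (u - 1)) (t : ℝ) : ulog (upow u t) = t • ulog u := by
  rw [← exp_smul_ulog hu]
  exact ulog_exp (isNilpotent_smul (isNilpotent_ulog hu) t)

theorem exp_ulog {u : A} (hu : IsNilpotent (u - 1)) : NormedSpace.exp (ulog u) = u := by
  have := exp_smul_ulog hu 1
  rwa [one_smul, upow_one hu] at this

/-- The derivative of the logarithm at `1` is the identity. -/
theorem hasDerivAt_ulog {c : ℝ → A} {X : A} (h0 : c 0 = 1) (hc : HasDerivAt c X 0) :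
    HasDerivAt (fun t => ulog (c t)) X 0 := by
  by_cases hd : Module.finrank ℝ A = 0
  · have : Subsingleton A := Module.finrank_zero_iff.1 hd
    have e : (fun t : ℝ => ulog (c t)) = fun _ => 0 := funext fun t => Subsingleton.elim _ _
    rw [e, Subsingleton.elim X 0]
    exact hasDerivAt_const _ _
  obtain ⟨d, hd'⟩ := Nat.exists_eq_succ_of_ne_zero hd
  have h1 : HasDerivAt (fun t => c t - 1) X 0 := hc.sub_const 1
  have h2 : ∀ j : ℕ, HasDerivAt (fun t => (c t - 1) ^ (j + 1 + 1)) 0 0 := by
    intro j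
    induction j with
    | zero =>
      have h3 := h1.mul h1
      simp only [h0, sub_self, zero_mul, mul_zero, add_zero] at h3
      simp only [zero_add, pow_succ, pow_zero, one_mul]
      exact h3
    | succ j ih =>
      have h3 := ih.mul h1
      have e : (fun t => (c t - 1) ^ (j + 1 + 1 + 1)) = fun t => (c t - 1) ^ (j + 1 + 1) * (c t - 1) := by
        ext t
        rw [pow_succ]
      rw [e]
      refine h3.congr_deriv ?_
      rw [h0, sub_self, zero_pow (Nat.succ_ne_zero _), zero_mul, zero_mul, add_zero]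
  have e : (fun t => ulog (c t)) = fun t => (∑ j ∈ Finset.range d,
      ((-1 : ℝ) ^ (j + 1) / (((j + 1 : ℕ) : ℝ) + 1)) • (c t - 1) ^ (j + 1 + 1)) + (c t - 1) := by
    ext t
    rw [ulog, hd', Finset.sum_range_succ']
    congr 1
    simp
  rw [e]
  have h4 : HasDerivAt (fun t => ∑ j ∈ Finset.range d,
      ((-1 : ℝ) ^ (j + 1) / (((j + 1 : ℕ) : ℝ) + 1)) • (c t - 1) ^ (j + 1 + 1)) 0 0 := by
    have h5 : HasDerivAt (fun t => ∑ j ∈ Finset.range d,
        ((-1 : ℝ) ^ (j + 1) / (((j + 1 : ℕ) : ℝ) + 1)) • (c t - 1) ^ (j + 1 + 1))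
        (∑ j ∈ Finset.range d, ((-1 : ℝ) ^ (j + 1) / (((j + 1 : ℕ) : ℝ) + 1)) • (0 : A)) 0 :=
      HasDerivAt.fun_sum fun j _ => (h2 j).fun_const_smul _
    refine h5.congr_deriv ?_
    simp only [smul_zero, Finset.sum_const_zero]
  refine (h4.add h1).congr_deriv ?_
  rw [zero_add]

end B3n

end Pool.Agent.SOL
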