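import Pool.Agent.SOL.B2
import Pool.Agent.SOL.B3

/-!
# The hull of a group of unipotent parts and commutators
-/

set_option autoImplicit false

open Set Filter Topology

namespace Pool.Agent.SOL

section B4

variable {A : Type*} [Ring A] [Algebra ℝ A] [FiniteDimensional ℝ A]

/-- The inverse of a unipotent element as a polynomial. -/
noncomputable def uinv (x : A) : A := ∑ j ∈ Finset.range (Module.finrank ℝ A), (1 - x) ^ j

theorem isPoly_uinv : IsPoly fun x : A => uinv x := by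
  unfold uinv
  exact IsPoly.sum _ fun j _ => ((isPoly_const (1 : A)).sub isPoly_id).pow j

omit [Algebra ℝ A] [FiniteDimensional ℝ A] in
theorem SUnip.isNilpotent {N : Subgroup Aˣ} {m : ℕ} (hN : SUnip N m) {x : Aˣ} (hx : x ∈ N) :
    IsNilpotent ((x : A) - 1) := by
  refine ⟨m, ?_⟩
  have h := hN (List.replicate m x) (List.length_replicate ..) fun y hy => by
    rw [List.eq_of_mem_replicate hy]
    exact hx
  rwa [List.map_replicate, List.prod_replicate] at h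

theorem uinv_eq {x : Aˣ} (hx : IsNilpotent ((x : A) - 1)) : uinv (x : A) = ((x⁻¹ : Aˣ) : A) := by
  have h1 : IsNilpotent (1 - (x : A)) := by
    have := hx.neg
    rwa [neg_sub] at this
  have h2 := geom_sum_mul_neg (1 - (x : A)) (Module.finrank ℝ A)
  rw [pow_finrank_eq_zero h1, sub_zero, sub_sub_cancel] at h2
  have h3 : uinv (x : A) * (x : A) = 1 := h2
  calc uinv (x : A) = uinv (x : A) * ((x : A) * ((x⁻¹ : Aˣ) : A)) := by
        rw [Units.mul_inv, mul_one]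
    _ = ((x⁻¹ : Aˣ) : A) := by rw [← mul_assoc, h3, one_mul]

omit [Algebra ℝ A] [FiniteDimensional ℝ A] in
theorem SUnip.mono {N N' : Subgroup Aˣ} {m : ℕ} (hN : SUnip N m) (h : N' ≤ N) : SUnip N' m :=
  fun l hl hx => hN l hl fun x hxl => h (hx x hxl)

omit [Algebra ℝ A] [FiniteDimensional ℝ A] in
private theorem b4_mul_mem_coeSet (N : Subgroup Aˣ) :
    ∀ x ∈ coeSet N, ∀ y ∈ coeSet N, x * y ∈ coeSet N := by
  rintro _ ⟨x, hx, rfl⟩ _ ⟨y, hy, rfl⟩
  exact ⟨x * y, N.mul_mem hx hy, Units.val_mul x y⟩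

omit [FiniteDimensional ℝ A] in
private theorem b4_one_mem_zcl (N : Subgroup Aˣ) : (1 : A) ∈ zcl (coeSet N) :=
  subset_zcl _ ⟨1, N.one_mem, rfl⟩

/-- The products of differences vanish on the Zariski closure. -/
private theorem b4_pow_eq_zero {N : Subgroup Aˣ} {m : ℕ} (hN : SUnip N m) {a : A}
    (ha : a ∈ zcl (coeSet N)) : (a - 1) ^ m = 0 := by
  refine zcl_eq (φ := fun a : A => (a - 1) ^ m) ((isPoly_id.sub (isPoly_const 1)).pow m) ?_ ha
  rintro _ ⟨x, hx, rfl⟩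
  have h := hN (List.replicate m x) (List.length_replicate ..) fun y hy => by
    rw [List.eq_of_mem_replicate hy]
    exact hx
  rwa [List.map_replicate, List.prod_replicate] at h

private theorem b4_inv_mem_zcl {N : Subgroup Aˣ} {m : ℕ} (hN : SUnip N m) {x : Aˣ}
    (hx : (x : A) ∈ zcl (coeSet N)) : ((x⁻¹ : Aˣ) : A) ∈ zcl (coeSet N) := by
  rw [← uinv_eq ⟨m, b4_pow_eq_zero hN hx⟩]
  refine zcl_map isPoly_uinv ?_ hx
  rintro _ ⟨y, hy, rfl⟩
  rw [uinv_eq (hN.isNilpotent hy)]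
  exact subset_zcl _ ⟨y⁻¹, N.inv_mem hy, rfl⟩

theorem mem_zgrp {N : Subgroup Aˣ} {m : ℕ} (hN : SUnip N m) {x : Aˣ} :
    x ∈ zgrp N ↔ (x : A) ∈ zcl (coeSet N) := by
  constructor
  · intro hx
    unfold zgrp at hx
    induction hx using Subgroup.closure_induction with
    | mem x hx => exact hx
    | one => exact b4_one_mem_zcl N
    | mul x y _ _ hx hy =>
      rw [Units.val_mul]
      exact mul_mem_zcl (b4_mul_mem_coeSet N) hx hy
    | inv x _ hx => exact b4_inv_mem_zcl hN hx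
  · intro hx
    exact Subgroup.subset_closure hx

/-- Every element of the Zariski closure is a unit. -/
theorem exists_unit {N : Subgroup Aˣ} {m : ℕ} (hN : SUnip N m) {a : A} (ha : a ∈ zcl (coeSet N)) :
    ∃ x ∈ zgrp N, (x : A) = a := by
  have h1 : IsNilpotent (a - 1) := ⟨m, b4_pow_eq_zero hN ha⟩
  have h2 : IsUnit a := by
    have := h1.isUnit_add_one
    rwa [sub_add_cancel] at this
  obtain ⟨x, rfl⟩ := h2
  exact ⟨x, (mem_zgrp hN).2 ha, rfl⟩

theorem coeSet_zgrp {N : Subgroup Aˣ} {m : ℕ} (hN : SUnip N m) :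
    coeSet (zgrp N) = zcl (coeSet N) := by
  ext a
  constructor
  · rintro ⟨x, hx, rfl⟩
    exact (mem_zgrp hN).1 hx
  · intro ha
    obtain ⟨x, hx, rfl⟩ := exists_unit hN ha
    exact ⟨x, hx, rfl⟩

omit [FiniteDimensional ℝ A] in
theorem le_zgrp (N : Subgroup Aˣ) : N ≤ zgrp N := fun x hx =>
  Subgroup.subset_closure (subset_zcl (coeSet N) ⟨x, hx, rfl⟩)

omit [FiniteDimensional ℝ A] in
theorem zgrp_mono {N N' : Subgroup Aˣ} (h : N ≤ N') : zgrp N ≤ zgrp N' :=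
  Subgroup.closure_mono fun _ hx => zcl_mono (Set.image_mono h) hx

/-- One factor at a time moves to the Zariski closure. -/
private theorem b4_sunip_aux {N : Subgroup Aˣ} {m : ℕ} (hN : SUnip N m) (l1 : List Aˣ) :
    ∀ l2 : List Aˣ, l1.length + l2.length = m → (∀ x ∈ l1, x ∈ zgrp N) → (∀ x ∈ l2, x ∈ N) →
      (l1.map fun x : Aˣ => (x : A) - 1).reverse.prod * (l2.map fun x : Aˣ => (x : A) - 1).prod
        = 0 := by
  induction l1 with
  | nil =>
    intro l2 hl _ h2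
    simp only [List.map_nil, List.reverse_nil, List.prod_nil, one_mul]
    exact hN l2 (by simpa using hl) h2
  | cons a l1 ih =>
    intro l2 hl h1 h2
    have ha : (a : A) ∈ zcl (coeSet N) := (mem_zgrp hN).1 (h1 a (by simp))
    simp only [List.map_cons, List.reverse_cons, List.prod_append, List.prod_cons, List.prod_nil,
      mul_one, mul_assoc]
    refine zcl_eq (φ := fun a : A => (l1.map fun x : Aˣ => (x : A) - 1).reverse.prod *
      ((a - 1) * (l2.map fun x : Aˣ => (x : A) - 1).prod)) ?_ ?_ ha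
    · exact (isPoly_const _).mul ((isPoly_id.sub (isPoly_const 1)).mul (isPoly_const _))
    · rintro _ ⟨b, hb, rfl⟩
      have := ih (b :: l2) (by simp only [List.length_cons] at hl ⊢; omega)
        (fun x hx => h1 x (List.mem_cons_of_mem _ hx)) (by
          intro x hx
          rcases List.mem_cons.1 hx with rfl | hx
          · exact hb
          · exact h2 x hx)
      simpa only [List.map_cons, List.prod_cons] using this

theorem sunip_zgrp {N : Subgroup Aˣ} {m : ℕ} (hN : SUnip N m) : SUnip (zgrp N) m := by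
  intro l hl hx
  have h := b4_sunip_aux hN l.reverse [] (by simpa using hl) (fun x hxl => hx x (by simpa using hxl))
    (by simp)
  simpa only [List.map_reverse, List.reverse_reverse, List.map_nil, List.prod_nil, mul_one] using h

theorem upow_mem_zgrp {N : Subgroup Aˣ} {m : ℕ} (hN : SUnip N m) {u : Aˣ} (hu : u ∈ zgrp N)
    (t : ℝ) : ∃ x ∈ zgrp N, (x : A) = upow (u : A) t := by
  have hnil : IsNilpotent ((u : A) - 1) := (sunip_zgrp hN).isNilpotent hu
  refine exists_unit hN (curve_mem_zcl (isPoly_upow_right (u : A)) (fun n => ?_) t)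
  rw [upow_natCast hnil, ← Units.val_pow_eq_pow_val]
  exact (mem_zgrp hN).1 ((zgrp N).pow_mem hu n)

omit [Algebra ℝ A] [FiniteDimensional ℝ A] in
theorem commGrp_le (Γ : Subgroup Aˣ) : commGrp Γ ≤ Γ := by
  refine (Subgroup.closure_le _).2 ?_
  rintro _ ⟨g, hg, h, hh, rfl⟩
  exact Γ.mul_mem (Γ.mul_mem (Γ.mul_mem hg hh) (Γ.inv_mem hg)) (Γ.inv_mem hh)

omit [FiniteDimensional ℝ A] in
theorem commGrp_le_unipGrp (Γ : Subgroup Aˣ) : commGrp Γ ≤ unipGrp Γ :=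
  Subgroup.closure_mono subset_union_right

/-! ### Semisimple elements -/

private theorem b4_inv_mem_adjoin (s : Aˣ) :
    ((s⁻¹ : Aˣ) : A) ∈ Algebra.adjoin ℝ ({(s : A)} : Set A) := by
  let B := Algebra.adjoin ℝ ({(s : A)} : Set A)
  have hs : (s : A) ∈ B := Algebra.self_mem_adjoin_singleton ℝ (s : A)
  let L : B →ₗ[ℝ] B := LinearMap.mulLeft ℝ (⟨(s : A), hs⟩ : B)
  have hinj : Function.Injective L := by
    intro x y hxy
    have h1 : (s : A) * (x : A) = (s : A) * (y : A) := congrArg (Subtype.val) hxy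
    exact Subtype.ext (s.isUnit.mul_left_cancel h1)
  obtain ⟨t, ht⟩ := LinearMap.surjective_of_injective hinj 1
  have h2 : (s : A) * (t : A) = 1 := congrArg (Subtype.val) ht
  have h3 : ((s⁻¹ : Aˣ) : A) = (t : A) := by
    calc ((s⁻¹ : Aˣ) : A) = ((s⁻¹ : Aˣ) : A) * ((s : A) * (t : A)) := by rw [h2, mul_one]
      _ = (t : A) := by rw [← mul_assoc, Units.inv_mul, one_mul]
  rw [h3]
  exact t.2

omit [FiniteDimensional ℝ A] in
private theorem b4_isSemisimple {s : A} (h : IsSS s) :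
    (Algebra.lmul ℝ A s : Module.End ℝ A).IsSemisimple := by
  obtain ⟨p, hp, hs⟩ := h
  refine Module.End.isSemisimple_of_squarefree_aeval_eq_zero hp ?_
  rw [Polynomial.aeval_algHom_apply, hs, map_zero]

private theorem b4_isSS {s : A} (h : (Algebra.lmul ℝ A s : Module.End ℝ A).IsSemisimple) :
    IsSS s := by
  refine ⟨_, h.minpoly_squarefree, ?_⟩
  have h1 := minpoly.aeval ℝ (Algebra.lmul ℝ A s : Module.End ℝ A)
  rw [Polynomial.aeval_algHom_apply] at h1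
  have h2 := LinearMap.congr_fun h1 1
  simpa using h2

/-- The pair formed by a semisimple unit and its inverse is semisimple. -/
private theorem b4_isSS_pair {s : Aˣ} (h : IsSS (s : A)) :
    IsSS (((s : A), ((s⁻¹ : Aˣ) : A)) : A × A) := by
  have h1 : IsSS (((s : A), (s : A)) : A × A) := by
    obtain ⟨p, hp, hs⟩ := h
    refine ⟨p, hp, ?_⟩
    have e : (((s : A), (s : A)) : A × A) = (AlgHom.id ℝ A).prod (AlgHom.id ℝ A) (s : A) := rfl
    rw [e, Polynomial.aeval_algHom_apply, hs, map_zero]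
  have h2 : IsSS (((1 : A), (0 : A)) : A × A) := by
    refine ⟨Polynomial.X * (Polynomial.X - Polynomial.C 1), ?_, ?_⟩
    · have h3 : IsCoprime (Polynomial.X : Polynomial ℝ) (Polynomial.X - Polynomial.C 1) := by
        refine ⟨1, -1, ?_⟩
        simp
      exact (squarefree_mul_iff).2 ⟨h3.isRelPrime, Polynomial.irreducible_X.squarefree,
        (Polynomial.irreducible_X_sub_C 1).squarefree⟩
    · ext <;> simp
  refine b4_isSS (Module.End.IsSemisimple.of_mem_adjoin_pair ?_ (b4_isSemisimple h1)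
    (b4_isSemisimple h2) ?_)
  · have h3 : Commute (((s : A), (s : A)) : A × A) ((1 : A), (0 : A)) := by
      ext <;> simp
    exact h3.map (Algebra.lmul ℝ (A × A))
  · let t : (A × A)ˣ := MulEquiv.prodUnits.symm (s, s)
    have h3 : (((t⁻¹ : (A × A)ˣ)) : A × A) ∈ Algebra.adjoin ℝ {(t : A × A)} := b4_inv_mem_adjoin t
    have e1 : (t : A × A) = ((s : A), (s : A)) := rfl
    have e2 : (((t⁻¹ : (A × A)ˣ)) : A × A) = (((s⁻¹ : Aˣ) : A), ((s⁻¹ : Aˣ) : A)) := rfl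
    rw [e1, e2] at h3
    have h4 : (((s : A), ((s⁻¹ : Aˣ) : A)) : A × A) ∈ Algebra.adjoin ℝ
        ({((s : A), (s : A)), ((1 : A), (0 : A))} : Set (A × A)) := by
      have e3 : (((s : A), ((s⁻¹ : Aˣ) : A)) : A × A) = ((1 : A), (0 : A)) * ((s : A), (s : A)) +
          (1 - ((1 : A), (0 : A))) * (((s⁻¹ : Aˣ) : A), ((s⁻¹ : Aˣ) : A)) := by
        ext <;> simp
      rw [e3]
      have m1 : (((1 : A), (0 : A)) : A × A) ∈ Algebra.adjoin ℝ
          ({((s : A), (s : A)), ((1 : A), (0 : A))} : Set (A × A)) :=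
        Algebra.subset_adjoin (by simp)
      have m2 : (((s : A), (s : A)) : A × A) ∈ Algebra.adjoin ℝ
          ({((s : A), (s : A)), ((1 : A), (0 : A))} : Set (A × A)) :=
        Algebra.subset_adjoin (by simp)
      have m3 : ((((s⁻¹ : Aˣ) : A), ((s⁻¹ : Aˣ) : A)) : A × A) ∈ Algebra.adjoin ℝ
          ({((s : A), (s : A)), ((1 : A), (0 : A))} : Set (A × A)) :=
        Algebra.adjoin_mono (by simp) h3
      exact add_mem (mul_mem m1 m2) (mul_mem (sub_mem (one_mem _) m1) m3)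
    have h5 : Algebra.lmul ℝ (A × A) ((s : A), ((s⁻¹ : Aˣ) : A)) ∈ (Algebra.adjoin ℝ
        ({((s : A), (s : A)), ((1 : A), (0 : A))} : Set (A × A))).map (Algebra.lmul ℝ (A × A)) :=
      Subalgebra.mem_map.2 ⟨_, h4, rfl⟩
    rw [AlgHom.map_adjoin, Set.image_pair] at h5
    exact h5

/-- The pair formed by the unipotent part and its inverse is in the Zariski closure of the pairs
formed by the powers and their inverses. -/
private theorem b4_ju_pair {g u : Aˣ} (h : IsJU g u) :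
    (((u : A), ((u⁻¹ : Aˣ) : A)) : A × A) ∈
      zcl (range fun n : ℕ => (((g : A) ^ n, ((g⁻¹ : Aˣ) : A) ^ n) : A × A)) := by
  obtain ⟨s, hg, hc, hs, hu⟩ := h
  let G : (A × A)ˣ := MulEquiv.prodUnits.symm (g, g⁻¹)
  let S : (A × A)ˣ := MulEquiv.prodUnits.symm (s, s⁻¹)
  let U : (A × A)ˣ := MulEquiv.prodUnits.symm (u, u⁻¹)
  have hc' : s⁻¹ * u⁻¹ = u⁻¹ * s⁻¹ := by rw [← mul_inv_rev, ← mul_inv_rev, hc]
  have h1 : IsJU G U := by
    refine ⟨S, ?_, ?_, b4_isSS_pair hs, ?_⟩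
    · change MulEquiv.prodUnits.symm (g, g⁻¹) = MulEquiv.prodUnits.symm (s, s⁻¹) *
        MulEquiv.prodUnits.symm (u, u⁻¹)
      rw [← map_mul, Prod.mk_mul_mk, hg, mul_inv_rev, hc']
    · change MulEquiv.prodUnits.symm (s, s⁻¹) * MulEquiv.prodUnits.symm (u, u⁻¹) =
        MulEquiv.prodUnits.symm (u, u⁻¹) * MulEquiv.prodUnits.symm (s, s⁻¹)
      rw [← map_mul, ← map_mul, Prod.mk_mul_mk, Prod.mk_mul_mk, hc, hc']
    · obtain ⟨m, hm⟩ := hu
      have h2 : (((u⁻¹ : Aˣ) : A) - 1) ^ m = 0 := by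
        have e : ((u⁻¹ : Aˣ) : A) - 1 = -(((u⁻¹ : Aˣ) : A) * ((u : A) - 1)) := by
          rw [mul_sub, Units.inv_mul, mul_one, neg_sub]
        have hcu : Commute ((u⁻¹ : Aˣ) : A) ((u : A) - 1) := by
          refine Commute.sub_right ?_ (Commute.one_right _)
          change ((u⁻¹ : Aˣ) : A) * (u : A) = (u : A) * ((u⁻¹ : Aˣ) : A)
          rw [Units.inv_mul, Units.mul_inv]
        rw [e, neg_pow, hcu.mul_pow, hm, mul_zero, mul_zero]
      refine ⟨m, ?_⟩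
      have e : (U : A × A) - 1 = (((u : A) - 1), (((u⁻¹ : Aˣ) : A) - 1)) := rfl
      rw [e, Prod.pow_mk, hm, h2]
      rfl
  have h2 := ju_mem_zcl h1
  have e1 : (U : A × A) = ((u : A), ((u⁻¹ : Aˣ) : A)) := rfl
  have e2 : (G : A × A) = ((g : A), ((g⁻¹ : Aˣ) : A)) := rfl
  rw [e1, e2] at h2
  simpa only [Prod.pow_mk] using h2

/-! ### Conjugation -/

/-- Conjugation by a unit as a homomorphism of algebras. -/
private def b4Conj (γ : Aˣ) : A →ₐ[ℝ] A where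
  toFun a := (γ : A) * a * ((γ⁻¹ : Aˣ) : A)
  map_one' := by rw [mul_one, Units.mul_inv]
  map_mul' a b := by
    have : (γ : A) * (a * b) * ((γ⁻¹ : Aˣ) : A) =
        (γ : A) * a * (((γ⁻¹ : Aˣ) : A) * (γ : A)) * b * ((γ⁻¹ : Aˣ) : A) := by
      rw [Units.inv_mul, mul_one]
      simp only [mul_assoc]
    rw [this]
    simp only [mul_assoc]
  map_zero' := by rw [mul_zero, zero_mul]
  map_add' a b := by rw [mul_add, add_mul]
  commutes' r := by
    rw [← Algebra.commutes, mul_assoc, Units.mul_inv, mul_one]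

omit [FiniteDimensional ℝ A] in
private theorem b4Conj_unit (γ x : Aˣ) : b4Conj γ (x : A) = ((γ * x * γ⁻¹ : Aˣ) : A) := rfl

omit [FiniteDimensional ℝ A] in
private theorem b4_isJU_conj {g u : Aˣ} (h : IsJU g u) (γ : Aˣ) :
    IsJU (γ * g * γ⁻¹) (γ * u * γ⁻¹) := by
  obtain ⟨s, hg, hc, ⟨p, hp, hs⟩, hu⟩ := h
  refine ⟨γ * s * γ⁻¹, ?_, ?_, ⟨p, hp, ?_⟩, ?_⟩
  · rw [hg]
    group
  · have e1 : γ * s * γ⁻¹ * (γ * u * γ⁻¹) = γ * (s * u) * γ⁻¹ := by group
    have e2 : γ * u * γ⁻¹ * (γ * s * γ⁻¹) = γ * (u * s) * γ⁻¹ := by group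
    rw [e1, e2, hc]
  · rw [← b4Conj_unit, Polynomial.aeval_algHom_apply, hs, map_zero]
  · have h1 := hu.map (b4Conj γ)
    rwa [map_sub, map_one, b4Conj_unit] at h1

omit [FiniteDimensional ℝ A] in
private theorem b4_conj_unipGrp {Γ : Subgroup Aˣ} {γ u : Aˣ} (hγ : γ ∈ Γ) (hu : u ∈ unipGrp Γ) :
    γ * u * γ⁻¹ ∈ unipGrp Γ := by
  unfold unipGrp at hu
  induction hu using Subgroup.closure_induction with
  | mem u hu =>
    refine Subgroup.subset_closure ?_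
    rcases hu with ⟨g, hg, hgu⟩ | ⟨g, hg, h, hh, rfl⟩
    · exact Or.inl ⟨γ * g * γ⁻¹, Γ.mul_mem (Γ.mul_mem hγ hg) (Γ.inv_mem hγ), b4_isJU_conj hgu γ⟩
    · refine Or.inr ⟨γ * g * γ⁻¹, Γ.mul_mem (Γ.mul_mem hγ hg) (Γ.inv_mem hγ), γ * h * γ⁻¹,
        Γ.mul_mem (Γ.mul_mem hγ hh) (Γ.inv_mem hγ), ?_⟩
      group
  | one =>
    rw [mul_one, mul_inv_cancel]
    exact Subgroup.one_mem _
  | mul x y _ _ hx hy =>
    have e : γ * (x * y) * γ⁻¹ = γ * x * γ⁻¹ * (γ * y * γ⁻¹) := by group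
    rw [e]
    exact Subgroup.mul_mem _ hx hy
  | inv x _ hx =>
    have e : γ * x⁻¹ * γ⁻¹ = (γ * x * γ⁻¹)⁻¹ := by group
    rw [e]
    exact Subgroup.inv_mem _ hx

omit [Algebra ℝ A] [FiniteDimensional ℝ A] in
private theorem b4_conj_commGrp {Γ : Subgroup Aˣ} {γ u : Aˣ} (hγ : γ ∈ Γ) (hu : u ∈ commGrp Γ) :
    γ * u * γ⁻¹ ∈ commGrp Γ := by
  unfold commGrp at hu
  induction hu using Subgroup.closure_induction with
  | mem u hu =>
    refine Subgroup.subset_closure ?_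
    obtain ⟨g, hg, h, hh, rfl⟩ := hu
    refine ⟨γ * g * γ⁻¹, Γ.mul_mem (Γ.mul_mem hγ hg) (Γ.inv_mem hγ), γ * h * γ⁻¹,
      Γ.mul_mem (Γ.mul_mem hγ hh) (Γ.inv_mem hγ), ?_⟩
    group
  | one =>
    rw [mul_one, mul_inv_cancel]
    exact Subgroup.one_mem _
  | mul x y _ _ hx hy =>
    have e : γ * (x * y) * γ⁻¹ = γ * x * γ⁻¹ * (γ * y * γ⁻¹) := by group
    rw [e]
    exact Subgroup.mul_mem _ hx hy
  | inv x _ hx =>
    have e : γ * x⁻¹ * γ⁻¹ = (γ * x * γ⁻¹)⁻¹ := by group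
    rw [e]
    exact Subgroup.inv_mem _ hx

theorem conj_mem_hull {Γ : Subgroup Aˣ} {m : ℕ} (hS : SUnip (unipGrp Γ) m) {γ u : Aˣ} (hγ : γ ∈ Γ)
    (hu : u ∈ zgrp (unipGrp Γ)) : γ * u * γ⁻¹ ∈ zgrp (unipGrp Γ) := by
  rw [mem_zgrp hS] at hu ⊢
  rw [← b4Conj_unit]
  refine zcl_map (isPoly_linear (b4Conj γ).toLinearMap) ?_ hu
  rintro _ ⟨x, hx, rfl⟩
  exact subset_zcl _ ⟨γ * x * γ⁻¹, b4_conj_unipGrp hγ hx, rfl⟩

/-- The commutators of `Γ` with a unipotent part are in the closure of the commutator subgroup. -/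
private theorem b4_comm_ju {Γ : Subgroup Aˣ} {m : ℕ} (hC : SUnip (commGrp Γ) m) {γ g u : Aˣ}
    (hγ : γ ∈ Γ) (hg : g ∈ Γ) (h : IsJU g u) : γ * u * γ⁻¹ * u⁻¹ ∈ zgrp (commGrp Γ) := by
  rw [mem_zgrp hC]
  have h1 : IsPoly fun x : A × A => (γ : A) * x.1 * ((γ⁻¹ : Aˣ) : A) * x.2 :=
    (((isPoly_const _).mul (isPoly_linear (LinearMap.fst ℝ A A))).mul (isPoly_const _)).mul
      (isPoly_linear (LinearMap.snd ℝ A A))
  refine zcl_map h1 ?_ (b4_ju_pair h)
  rintro _ ⟨n, rfl⟩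
  refine subset_zcl _ ⟨γ * g ^ n * γ⁻¹ * (g ^ n)⁻¹, ?_, ?_⟩
  · exact Subgroup.subset_closure ⟨γ, hγ, g ^ n, Γ.pow_mem hg n, rfl⟩
  · simp only [Units.val_mul, Units.val_pow_eq_pow_val, ← inv_pow]

/-- Conjugation by a unipotent part of an element of `Γ` preserves the closure of the commutator
subgroup. -/
private theorem b4_conj_ju {Γ : Subgroup Aˣ} {m : ℕ} (hC : SUnip (commGrp Γ) m) {g u d : Aˣ}
    (hg : g ∈ Γ) (h : IsJU g u) (hd : d ∈ zgrp (commGrp Γ)) :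
    u * d * u⁻¹ ∈ zgrp (commGrp Γ) ∧ u⁻¹ * d * u ∈ zgrp (commGrp Γ) := by
  rw [mem_zgrp hC] at hd
  constructor
  · rw [mem_zgrp hC, ← b4Conj_unit]
    refine zcl_map (isPoly_linear (b4Conj u).toLinearMap) ?_ hd
    rintro _ ⟨x, hx, rfl⟩
    have h1 : IsPoly fun y : A × A => y.1 * (x : A) * y.2 :=
      ((isPoly_linear (LinearMap.fst ℝ A A)).mul (isPoly_const _)).mul
        (isPoly_linear (LinearMap.snd ℝ A A))
    refine zcl_map h1 ?_ (b4_ju_pair h)
    rintro _ ⟨n, rfl⟩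
    refine subset_zcl _ ⟨g ^ n * x * (g ^ n)⁻¹, b4_conj_commGrp (Γ.pow_mem hg n) hx, ?_⟩
    simp only [Units.val_mul, Units.val_pow_eq_pow_val, ← inv_pow]
  · have e : u⁻¹ * d * u = u⁻¹ * d * (u⁻¹)⁻¹ := by rw [inv_inv]
    rw [mem_zgrp hC, e, ← b4Conj_unit]
    refine zcl_map (isPoly_linear (b4Conj u⁻¹).toLinearMap) ?_ hd
    rintro _ ⟨x, hx, rfl⟩
    have h1 : IsPoly fun y : A × A => y.2 * (x : A) * y.1 :=
      ((isPoly_linear (LinearMap.snd ℝ A A)).mul (isPoly_const _)).mul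
        (isPoly_linear (LinearMap.fst ℝ A A))
    have e2 : (b4Conj u⁻¹).toLinearMap (x : A) = ((u⁻¹ : Aˣ) : A) * (x : A) * (u : A) := by
      change ((u⁻¹ : Aˣ) : A) * (x : A) * (((u⁻¹)⁻¹ : Aˣ) : A) = _
      rw [inv_inv]
    change (b4Conj u⁻¹).toLinearMap (x : A) ∈ _
    rw [e2]
    refine zcl_map h1 ?_ (b4_ju_pair h)
    rintro _ ⟨n, rfl⟩
    refine subset_zcl _ ⟨g⁻¹ ^ n * x * (g⁻¹ ^ n)⁻¹,
      b4_conj_commGrp (Γ.pow_mem (Γ.inv_mem hg) n) hx, ?_⟩
    simp only [Units.val_mul, Units.val_pow_eq_pow_val, ← inv_pow, inv_inv]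

/-- The properties of the elements of the group of unipotent parts and commutators. -/
private theorem b4_unipGrp {Γ : Subgroup Aˣ} {m : ℕ} (hC : SUnip (commGrp Γ) m) {u : Aˣ}
    (hu : u ∈ unipGrp Γ) : (∀ γ ∈ Γ, γ * u * γ⁻¹ * u⁻¹ ∈ zgrp (commGrp Γ)) ∧
      (∀ d ∈ zgrp (commGrp Γ), u * d * u⁻¹ ∈ zgrp (commGrp Γ)) ∧
      ∀ d ∈ zgrp (commGrp Γ), u⁻¹ * d * u ∈ zgrp (commGrp Γ) := by
  unfold unipGrp at hu
  induction hu using Subgroup.closure_induction with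
  | mem u hu =>
    rcases hu with ⟨g, hg, hgu⟩ | ⟨g, hg, h, hh, rfl⟩
    · exact ⟨fun γ hγ => b4_comm_ju hC hγ hg hgu, fun d hd => (b4_conj_ju hC hg hgu hd).1,
        fun d hd => (b4_conj_ju hC hg hgu hd).2⟩
    · have h1 : g * h * g⁻¹ * h⁻¹ ∈ commGrp Γ := Subgroup.subset_closure ⟨g, hg, h, hh, rfl⟩
      have h2 := le_zgrp _ h1
      refine ⟨fun γ hγ => le_zgrp _ (Subgroup.subset_closure ⟨γ, hγ, _, commGrp_le Γ h1, rfl⟩),
        fun d hd => ?_, fun d hd => ?_⟩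
      · exact Subgroup.mul_mem _ (Subgroup.mul_mem _ h2 hd) (Subgroup.inv_mem _ h2)
      · exact Subgroup.mul_mem _ (Subgroup.mul_mem _ (Subgroup.inv_mem _ h2) hd) h2
  | one =>
    refine ⟨fun γ _ => ?_, fun d hd => ?_, fun d hd => ?_⟩
    · rw [mul_one, mul_inv_cancel, inv_one, mul_one]
      exact Subgroup.one_mem _
    · rwa [one_mul, inv_one, mul_one]
    · rwa [inv_one, one_mul, mul_one]
  | mul x y _ _ hx hy =>
    refine ⟨fun γ hγ => ?_, fun d hd => ?_, fun d hd => ?_⟩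
    · have e : γ * (x * y) * γ⁻¹ * (x * y)⁻¹ =
          (γ * x * γ⁻¹ * x⁻¹) * (x * (γ * y * γ⁻¹ * y⁻¹) * x⁻¹) := by group
      rw [e]
      exact Subgroup.mul_mem _ (hx.1 γ hγ) (hx.2.1 _ (hy.1 γ hγ))
    · have e : x * y * d * (x * y)⁻¹ = x * (y * d * y⁻¹) * x⁻¹ := by group
      rw [e]
      exact hx.2.1 _ (hy.2.1 _ hd)
    · have e : (x * y)⁻¹ * d * (x * y) = y⁻¹ * (x⁻¹ * d * x) * y := by group
      rw [e]
      exact hy.2.2 _ (hx.2.2 _ hd)
  | inv x _ hx =>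
    refine ⟨fun γ hγ => ?_, fun d hd => ?_, fun d hd => ?_⟩
    · have e : γ * x⁻¹ * γ⁻¹ * x⁻¹⁻¹ = x⁻¹ * (γ * x * γ⁻¹ * x⁻¹)⁻¹ * x := by group
      rw [e]
      exact hx.2.2 _ (Subgroup.inv_mem _ (hx.1 γ hγ))
    · have e : x⁻¹ * d * x⁻¹⁻¹ = x⁻¹ * d * x := by group
      rw [e]
      exact hx.2.2 _ hd
    · have e : x⁻¹⁻¹ * d * x⁻¹ = x * d * x⁻¹ := by group
      rw [e]
      exact hx.2.1 _ hd

omit [FiniteDimensional ℝ A] in
private theorem b4_sunip_comm {Γ : Subgroup Aˣ} {m : ℕ} (hS : SUnip (unipGrp Γ) m) :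
    SUnip (commGrp Γ) m := hS.mono (commGrp_le_unipGrp Γ)

/-- `[Γ, U] ⊆ D`. -/
theorem comm_mem_hull {Γ : Subgroup Aˣ} {m : ℕ} (hS : SUnip (unipGrp Γ) m) {γ u : Aˣ}
    (hγ : γ ∈ Γ) (hu : u ∈ zgrp (unipGrp Γ)) : γ * u * γ⁻¹ * u⁻¹ ∈ zgrp (commGrp Γ) := by
  have hC := b4_sunip_comm hS
  have hnil := (sunip_zgrp hS).isNilpotent hu
  rw [mem_zgrp hS] at hu
  rw [mem_zgrp hC]
  have h1 : IsPoly fun a : A => (γ : A) * a * ((γ⁻¹ : Aˣ) : A) * uinv a :=
    (((isPoly_const _).mul isPoly_id).mul (isPoly_const _)).mul isPoly_uinv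
  have h2 : (γ : A) * (u : A) * ((γ⁻¹ : Aˣ) : A) * uinv (u : A) ∈ zcl (coeSet (commGrp Γ)) := by
    refine zcl_map h1 ?_ hu
    rintro _ ⟨x, hx, rfl⟩
    have h3 := (mem_zgrp hC).1 ((b4_unipGrp hC hx).1 γ hγ)
    simp only [uinv_eq (hS.isNilpotent hx)]
    simpa only [Units.val_mul] using h3
  rw [uinv_eq hnil] at h2
  simpa only [Units.val_mul] using h2

/-- The hull normalises the closure of the commutator subgroup. -/
theorem conj_mem_comm {Γ : Subgroup Aˣ} {m : ℕ} (hS : SUnip (unipGrp Γ) m) {u d : Aˣ}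
    (hu : u ∈ zgrp (unipGrp Γ)) (hd : d ∈ zgrp (commGrp Γ)) : u * d * u⁻¹ ∈ zgrp (commGrp Γ) := by
  have hC := b4_sunip_comm hS
  have hnil := (sunip_zgrp hS).isNilpotent hu
  rw [mem_zgrp hS] at hu
  rw [mem_zgrp hC]
  have h1 : IsPoly fun a : A => a * (d : A) * uinv a :=
    (isPoly_id.mul (isPoly_const _)).mul isPoly_uinv
  have h2 : (u : A) * (d : A) * uinv (u : A) ∈ zcl (coeSet (commGrp Γ)) := by
    refine zcl_map h1 ?_ hu
    rintro _ ⟨x, hx, rfl⟩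
    have h3 := (mem_zgrp hC).1 ((b4_unipGrp hC hx).2.1 d hd)
    simp only [uinv_eq (hS.isNilpotent hx)]
    simpa only [Units.val_mul] using h3
  rw [uinv_eq hnil] at h2
  simpa only [Units.val_mul] using h2

section aff

variable {V : Type*} [NormedAddCommGroup V] [NormedSpace ℝ V]

private theorem b4_isAff_one : IsAff (1 : EndE V) := fun _ => rfl

private theorem b4_isAff_mul {a b : EndE V} (ha : IsAff a) (hb : IsAff b) : IsAff (a * b) :=
  fun x => (ha (b x)).trans (hb x)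

private theorem b4_isAff_pow {a : EndE V} (ha : IsAff a) (n : ℕ) : IsAff (a ^ n) := by
  induction n with
  | zero =>
    rw [pow_zero]
    exact b4_isAff_one
  | succ n ih =>
    rw [pow_succ]
    exact b4_isAff_mul ih ha

private theorem b4_isAff_inv {a : (EndE V)ˣ} (ha : IsAff (a : EndE V)) :
    IsAff ((a⁻¹ : (EndE V)ˣ) : EndE V) := by
  intro x
  have h1 : (a : EndE V) (((a⁻¹ : (EndE V)ˣ) : EndE V) x) = x := by
    have h2 : (a : EndE V) * ((a⁻¹ : (EndE V)ˣ) : EndE V) = 1 := Units.mul_inv a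
    exact DFunLike.congr_fun h2 x
  rw [← ha, h1]

private theorem b4_isAff_zcl {S : Set (EndE V)} (hS : ∀ a ∈ S, IsAff a) {a : EndE V}
    (ha : a ∈ zcl S) : IsAff a := by
  intro x
  let L : EndE V →ₗ[ℝ] ℝ :=
    { toFun := fun a => (a x).2
      map_add' := fun _ _ => rfl
      map_smul' := fun _ _ => rfl }
  exact zcl_eq (φ := L) (isPoly_linear L) (fun b hb => hS b hb x) ha

/-- `IsAff` passes to the hull. -/
theorem isAff_hull {V : Type*} [NormedAddCommGroup V] [NormedSpace ℝ V] [FiniteDimensional ℝ V]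
    {Γ : Subgroup (EndE V)ˣ} {m : ℕ} (hS : SUnip (unipGrp Γ) m)
    (hΓ : ∀ γ ∈ Γ, IsAff (γ : EndE V)) {u : (EndE V)ˣ} (hu : u ∈ zgrp (unipGrp Γ)) :
    IsAff (u : EndE V) := by
  rw [mem_zgrp hS] at hu
  refine b4_isAff_zcl ?_ hu
  rintro _ ⟨x, hx, rfl⟩
  change IsAff (x : EndE V)
  replace hx : x ∈ unipGrp Γ := hx
  unfold unipGrp at hx
  induction hx using Subgroup.closure_induction with
  | mem u hu =>
    rcases hu with ⟨g, hg, hgu⟩ | ⟨g, hg, h, hh, rfl⟩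
    · refine b4_isAff_zcl ?_ (ju_mem_zcl hgu)
      rintro _ ⟨n, rfl⟩
      exact b4_isAff_pow (hΓ g hg) n
    · exact hΓ _ (Γ.mul_mem (Γ.mul_mem (Γ.mul_mem hg hh) (Γ.inv_mem hg)) (Γ.inv_mem hh))
  | one => exact b4_isAff_one
  | mul x y _ _ hx hy =>
    rw [Units.val_mul]
    exact b4_isAff_mul hx hy
  | inv x _ hx => exact b4_isAff_inv hx

end aff

end B4

end Pool.Agent.SOL
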