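import Pool.Agent.SOL.B3
import Pool.Agent.SOL.B4
import Pool.Agent.Helper47.SOLV.Malcev

/-!
# Module C: a unipotent group is cocompact in its Zariski closure
-/

set_option autoImplicit false

open Set Filter Topology

namespace Pool.Agent.SOL

open Pool.Agent.Helper47.SOLV

section nilp

variable {A : Type*} [Ring A]

/-- Sums of products of at least `k` factors `x - 1`, `x ∈ N`. -/
def prodIdeal (N : Subgroup Aˣ) (k : ℕ) : AddSubgroup A :=
  AddSubgroup.closure {a | ∃ l : List Aˣ, k ≤ l.length ∧ (∀ x ∈ l, x ∈ N) ∧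
    a = (l.map fun x : Aˣ => (x : A) - 1).prod}

variable {N : Subgroup Aˣ}

theorem prodIdeal_mul {k l : ℕ} {a b : A} (ha : a ∈ prodIdeal N k) (hb : b ∈ prodIdeal N l) :
    a * b ∈ prodIdeal N (k + l) := by
  induction ha using AddSubgroup.closure_induction with
  | mem a ha =>
    obtain ⟨L, hL, hLN, rfl⟩ := ha
    induction hb using AddSubgroup.closure_induction with
    | mem b hb =>
      obtain ⟨L', hL', hLN', rfl⟩ := hb
      refine AddSubgroup.subset_closure ⟨L ++ L', ?_, ?_, ?_⟩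
      · rw [List.length_append]; omega
      · intro x hx
        rcases List.mem_append.mp hx with h | h
        · exact hLN x h
        · exact hLN' x h
      · rw [List.map_append, List.prod_append]
    | zero => rw [mul_zero]; exact AddSubgroup.zero_mem _
    | add b c _ _ hb hc => rw [mul_add]; exact AddSubgroup.add_mem _ hb hc
    | neg b _ hb => rw [mul_neg]; exact AddSubgroup.neg_mem _ hb
  | zero => rw [zero_mul]; exact AddSubgroup.zero_mem _
  | add b c _ _ hb hc => rw [add_mul]; exact AddSubgroup.add_mem _ hb hc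
  | neg b _ hb => rw [neg_mul]; exact AddSubgroup.neg_mem _ hb

theorem prodIdeal_mono {k l : ℕ} (h : k ≤ l) : (prodIdeal N l : AddSubgroup A) ≤ prodIdeal N k := by
  apply AddSubgroup.closure_mono
  rintro a ⟨L, hL, h1, h2⟩
  exact ⟨L, h.trans hL, h1, h2⟩

theorem sub_one_mem_prodIdeal {x : Aˣ} (hx : x ∈ N) : (x : A) - 1 ∈ prodIdeal N 1 :=
  AddSubgroup.subset_closure ⟨[x], by simp, by simp [hx], by simp⟩

theorem prodIdeal_mul_right {k : ℕ} {a : A} (ha : a ∈ prodIdeal N k) {x : Aˣ} (hx : x ∈ N) :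
    a * x ∈ prodIdeal N k := by
  have h : a * x = a + a * ((x : A) - 1) := by rw [mul_sub, mul_one]; abel
  have h1 : a * ((x : A) - 1) ∈ prodIdeal N (k + 1) := prodIdeal_mul ha (sub_one_mem_prodIdeal hx)
  rw [h]
  exact AddSubgroup.add_mem _ ha (prodIdeal_mono (Nat.le_succ k) h1)

theorem prodIdeal_eq_bot {m : ℕ} (hN : SUnip N m) {a : A} (ha : a ∈ prodIdeal N m) : a = 0 := by
  induction ha using AddSubgroup.closure_induction with
  | mem a ha =>
    obtain ⟨L, hL, hLN, rfl⟩ := ha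
    rw [← List.take_append_drop m L, List.map_append, List.prod_append,
      hN (L.take m) (by rw [List.length_take]; omega) fun x hx => hLN x (List.mem_of_mem_take hx),
      zero_mul]
  | zero => rfl
  | add b c _ _ hb hc => rw [hb, hc, add_zero]
  | neg b _ hb => rw [hb, neg_zero]

/-- A unipotent group is nilpotent. -/
theorem isNilpotent_of_sunip {m : ℕ} (hN : SUnip N m) : Group.IsNilpotent N := by
  rw [Subgroup.nilpotent_iff_finite_descending_central_series]
  refine ⟨m, fun n =>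
    { carrier := {x | ((x : Aˣ) : A) - 1 ∈ prodIdeal N (n + 1)}
      one_mem' := by
        change ((1 : Aˣ) : A) - 1 ∈ (prodIdeal N (n + 1) : AddSubgroup A)
        rw [Units.val_one, sub_self]
        exact AddSubgroup.zero_mem _
      mul_mem' := by
        intro x y hx hy
        change ((x : Aˣ) : A) * ((y : Aˣ) : A) - 1 ∈ (prodIdeal N (n + 1) : AddSubgroup A)
        have h : ((x : Aˣ) : A) * ((y : Aˣ) : A) - 1 =
            (((x : Aˣ) : A) - 1) * ((y : Aˣ) : A) + (((y : Aˣ) : A) - 1) := by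
          rw [sub_mul, one_mul]; abel
        rw [h]
        exact AddSubgroup.add_mem _ (prodIdeal_mul_right hx y.2) hy
      inv_mem' := by
        intro x hx
        change (((x : Aˣ)⁻¹ : Aˣ) : A) - 1 ∈ (prodIdeal N (n + 1) : AddSubgroup A)
        have h : (((x : Aˣ)⁻¹ : Aˣ) : A) - 1 = -((((x : Aˣ) : A) - 1) * (((x : Aˣ)⁻¹ : Aˣ) : A)) := by
          rw [sub_mul, Units.mul_inv, one_mul]; abel
        rw [h]
        exact AddSubgroup.neg_mem _ (prodIdeal_mul_right hx (N.inv_mem x.2)) }, ⟨?_, ?_⟩, ?_⟩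
  · rw [eq_top_iff]
    intro x _
    exact sub_one_mem_prodIdeal x.2
  · intro x n hx g
    change (((x * g * x⁻¹ * g⁻¹ : N) : Aˣ) : A) - 1 ∈ (prodIdeal N (n + 1 + 1) : AddSubgroup A)
    have hx' : ((x : Aˣ) : A) - 1 ∈ prodIdeal N (n + 1) := hx
    have h : (((x * g * x⁻¹ * g⁻¹ : N) : Aˣ) : A) - 1 =
        ((((x : Aˣ) : A) - 1) * (((g : Aˣ) : A) - 1) - (((g : Aˣ) : A) - 1) * (((x : Aˣ) : A) - 1)) *
          (((x⁻¹ : N) : Aˣ) : A) * (((g⁻¹ : N) : Aˣ) : A) := by
      have h1 : (((x : Aˣ) : A) - 1) * (((g : Aˣ) : A) - 1) -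
          (((g : Aˣ) : A) - 1) * (((x : Aˣ) : A) - 1) =
          ((x : Aˣ) : A) * ((g : Aˣ) : A) - ((g : Aˣ) : A) * ((x : Aˣ) : A) := by
        noncomm_ring
      have h2 : ((g : Aˣ) : A) * ((x : Aˣ) : A) * (((x⁻¹ : N) : Aˣ) : A) * (((g⁻¹ : N) : Aˣ) : A) =
          1 := by
        have : ((g * x * x⁻¹ * g⁻¹ : N) : Aˣ) = 1 := by
          have : (g * x * x⁻¹ * g⁻¹ : N) = 1 := by group
          rw [this]; rfl
        have h3 := congrArg (fun z : Aˣ => (z : A)) this
        simpa using h3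
      rw [h1, sub_mul, sub_mul, h2]
      simp only [Subgroup.coe_mul, Units.val_mul]
    rw [h]
    refine prodIdeal_mul_right (prodIdeal_mul_right (AddSubgroup.sub_mem _ ?_ ?_) (x⁻¹).2) (g⁻¹).2
    · exact prodIdeal_mul hx' (sub_one_mem_prodIdeal g.2)
    · have := prodIdeal_mul (sub_one_mem_prodIdeal g.2) hx'
      rwa [add_comm] at this
  · rw [eq_bot_iff]
    intro x hx
    have h1 : ((x : Aˣ) : A) - 1 = 0 :=
      prodIdeal_eq_bot hN (prodIdeal_mono (Nat.le_succ m) hx)
    rw [Subgroup.mem_bot]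
    apply Subtype.ext
    apply Units.ext
    exact sub_eq_zero.mp h1

end nilp

theorem IsPoly.continuous_fd {W W' : Type*} [NormedAddCommGroup W] [NormedSpace ℝ W]
    [FiniteDimensional ℝ W] [NormedAddCommGroup W'] [NormedSpace ℝ W'] [FiniteDimensional ℝ W']
    {φ : W → W'} (hφ : IsPoly φ) : Continuous φ := by
  let b := Module.finBasis ℝ W'
  have e : φ = fun x => ∑ i, b.repr (φ x) i • b i := by
    ext x
    rw [b.sum_repr]
  rw [e]
  refine continuous_finsetSum _ fun i _ => ?_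
  exact (continuous_of_mem_polyFun (hφ (b.coord i))).smul continuous_const

section coc

variable {A : Type*} [NormedRing A] [NormedAlgebra ℝ A] [FiniteDimensional ℝ A]
  {N : Subgroup Aˣ} {m : ℕ}

/-- Real powers in the hull. -/
noncomputable def pwU (hN : SUnip N m) (x : zgrp N) (t : ℝ) : zgrp N :=
  ⟨(upow_mem_zgrp hN x.2 t).choose, (upow_mem_zgrp hN x.2 t).choose_spec.1⟩

theorem pwU_val (hN : SUnip N m) (x : zgrp N) (t : ℝ) :
    ((pwU hN x t : Aˣ) : A) = upow ((x : Aˣ) : A) t := (upow_mem_zgrp hN x.2 t).choose_spec.2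

theorem isNilpotent_hull (hN : SUnip N m) (x : zgrp N) : IsNilpotent (((x : Aˣ) : A) - 1) :=
  (sunip_zgrp hN).isNilpotent x.2

omit [FiniteDimensional ℝ A] in
theorem upow_conj (g : Aˣ) (a : A) (t : ℝ) :
    upow ((g : A) * a * ((g⁻¹ : Aˣ) : A)) t = (g : A) * upow a t * ((g⁻¹ : Aˣ) : A) := by
  have h : ∀ j : ℕ, ((g : A) * a * ((g⁻¹ : Aˣ) : A) - 1) ^ j =
      (g : A) * (a - 1) ^ j * ((g⁻¹ : Aˣ) : A) := by
    intro j
    have h1 : (g : A) * a * ((g⁻¹ : Aˣ) : A) - 1 = (g : A) * (a - 1) * ((g⁻¹ : Aˣ) : A) := by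
      rw [mul_sub, sub_mul, mul_one, Units.mul_inv]
    rw [h1, Units.conj_pow]
  simp only [upow, h, Finset.mul_sum, Finset.sum_mul, mul_smul_comm, smul_mul_assoc]

theorem pwU_mul_neg (hN : SUnip N m) (x : zgrp N) (t : ℝ) :
    (pwU hN x t)⁻¹ = pwU hN x (-t) := by
  symm
  apply eq_inv_of_mul_eq_one_left
  apply Subtype.ext
  apply Units.ext
  change ((pwU hN x (-t) : Aˣ) : A) * ((pwU hN x t : Aˣ) : A) = 1
  rw [pwU_val, pwU_val, ← upow_add (isNilpotent_hull hN x), neg_add_cancel, upow_zero]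

theorem continuous_upow : Continuous fun x : A × ℝ => upow x.1 x.2 :=
  isPoly_upow.continuous_fd

/-- The real powers of the hull as a power structure. -/
noncomputable def hullPow (hN : SUnip N m) : RPow (zgrp N) where
  pw := pwU hN
  cont := by
    have h1 : Continuous fun p : zgrp N × ℝ => (((p.1 : Aˣ) : A), p.2) :=
      (Units.continuous_val.comp (continuous_subtype_val.comp continuous_fst)).prodMk
        continuous_snd
    have h2 : Continuous fun p : zgrp N × ℝ => (((p.1 : Aˣ) : A), -p.2) :=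
      (Units.continuous_val.comp (continuous_subtype_val.comp continuous_fst)).prodMk
        continuous_snd.neg
    refine Continuous.subtype_mk (Units.continuous_iff.mpr ⟨?_, ?_⟩) _
    · exact (continuous_upow.comp h1).congr fun p => (pwU_val hN p.1 p.2).symm
    · refine (continuous_upow.comp h2).congr fun p => ?_
      have h3 := pwU_mul_neg hN p.1 p.2
      have h4 := congrArg (fun z : zgrp N => ((z : Aˣ) : A)) h3
      change _ = (((pwU hN p.1 p.2 : Aˣ)⁻¹ : Aˣ) : A)
      simp only [InvMemClass.coe_inv] at h4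
      rw [h4, pwU_val]
      rfl
  one x := by
    apply Subtype.ext
    apply Units.ext
    rw [pwU_val]
    have := upow_natCast (isNilpotent_hull hN x) 1
    rwa [Nat.cast_one, pow_one] at this
  add x s t := by
    apply Subtype.ext
    apply Units.ext
    change _ = ((pwU hN x s : Aˣ) : A) * ((pwU hN x t : Aˣ) : A)
    rw [pwU_val, pwU_val, pwU_val, upow_add (isNilpotent_hull hN x)]
  mul x s t := by
    apply Subtype.ext
    apply Units.ext
    rw [pwU_val, pwU_val, pwU_val, upow_mul (isNilpotent_hull hN x)]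
  conj g x t := by
    apply Subtype.ext
    apply Units.ext
    rw [pwU_val]
    change upow (((g : Aˣ) : A) * ((x : Aˣ) : A) * (((g : Aˣ)⁻¹ : Aˣ) : A)) t =
      ((g : Aˣ) : A) * ((pwU hN x t : Aˣ) : A) * (((g : Aˣ)⁻¹ : Aˣ) : A)
    rw [pwU_val, upow_conj]

theorem isClosedEmbedding_hull (hN : SUnip N m) :
    IsClosedEmbedding fun x : zgrp N => ((x : Aˣ) : A) := by
  have hc : CompleteSpace A := FiniteDimensional.complete ℝ A
  have h1 : IsEmbedding fun x : zgrp N => ((x : Aˣ) : A) :=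
    (Units.isOpenEmbedding_val (R := A)).isEmbedding.comp IsEmbedding.subtypeVal
  refine ⟨h1, ?_⟩
  have h2 : range (fun x : zgrp N => ((x : Aˣ) : A)) = zcl (coeSet N) := by
    rw [← coeSet_zgrp hN]
    ext a
    constructor
    · rintro ⟨x, rfl⟩
      exact ⟨x, x.2, rfl⟩
    · rintro ⟨x, hx, rfl⟩
      exact ⟨⟨x, hx⟩, rfl⟩
  rw [h2]
  exact isClosed_zcl _

/-- A closed subgroup of the hull of `N` which is stable under powers and contains `N` is the whole
hull. -/
theorem hull_dense (hN : SUnip N m) (H : Subgroup (zgrp N)) (hcl : IsClosed (H : Set (zgrp N)))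
    (hst : (hullPow hN).Stable H) (hNH : ∀ n (hn : n ∈ N), (⟨n, le_zgrp N hn⟩ : zgrp N) ∈ H) :
    H = ⊤ := by
  have hc : CompleteSpace A := FiniteDimensional.complete ℝ A
  let _ : NormedAlgebra ℚ A := NormedAlgebra.restrictScalars ℚ ℝ A
  set T : Set A := (fun x : zgrp N => ((x : Aˣ) : A)) '' (H : Set (zgrp N)) with hT
  have hTcl : IsClosed T := (isClosedEmbedding_hull hN).isClosedMap _ hcl
  have hTm : ∀ a ∈ T, ∀ b ∈ T, a * b ∈ T := by
    rintro _ ⟨x, hx, rfl⟩ _ ⟨y, hy, rfl⟩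
    exact ⟨x * y, H.mul_mem hx hy, rfl⟩
  have hTn : ∀ a ∈ T, IsNilpotent (a - 1) := by
    rintro _ ⟨x, hx, rfl⟩
    exact isNilpotent_hull hN x
  have hTp : ∀ a ∈ T, ∀ t : ℝ, upow a t ∈ T := by
    rintro _ ⟨x, hx, rfl⟩ t
    exact ⟨pwU hN x t, hst x hx t, pwU_val hN x t⟩
  have hT1 : (1 : A) ∈ T := ⟨1, H.one_mem, rfl⟩
  let 𝔥 : Submodule ℝ A :=
    { carrier := {X | ∀ t : ℝ, NormedSpace.exp (t • X) ∈ T}
      zero_mem' := fun t => by
        rw [smul_zero, NormedSpace.exp_zero]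
        exact hT1
      smul_mem' := fun c X hX t => by
        rw [smul_smul]
        exact hX (t * c)
      add_mem' := by
        intro X Y hX hY r
        set c : ℝ → A := fun ε => NormedSpace.exp (ε • X) * NormedSpace.exp (ε • Y) with hc'
        have hcT : ∀ ε, c ε ∈ T := fun ε => hTm _ (hX ε) _ (hY ε)
        have hc0 : c 0 = 1 := by
          simp only [hc', zero_smul, NormedSpace.exp_zero, mul_one]
        have hder : HasDerivAt c (X + Y) 0 := by
          have h1 := hasDerivAt_exp_smul_const (𝕂 := ℝ) X (0 : ℝ)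
          have h2 := hasDerivAt_exp_smul_const (𝕂 := ℝ) Y (0 : ℝ)
          have h3 := h1.mul h2
          simp only [zero_smul, NormedSpace.exp_zero, mul_one, one_mul] at h3
          exact h3
        have h4 := hasDerivAt_ulog hc0 hder
        rw [hasDerivAt_iff_tendsto_slope_zero] at h4
        simp only [hc0, zero_add, ulog_one, sub_zero] at h4
        have h5 : Tendsto (fun ε : ℝ => NormedSpace.exp (r • (ε⁻¹ • ulog (c ε)))) (𝓝[≠] 0)
            (𝓝 (NormedSpace.exp (r • (X + Y)))) :=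
          (NormedSpace.exp_continuous.tendsto _).comp (h4.const_smul r)
        refine hTcl.mem_of_tendsto h5 (Eventually.of_forall fun ε => ?_)
        rw [smul_smul, exp_smul_ulog (hTn _ (hcT ε))]
        exact hTp _ (hcT ε) _ }
  have hmem : ∀ X, X ∈ 𝔥 ↔ ∀ t : ℝ, NormedSpace.exp (t • X) ∈ T := fun X => Iff.rfl
  have hlog : ∀ a ∈ coeSet N, 𝔥.mkQ (ulog a) = 0 := by
    rintro _ ⟨x, hx, rfl⟩
    rw [Submodule.mkQ_apply, Submodule.Quotient.mk_eq_zero, hmem]
    intro t
    have h1 : (x : A) ∈ T := ⟨⟨x, le_zgrp N hx⟩, hNH x hx, rfl⟩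
    change NormedSpace.exp (t • ulog (x : A)) ∈ T
    rw [exp_smul_ulog (hTn _ h1)]
    exact hTp _ h1 t
  rw [eq_top_iff]
  intro x _
  have hx : ((x : Aˣ) : A) ∈ zcl (coeSet N) := by
    rw [← coeSet_zgrp hN]
    exact ⟨x, x.2, rfl⟩
  have h1 : 𝔥.mkQ (ulog ((x : Aˣ) : A)) = 0 :=
    zcl_eq ((isPoly_linear 𝔥.mkQ).comp isPoly_ulog) hlog hx
  rw [Submodule.mkQ_apply, Submodule.Quotient.mk_eq_zero, hmem] at h1
  have h2 := h1 1
  have h3 := upow_natCast (isNilpotent_hull hN x) 1
  rw [Nat.cast_one, pow_one] at h3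
  rw [exp_smul_ulog (isNilpotent_hull hN x), h3] at h2
  obtain ⟨y, hy, hyx⟩ := h2
  have : y = x := by
    apply Subtype.ext
    apply Units.ext
    exact hyx
  rwa [← this]

/-- **Module C.**  A unipotent group is cocompact in its Zariski closure. -/
theorem cocompact {A : Type*} [NormedRing A] [NormedAlgebra ℝ A] [FiniteDimensional ℝ A]
    {N : Subgroup Aˣ} {m : ℕ} (hN : SUnip N m) (_ : Group.IsSolvable N) :
    ∃ C : Set A, IsCompact C ∧
      ∀ x ∈ zgrp N, ∃ n ∈ N, ∃ c ∈ zgrp N, (c : A) ∈ C ∧ x = n * c := by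
  have hc : CompleteSpace A := FiniteDimensional.complete ℝ A
  have hp : ProperSpace A := FiniteDimensional.proper ℝ A
  have hnil : Group.IsNilpotent N := isNilpotent_of_sunip hN
  have hemb := isClosedEmbedding_hull hN
  have hlc : LocallyCompactSpace (zgrp N) := hemb.locallyCompactSpace
  have hT2 : T2Space (zgrp N) := hemb.isEmbedding.t2Space
  obtain ⟨C, hC, h⟩ := malcev N (zgrp N) (hullPow hN) (Subgroup.inclusion (le_zgrp N))
    fun H hcl hst hNH => hull_dense hN H hcl hst fun n hn => hNH ⟨n, hn⟩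
  refine ⟨_, hC.image hemb.continuous, fun x hx => ?_⟩
  obtain ⟨n, c, hcC, he⟩ := h ⟨x, hx⟩
  exact ⟨n, n.2, c, c.2, ⟨c, hcC, rfl⟩, congrArg Subtype.val he⟩

end coc

end Pool.Agent.SOL
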