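import Pool.Agent.SOL.Lift

/-!
# The holonomy is discrete with finite kernel
-/

set_option autoImplicit false

open Set Filter Topology

namespace Pool.Agent.SOL

open Pool.Agent.Helper2.MK

section Disc

variable {V : Type*} [NormedAddCommGroup V] [NormedSpace ℝ V]

/-- the linear part as a continuous linear map -/
noncomputable def linC (a : EndE V) : V →L[ℝ] V :=
  (ContinuousLinearMap.fst ℝ V ℝ).comp (a.comp (ContinuousLinearMap.inl ℝ V ℝ))

lemma linC_apply (a : EndE V) (v : V) : linC a v = (a (v, 0)).1 := rfl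

lemma continuous_linC : Continuous (linC : EndE V → V →L[ℝ] V) := by
  unfold linC
  fun_prop

lemma act_split (a : EndE V) (v : V) : act a v = linC a v + (a (0, 1)).1 := by
  show (a (v, 1)).1 = (a (v, 0)).1 + (a (0, 1)).1
  have h3 : ((v, (1 : ℝ)) : V × ℝ) = (v, 0) + (0, 1) := by simp
  rw [h3, map_add]
  rfl

variable [FiniteDimensional ℝ V]

lemma linC_liftA (f : V ≃ᵃ[ℝ] V) (v : V) : linC (liftA f) v = f.linear v := by
  rw [linC_apply]
  show f.linear v + (0 : ℝ) • f 0 = f.linear v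
  rw [zero_smul, add_zero]

lemma det_linC_liftA {f : V ≃ᵃ[ℝ] V} (hf : PreservesVolume f) :
    |(linC (liftA f)).det| = 1 := by
  have h1 : ((linC (liftA f) : V →L[ℝ] V) : V →ₗ[ℝ] V) = (f.linear : V →ₗ[ℝ] V) := by
    ext v
    exact linC_liftA f v
  unfold ContinuousLinearMap.det
  rw [h1]
  exact hf

variable {G Y : Type*} [Group G] [TopologicalSpace Y] [T2Space Y] [MulAction G Y]

omit [T2Space Y] in
/-- Module E2a: the holonomy is discrete, with finite kernel. -/
theorem finite_norm_le (M : AffineDeveloping V G Y) (y : Y)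
    (hfin : (M.dev ⁻¹' {M.dev y}).Finite) (R : ℝ) :
    {g : G | ‖liftA (M.hol g)‖ ≤ R}.Finite := by
  by_contra hinf
  have hinf' : {g : G | ‖liftA (M.hol g)‖ ≤ R}.Infinite := hinf
  let g : ℕ → G := fun k => (hinf'.natEmbedding _ k : G)
  have hginj : Function.Injective g := fun a b h =>
    (hinf'.natEmbedding _).injective (Subtype.ext h)
  have hgR : ∀ k, ‖liftA (M.hol (g k))‖ ≤ R := fun k => (hinf'.natEmbedding _ k).2
  have : ProperSpace (EndE V) := FiniteDimensional.proper_real _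
  obtain ⟨a, -, φ, hφ, hlim⟩ := tendsto_subseq_of_bounded
    (s := Metric.closedBall (0 : EndE V) R) Metric.isBounded_closedBall
    (x := fun k => liftA (M.hol (g k))) (fun k => by
      rw [mem_closedBall_zero_iff]; exact hgR k)
  -- the limit is invertible
  set L : ℕ → V →L[ℝ] V := fun k => linC (liftA (M.hol (g (φ k)))) with hL
  set L' : V →L[ℝ] V := linC a with hL'
  have hLlim : Tendsto L atTop (𝓝 L') := (continuous_linC.tendsto a).comp hlim
  have hdet : ∀ k, |(L k).det| = 1 := fun k => det_linC_liftA (M.volume_hol _)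
  have hdet' : |L'.det| = 1 := by
    have h1 : Tendsto (fun k => |(L k).det|) atTop (𝓝 |L'.det|) :=
      ((continuous_abs.comp ContinuousLinearMap.continuous_det).tendsto L').comp hLlim
    have h2 : Tendsto (fun k => |(L k).det|) atTop (𝓝 1) := by
      simp only [hdet]; exact tendsto_const_nhds
    exact tendsto_nhds_unique h1 h2
  have hunit : ∀ A : V →L[ℝ] V, |A.det| = 1 → IsUnit A := by
    intro A hA
    have h0 : A.det ≠ 0 := fun h => by rw [h, abs_zero] at hA; exact zero_ne_one hA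
    have h1 := (ContinuousLinearEquiv.toUnit (A.toContinuousLinearEquivOfDetNeZero h0)).isUnit
    exact h1
  have hinv : Tendsto (fun k => Ring.inverse (L k)) atTop (𝓝 (Ring.inverse L')) := by
    obtain ⟨u, hu⟩ := hunit L' hdet'
    have := NormedRing.inverse_continuousAt u
    rw [hu] at this
    exact this.tendsto.comp hLlim
  set b : ℕ → V := fun k => (liftA (M.hol (g (φ k))) (0, 1)).1 with hb
  have hblim : Tendsto b atTop (𝓝 (a (0, 1)).1) := by
    have h1 : Continuous fun c : EndE V => (c ((0 : V), (1 : ℝ))).1 := by fun_prop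
    exact (h1.tendsto a).comp hlim
  set q : V := M.dev y with hq
  have hone : ∀ x, M.hol 1 x = x := fun x => by
    have := M.hol_mul 1 1 x
    rw [mul_one] at this
    exact ((M.hol 1).injective this).symm
  -- the images of q
  have hc : Tendsto (fun j => M.hol (g (φ j)) q) atTop (𝓝 (L' q + (a (0, 1)).1)) := by
    have h1 : ∀ j, M.hol (g (φ j)) q = L j q + b j := fun j => by
      rw [← act_liftA, act_split]
    have h2 : Continuous fun p : (V →L[ℝ] V) × V => p.1 p.2 := by fun_prop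
    have h3 : Tendsto (fun j => L j q) atTop (𝓝 (L' q)) :=
      (h2.tendsto (L', q)).comp (hLlim.prodMk_nhds tendsto_const_nhds)
    exact (h3.add hblim).congr fun j => (h1 j).symm
  -- the preimages
  have hx : ∀ k (c : V), M.hol (g (φ k))⁻¹ c = Ring.inverse (L k) (c - b k) := by
    intro k c
    have h1 : M.hol (g (φ k)) (M.hol (g (φ k))⁻¹ c) = c := by
      rw [← M.hol_mul, mul_inv_cancel]
      exact hone c
    generalize M.hol (g (φ k))⁻¹ c = x at h1
    rw [← act_liftA, act_split] at h1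
    have h3 : c - b k = L k x := by
      rw [← h1]; simp [hL, hb]
    have h4 : Ring.inverse (L k) (L k x) = (Ring.inverse (L k) * L k) x := rfl
    rw [h3, h4, Ring.inverse_mul_cancel _ (hunit _ (hdet k))]
    rfl
  have hxlim : Tendsto (fun p : ℕ × ℕ => M.hol (g (φ p.2))⁻¹ (M.hol (g (φ p.1)) q))
      (atTop ×ˢ atTop) (𝓝 q) := by
    have h3 : Continuous fun p : (V →L[ℝ] V) × V => p.1 p.2 := by fun_prop
    have h1 : Tendsto (fun p : ℕ × ℕ => Ring.inverse (L p.2) (M.hol (g (φ p.1)) q - b p.2))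
        (atTop ×ˢ atTop) (𝓝 (Ring.inverse L' (L' q + (a (0, 1)).1 - (a (0, 1)).1))) :=
      (h3.tendsto (Ring.inverse L', L' q + (a (0, 1)).1 - (a (0, 1)).1)).comp
        ((hinv.comp tendsto_snd).prodMk_nhds
          ((hc.comp tendsto_fst).sub (hblim.comp tendsto_snd)))
    have h2 : Ring.inverse L' (L' q + (a (0, 1)).1 - (a (0, 1)).1) = q := by
      have h4 : Ring.inverse L' (L' q) = (Ring.inverse L' * L') q := rfl
      rw [add_sub_cancel_right, h4, Ring.inverse_mul_cancel _ (hunit _ hdet')]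
      rfl
    rw [h2] at h1
    exact h1.congr fun p => (hx p.2 _).symm
  -- lift to Y
  obtain ⟨e, hye, hed⟩ := M.dev_local y
  have : ProperSpace V := FiniteDimensional.proper_real _
  have hdevy : q ∈ e.target := by
    rw [hq, hed]; exact e.map_source hye
  obtain ⟨K, hK, hKy, hKe⟩ : ∃ K : Set V, IsCompact K ∧ K ∈ 𝓝 q ∧ K ⊆ e.target := by
    obtain ⟨K, ⟨h1, h2⟩, h3⟩ := (compact_basis_nhds q).mem_iff.mp
      (e.open_target.mem_nhds hdevy)
    exact ⟨K, h2, h1, h3⟩
  have hKY : IsCompact (e.symm '' K) := hK.image_of_continuousOn (e.continuousOn_symm.mono hKe)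
  have hev : ∀ᶠ p : ℕ × ℕ in atTop ×ˢ atTop,
      M.hol (g (φ p.2))⁻¹ (M.hol (g (φ p.1)) q) ∈ K := hxlim.eventually hKy
  rw [prod_atTop_atTop_eq] at hev
  obtain ⟨⟨k₁, k₂⟩, hk⟩ := eventually_atTop.mp hev
  have hk₀ : ∀ k ≥ k₂, M.hol (g (φ k))⁻¹ (M.hol (g (φ k₁)) q) ∈ K := fun k hkk =>
    hk (k₁, k) ⟨le_refl _, hkk⟩
  let F : Set Y := M.dev ⁻¹' {q}
  have hKF : IsCompact (e.symm '' K ∪ F) := hKY.union hfin.isCompact
  have hfinG := M.covering.proper _ hKF
  have hsub : ∀ k ≥ k₂, (g (φ k₁))⁻¹ * g (φ k) ∈ {h : G | (((fun y => h • y) ''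
      (e.symm '' K ∪ F)) ∩ (e.symm '' K ∪ F)).Nonempty} := by
    intro k hkk
    refine ⟨((g (φ k₁))⁻¹ * g (φ k)) • e.symm (M.hol (g (φ k))⁻¹ (M.hol (g (φ k₁)) q)),
      ⟨_, Or.inl ⟨_, hk₀ k hkk, rfl⟩, rfl⟩, Or.inr ?_⟩
    show M.dev (((g (φ k₁))⁻¹ * g (φ k)) •
      e.symm (M.hol (g (φ k))⁻¹ (M.hol (g (φ k₁)) q))) = q
    rw [M.dev_smul]
    have h1 : M.dev (e.symm (M.hol (g (φ k))⁻¹ (M.hol (g (φ k₁)) q))) =
        M.hol (g (φ k))⁻¹ (M.hol (g (φ k₁)) q) := by
      rw [hed]
      exact e.right_inv (hKe (hk₀ k hkk))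
    rw [h1, ← M.hol_mul, ← M.hol_mul, mul_assoc, mul_assoc, mul_inv_cancel_left,
      inv_mul_cancel]
    exact hone q
  have hinj2 : Set.InjOn (fun k => (g (φ k₁))⁻¹ * g (φ k)) (Ici k₂) := fun a _ b _ h =>
    hφ.injective (hginj (mul_left_cancel h))
  exact (Set.infinite_of_injOn_mapsTo hinj2 (fun k hk => hsub k hk) (Set.Ici_infinite k₂)) hfinG

end Disc

end Pool.Agent.SOL
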