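import Mathlib

/-!
# The abstract measure argument
-/

set_option autoImplicit false

open Set Filter Topology MeasureTheory MeasureTheory.Measure
open scoped ENNReal NNReal Pointwise

namespace Pool.Agent.SOL

section Haar

variable {U : Type*} [Group U] [TopologicalSpace U] [IsTopologicalGroup U]
    [LocallyCompactSpace U] [SecondCountableTopology U] [T2Space U] [MeasurableSpace U]
    [BorelSpace U]

lemma haar_mul_right {A : Set U} (hA : MeasurableSet A) (g : U) :
    (haar : Measure U) ((fun x => x * g) '' A) = modularCharacterFun g⁻¹ • (haar : Measure U) A := by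
  have h1 : (fun x => x * g) '' A = (fun x => x * g⁻¹) ⁻¹' A := by
    ext x
    constructor
    · rintro ⟨a, ha, rfl⟩
      simpa using ha
    · intro hx
      exact ⟨x * g⁻¹, hx, by simp⟩
  rw [h1, ← map_apply (measurable_mul_const _) hA, map_right_mul_eq_modularCharacterFun_smul]
  rfl

omit [SecondCountableTopology U] [T2Space U] in
lemma haar_image (α : U ≃ₜ* U) (A : Set U) :
    (haar : Measure U) (α '' A) = mulEquivHaarChar α • (haar : Measure U) A := by
  rw [← mulEquivHaarChar_smul_preimage (haar : Measure U) α,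
    preimage_image_eq _ α.injective]

lemma exists_modular_le {S : Set U} (hS : IsCompact S) :
    ∃ M : ℝ≥0, ∀ g ∈ S, modularCharacterFun g ≤ M := by
  obtain ⟨K, hK, hK1⟩ := exists_compact_mem_nhds (1 : U)
  have hpos : (haar : Measure U) K ≠ 0 := (measure_pos_of_mem_nhds _ hK1).ne'
  have hfin : (haar : Measure U) (K * S⁻¹) ≠ ∞ := (hK.mul hS.inv).measure_lt_top.ne
  refine ⟨((haar : Measure U) (K * S⁻¹) / (haar : Measure U) K).toNNReal, fun g hg => ?_⟩
  have h1 : (modularCharacterFun g : ℝ≥0∞) * (haar : Measure U) K ≤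
      (haar : Measure U) (K * S⁻¹) := by
    have h2 : (modularCharacterFun g : ℝ≥0∞) * (haar : Measure U) K =
        (haar : Measure U).map (fun x => x * g) K := by
      rw [map_right_mul_eq_modularCharacterFun_smul]
      rfl
    rw [h2, map_apply (measurable_mul_const _) hK.measurableSet]
    refine measure_mono fun x hx => ?_
    exact ⟨x * g, hx, g⁻¹, Set.inv_mem_inv.mpr hg, by simp⟩
  rw [← ENNReal.coe_le_coe, ENNReal.coe_toNNReal (ENNReal.div_ne_top hfin hpos)]
  exact ENNReal.le_div_iff_mul_le (Or.inl hpos) (Or.inl hK.measure_lt_top.ne) |>.mpr h1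

lemma exists_le_modular {S : Set U} (hS : IsCompact S) :
    ∃ δ : ℝ≥0, 0 < δ ∧ ∀ g ∈ S, δ ≤ modularCharacterFun g ∧ δ ≤ modularCharacterFun g⁻¹ := by
  obtain ⟨M, hM⟩ := exists_modular_le hS
  obtain ⟨M', hM'⟩ := exists_modular_le hS.inv
  have key : ∀ g : U, modularCharacterFun g * modularCharacterFun g⁻¹ = 1 := fun g => by
    rw [← modularCharacterFun_map_mul, mul_inv_cancel, modularCharacterFun_map_one]
  refine ⟨(M + M' + 1)⁻¹, by positivity, fun g hg => ?_⟩
  have h1 : modularCharacterFun g ≤ M + M' + 1 := (hM g hg).trans (by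
    rw [add_assoc]; exact le_self_add)
  have h2 : modularCharacterFun g⁻¹ ≤ M + M' + 1 :=
    (hM' g⁻¹ (Set.inv_mem_inv.mpr hg)).trans (by
      rw [add_right_comm]; exact le_add_self)
  constructor
  · rw [eq_inv_of_mul_eq_one_left (key g)]
    exact inv_anti₀ (modularCharacterFun_pos _) h2
  · rw [eq_inv_of_mul_eq_one_right (key g)]
    exact inv_anti₀ (modularCharacterFun_pos _) h1

end Haar

/-- Module E1: the abstract measure argument. -/
theorem haar_pigeonhole (U : Type*) [Group U] [TopologicalSpace U] [IsTopologicalGroup U]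
    [LocallyCompactSpace U] [SecondCountableTopology U] [T2Space U] :
    ∃ κ : (U ≃ₜ* U) → ℝ, (∀ α : U ≃ₜ* U, 0 < κ α ∧ κ α * κ α.symm = 1) ∧
      ∀ (N O S C : Set U) (α : ℕ → U ≃ₜ* U) (s t : ℕ → U) (m : ℕ), N.Countable → IsOpen O →
        O.Nonempty → IsCompact S → IsCompact C → (∀ k, s k ∈ S) → (∀ k, t k ∈ S) →
        (∀ k, 1 ≤ κ (α k)) →
        (∀ k, ∀ o ∈ O, ∃ n ∈ N, ∃ c ∈ C, α k (o * (s k)⁻¹) * t k = n * c) →
        (∀ x ∈ C, {q : ℕ × U | q.2 ∈ N ∧ ∃ o ∈ O, q.2 * x = α q.1 (o * (s q.1)⁻¹) * t q.1}.encard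
          ≤ m) → False := by
  borelize U
  refine ⟨fun α => mulEquivHaarChar α, fun α => ⟨?_, ?_⟩, ?_⟩
  · exact_mod_cast mulEquivHaarChar_pos α
  · beta_reduce
    rw [mulEquivHaarChar_symm]
    have : mulEquivHaarChar α ≠ 0 := (mulEquivHaarChar_pos α).ne'
    push_cast
    exact mul_inv_cancel₀ (by exact_mod_cast this)
  intro N O S C α s t m hN hO hOne hS hC hs ht hκ hcov hcount
  set μ : Measure U := haar with hμ
  -- the sets
  let E : ℕ → Set U := fun k =>
    (fun x => x * t k) '' (α k '' ((fun o => o * (s k)⁻¹) '' O))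
  have hE : ∀ k x, x ∈ E k ↔ ∃ o ∈ O, x = α k (o * (s k)⁻¹) * t k := by
    intro k x
    constructor
    · rintro ⟨_, ⟨_, ⟨o, ho, rfl⟩, rfl⟩, rfl⟩
      exact ⟨o, ho, rfl⟩
    · rintro ⟨o, ho, rfl⟩
      exact ⟨_, ⟨_, ⟨o, ho, rfl⟩, rfl⟩, rfl⟩
  have hO1 : ∀ k, IsOpen ((fun o => o * (s k)⁻¹) '' O) := fun k =>
    (Homeomorph.mulRight (s k)⁻¹).isOpenMap O hO
  have hO2 : ∀ k, IsOpen (α k '' ((fun o => o * (s k)⁻¹) '' O)) := fun k =>
    (α k).toHomeomorph.isOpenMap _ (hO1 k)
  have hEo : ∀ k, IsOpen (E k) := fun k =>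
    (Homeomorph.mulRight (t k)).isOpenMap _ (hO2 k)
  -- lower bound for the measures
  obtain ⟨δ, hδ, hδS⟩ := exists_le_modular hS
  have hlow : ∀ k, ((δ * δ : ℝ≥0) : ℝ≥0∞) * μ O ≤ μ (E k) := by
    intro k
    have h1 : μ (E k) = modularCharacterFun (t k)⁻¹ • (mulEquivHaarChar (α k) •
        (modularCharacterFun (s k) • μ O)) := by
      rw [hμ, haar_mul_right (hO2 k).measurableSet, haar_image,
        haar_mul_right hO.measurableSet, inv_inv]
    rw [h1, smul_smul, smul_smul, ENNReal.smul_def, smul_eq_mul]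
    refine mul_le_mul_left ?_ (μ O)
    rw [ENNReal.coe_le_coe]
    have h2 : 1 ≤ mulEquivHaarChar (α k) := by exact_mod_cast hκ k
    calc δ * δ ≤ modularCharacterFun (t k)⁻¹ * modularCharacterFun (s k) :=
          mul_le_mul' (hδS _ (ht k)).2 (hδS _ (hs k)).1
      _ ≤ modularCharacterFun (t k)⁻¹ * mulEquivHaarChar (α k) * modularCharacterFun (s k) := by
          gcongr
          exact le_mul_of_one_le_right' h2
  have hOpos : 0 < μ O := hO.measure_pos μ hOne
  have hε : ((δ * δ : ℝ≥0) : ℝ≥0∞) * μ O ≠ 0 := by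
    refine mul_ne_zero ?_ hOpos.ne'
    exact ENNReal.coe_ne_zero.mpr (mul_pos hδ hδ).ne'
  have hinf : ∑' k, μ (E k) = ∞ := by
    refine top_le_iff.mp ?_
    rw [← ENNReal.tsum_const_eq_top_of_ne_zero (α := ℕ) hε]
    exact ENNReal.tsum_le_tsum hlow
  -- upper bound
  have : Countable N := hN.to_subtype
  have hup : ∀ k, μ (E k) ≤ ∑' n : N, μ (C ∩ (fun x => (n : U) * x) ⁻¹' E k) := by
    intro k
    have h1 : E k ⊆ ⋃ n : N, (fun x => (n : U)⁻¹ * x) ⁻¹' (C ∩ (fun x => (n : U) * x) ⁻¹' E k) := by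
      intro e he
      obtain ⟨o, ho, rfl⟩ := (hE k e).mp he
      obtain ⟨n, hn, c, hc, h2⟩ := hcov k o ho
      rw [mem_iUnion]
      refine ⟨⟨n, hn⟩, ?_, ?_⟩
      · show n⁻¹ * (α k (o * (s k)⁻¹) * t k) ∈ C
        rw [h2, inv_mul_cancel_left]; exact hc
      · show n * (n⁻¹ * (α k (o * (s k)⁻¹) * t k)) ∈ E k
        rw [mul_inv_cancel_left]; exact he
    refine (measure_mono h1).trans ((measure_iUnion_le _).trans ?_)
    refine ENNReal.tsum_le_tsum fun n => ?_
    rw [measure_preimage_mul]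
  have hmeas : ∀ q : ℕ × N, MeasurableSet ((fun x => (q.2 : U) * x) ⁻¹' E q.1) := fun q =>
    measurable_const_mul _ (hEo q.1).measurableSet
  have hsum : ∑' k, μ (E k) ≤ m * μ C := by
    calc ∑' k, μ (E k) ≤ ∑' k, ∑' n : N, μ (C ∩ (fun x => (n : U) * x) ⁻¹' E k) :=
          ENNReal.tsum_le_tsum hup
      _ = ∑' q : ℕ × N, μ (C ∩ (fun x => (q.2 : U) * x) ⁻¹' E q.1) := by
          rw [ENNReal.tsum_prod (f := fun k (n : N) => μ (C ∩ (fun x => (n : U) * x) ⁻¹' E k))]
      _ = ∑' q : ℕ × N, ∫⁻ x in C, ((fun x => (q.2 : U) * x) ⁻¹' E q.1).indicator 1 x ∂μ := by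
          refine tsum_congr fun q => ?_
          rw [lintegral_indicator_one (hmeas q), Measure.restrict_apply (hmeas q), inter_comm]
      _ = ∫⁻ x in C, ∑' q : ℕ × N, ((fun x => (q.2 : U) * x) ⁻¹' E q.1).indicator 1 x ∂μ := by
          rw [lintegral_tsum]
          intro q
          exact ((measurable_one.indicator (hmeas q))).aemeasurable
      _ ≤ ∫⁻ _x in C, (m : ℝ≥0∞) ∂μ := by
          refine setLIntegral_mono' hC.measurableSet fun x hx => ?_
          have h1 : ∑' q : ℕ × N, ((fun x => (q.2 : U) * x) ⁻¹' E q.1).indicator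
              (1 : U → ℝ≥0∞) x = ∑' q : ℕ × N,
              ({q : ℕ × N | (q.2 : U) * x ∈ E q.1}).indicator (fun _ => (1 : ℝ≥0∞)) q := by
            refine tsum_congr fun q => ?_
            by_cases hq : (q.2 : U) * x ∈ E q.1
            · rw [indicator_of_mem (show x ∈ (fun x => (q.2 : U) * x) ⁻¹' E q.1 from hq),
                indicator_of_mem (show q ∈ {q : ℕ × N | (q.2 : U) * x ∈ E q.1} from hq)]
              rfl
            · rw [indicator_of_notMem (show x ∉ (fun x => (q.2 : U) * x) ⁻¹' E q.1 from hq),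
                indicator_of_notMem (show q ∉ {q : ℕ × N | (q.2 : U) * x ∈ E q.1} from hq)]
          rw [h1, ← tsum_subtype, ENNReal.tsum_set_one]
          have h2 : ({q : ℕ × N | (q.2 : U) * x ∈ E q.1}).encard ≤ m := by
            refine le_trans ?_ (hcount x hx)
            have hinj : Function.Injective (fun q : ℕ × N => ((q.1, (q.2 : U)) : ℕ × U)) := by
              rintro ⟨a, b⟩ ⟨a', b'⟩ h
              simp only [Prod.mk.injEq] at h
              exact Prod.ext h.1 (Subtype.ext h.2)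
            rw [← hinj.encard_image]
            refine encard_le_encard ?_
            rintro _ ⟨q, hq, rfl⟩
            exact ⟨q.2.2, (hE q.1 _).mp hq⟩
          exact_mod_cast ENat.toENNReal_le.mpr h2
      _ = m * μ C := by
          rw [lintegral_const, Measure.restrict_apply MeasurableSet.univ, univ_inter]
  rw [hinf] at hsum
  have hfin : (m : ℝ≥0∞) * μ C < ∞ :=
    ENNReal.mul_lt_top (ENNReal.natCast_lt_top m) hC.measure_lt_top
  exact absurd (lt_of_le_of_lt hsum hfin) (lt_irrefl _)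

end Pool.Agent.SOL
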