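import Pool.Agent.SOL.Zar
import Pool.Agent.SOL.Haar
import Pool.Agent.SOL.Disc

/-!
# Module E2: the pigeonhole argument
-/

set_option autoImplicit false

open Set Filter Topology

namespace Pool.Agent.SOL

open Pool.Agent.Helper2.MK

section E2b

variable {V G Y : Type*} [NormedAddCommGroup V] [NormedSpace ℝ V] [FiniteDimensional ℝ V]
  [Group G] [TopologicalSpace Y] [T2Space Y] [MulAction G Y]

omit [FiniteDimensional ℝ V] in
/-- The set of points with more than `m` preimages is open. -/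
theorem E2_isOpen_lt (M : AffineDeveloping V G Y) (m : ℕ) :
    IsOpen {v : V | (m : ℕ∞) < (M.dev ⁻¹' {v}).encard} := by
  rw [isOpen_iff_mem_nhds]
  intro v hv
  have hv' : ((m + 1 : ℕ) : ℕ∞) ≤ (M.dev ⁻¹' {v}).encard := by
    have := Order.add_one_le_of_lt (show (m : ℕ∞) < (M.dev ⁻¹' {v}).encard from hv)
    exact_mod_cast this
  obtain ⟨t, hts, htc⟩ := Set.exists_subset_encard_eq hv'
  have htf : t.Finite := Set.finite_of_encard_eq_coe htc
  -- disjoint neighbourhoods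
  obtain ⟨W, hW, hWd⟩ := htf.t2_separation
  have hn : ∀ y ∈ t, M.dev '' (W y) ∈ 𝓝 v := by
    intro y hy
    have h1 : M.dev y = v := hts hy
    rw [← h1]
    exact M.dev_local.isOpenMap.image_mem_nhds ((hW y).2.mem_nhds (hW y).1)
  have hI : (⋂ y ∈ t, M.dev '' (W y)) ∈ 𝓝 v := (Filter.biInter_mem htf).2 hn
  refine Filter.mem_of_superset hI ?_
  intro x hx
  have hx' : ∀ y ∈ t, ∃ z ∈ W y, M.dev z = x := by
    intro y hy
    exact (Set.mem_iInter₂.1 hx) y hy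
  choose! f hf1 hf2 using hx'
  have hinj : Set.InjOn f t := by
    intro a ha b hb hab
    by_contra hne
    have := hWd ha hb hne
    exact Set.disjoint_left.1 this (hf1 a ha) (hab ▸ hf1 b hb)
  have h2 : (f '' t).encard = t.encard := hinj.encard_image
  have h3 : f '' t ⊆ M.dev ⁻¹' {x} := by
    rintro _ ⟨a, ha, rfl⟩
    exact hf2 a ha
  have h4 := Set.encard_le_encard h3
  rw [h2, htc] at h4
  show (m : ℕ∞) < _
  refine lt_of_lt_of_le ?_ h4
  exact_mod_cast Nat.lt_succ_self m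

/-- Module E2b: a good open set. -/
theorem exists_good_ball (M : AffineDeveloping V G Y) (B₀ : Set V) (hB₀ : IsOpen B₀)
    (hne : (B₀ ∩ range M.dev).Nonempty) (hfin : ∀ v ∈ B₀, (M.dev ⁻¹' {v}).Finite) :
    ∃ (m : ℕ) (B : Set V) (ζ : V → Y), IsOpen B ∧
      B.Nonempty ∧ (∀ v ∈ B, (M.dev ⁻¹' {v}).encard ≤ m) ∧ (∀ v ∈ B, M.dev (ζ v) = v) ∧
      ∃ K : Set Y, IsCompact K ∧ ∀ v ∈ B, ζ v ∈ K := by
  have : ProperSpace V := FiniteDimensional.proper ℝ V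
  have hcl0 : ∀ m : ℕ, IsClosed {v : V | (M.dev ⁻¹' {v}).encard ≤ m} := by
    intro m
    have := (E2_isOpen_lt M m).isClosed_compl
    have e : {v : V | (m : ℕ∞) < (M.dev ⁻¹' {v}).encard}ᶜ = {v : V | (M.dev ⁻¹' {v}).encard ≤ m} := by
      ext v
      simp
    rwa [e] at this
  have hcl : ∀ m : ℕ, IsClosed ({v : V | (M.dev ⁻¹' {v}).encard ≤ m} ∪ B₀ᶜ) :=
    fun m => (hcl0 m).union hB₀.isClosed_compl
  have hU : ⋃ m : ℕ, ({v : V | (M.dev ⁻¹' {v}).encard ≤ m} ∪ B₀ᶜ) = univ := by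
    rw [Set.eq_univ_iff_forall]
    intro v
    by_cases hv : v ∈ B₀
    · obtain ⟨m, hm⟩ := ENat.ne_top_iff_exists.1 (Set.encard_ne_top_iff.2 (hfin v hv))
      refine Set.mem_iUnion.2 ⟨m, Or.inl ?_⟩
      show (M.dev ⁻¹' {v}).encard ≤ m
      rw [← hm]
    · exact Set.mem_iUnion.2 ⟨0, Or.inr hv⟩
  have hd := dense_iUnion_interior_of_closed hcl hU
  obtain ⟨v, hv1, hv2⟩ := hd.inter_open_nonempty (B₀ ∩ range M.dev)
    (hB₀.inter M.dev_local.isOpenMap.isOpen_range) hne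
  obtain ⟨m, hm⟩ := Set.mem_iUnion.1 hv2
  obtain ⟨hvB, y0, rfl⟩ := hv1
  obtain ⟨e, he, hee⟩ := M.dev_local y0
  have hev : M.dev y0 ∈ e.target := by rw [hee]; exact e.map_source he
  have ho : IsOpen (e.target ∩ (interior ({v : V | (M.dev ⁻¹' {v}).encard ≤ m} ∪ B₀ᶜ) ∩ B₀)) :=
    e.open_target.inter (isOpen_interior.inter hB₀)
  obtain ⟨r, hr, hr2⟩ := Metric.isOpen_iff.1 ho (M.dev y0) ⟨hev, hm, hvB⟩
  have hsub : Metric.closedBall (M.dev y0) (r/2) ⊆ Metric.ball (M.dev y0) r :=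
    Metric.closedBall_subset_ball (by linarith)
  refine ⟨m, Metric.ball (M.dev y0) (r/2), e.symm, Metric.isOpen_ball, ⟨M.dev y0, by simp; linarith⟩, ?_, ?_, ?_⟩
  · intro v hv
    have h1 := (hr2 (hsub (Metric.ball_subset_closedBall hv))).2
    have h2 : v ∈ {v : V | (M.dev ⁻¹' {v}).encard ≤ m} ∪ B₀ᶜ := interior_subset h1.1
    rcases h2 with h2 | h2
    · exact h2
    · exact (h2 h1.2).elim
  · intro v hv
    have h1 : v ∈ e.target := (hr2 (hsub (Metric.ball_subset_closedBall hv))).1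
    rw [hee]
    exact e.right_inv h1
  · refine ⟨e.symm '' Metric.closedBall (M.dev y0) (r/2), ?_, ?_⟩
    · exact (isCompact_closedBall _ _).image_of_continuousOn
        (e.continuousOn_symm.mono fun v hv => (hr2 (hsub hv)).1)
    · intro v hv
      exact ⟨v, Metric.ball_subset_closedBall hv, rfl⟩

end E2b

section E2top

variable {V : Type*} [NormedAddCommGroup V] [NormedSpace ℝ V] [FiniteDimensional ℝ V]

/-- the inclusion of the group `U` in the algebra -/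
def E2_j (U : Subgroup (EndE V)ˣ) (u : U) : EndE V := ((u : (EndE V)ˣ) : EndE V)

theorem E2_isClosedEmbedding (U : Subgroup (EndE V)ˣ) (hUcl : IsClosed (coeSet U)) :
    IsClosedEmbedding (E2_j U) := by
  have h1 : IsOpenEmbedding (Units.val : (EndE V)ˣ → EndE V) := Units.isOpenEmbedding_val
  refine ⟨h1.isEmbedding.comp .subtypeVal, ?_⟩
  have : range (E2_j U) = coeSet U := by
    ext x
    constructor
    · rintro ⟨u, rfl⟩
      exact ⟨u, u.2, rfl⟩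
    · rintro ⟨u, hu, rfl⟩
      exact ⟨⟨u, hu⟩, rfl⟩
  rw [this]
  exact hUcl

theorem E2_locallyCompact (U : Subgroup (EndE V)ˣ) (hUcl : IsClosed (coeSet U)) :
    LocallyCompactSpace U := by
  have : ProperSpace (EndE V) := FiniteDimensional.proper ℝ _
  exact (E2_isClosedEmbedding U hUcl).locallyCompactSpace

theorem E2_secondCountable (U : Subgroup (EndE V)ˣ) (hUcl : IsClosed (coeSet U)) :
    SecondCountableTopology U := by
  have : ProperSpace (EndE V) := FiniteDimensional.proper ℝ _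
  have : SecondCountableTopology (EndE V) := inferInstance
  exact (E2_isClosedEmbedding U hUcl).isEmbedding.secondCountableTopology

theorem E2_isCompact_preimage (U : Subgroup (EndE V)ˣ) (hUcl : IsClosed (coeSet U)) {C : Set (EndE V)}
    (hC : IsCompact C) : IsCompact {u : U | ((u : (EndE V)ˣ) : EndE V) ∈ C} :=
  (E2_isClosedEmbedding U hUcl).isCompact_preimage hC

/-- conjugation -/
def E2_conj {G : Type*} [Group G] (ρ : G →* (EndE V)ˣ) (U : Subgroup (EndE V)ˣ)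
    (hconj : ∀ g, ∀ u ∈ U, ρ g * u * (ρ g)⁻¹ ∈ U) (g : G) : U ≃ₜ* U where
  toFun u := ⟨ρ g * u * (ρ g)⁻¹, hconj g u u.2⟩
  invFun u := ⟨ρ g⁻¹ * u * (ρ g⁻¹)⁻¹, hconj g⁻¹ u u.2⟩
  left_inv u := by
    apply Subtype.ext
    show ρ g⁻¹ * (ρ g * u * (ρ g)⁻¹) * (ρ g⁻¹)⁻¹ = u
    rw [map_inv]
    group
  right_inv u := by
    apply Subtype.ext
    show ρ g * (ρ g⁻¹ * u * (ρ g⁻¹)⁻¹) * (ρ g)⁻¹ = u
    rw [map_inv]
    group
  map_mul' u v := by
    apply Subtype.ext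
    show ρ g * (u * v : (EndE V)ˣ) * (ρ g)⁻¹ = (ρ g * u * (ρ g)⁻¹) * (ρ g * v * (ρ g)⁻¹)
    group
  continuous_toFun := by
    refine Continuous.subtype_mk ?_ _
    fun_prop
  continuous_invFun := by
    refine Continuous.subtype_mk ?_ _
    fun_prop

theorem E2_conj_symm {G : Type*} [Group G] (ρ : G →* (EndE V)ˣ) (U : Subgroup (EndE V)ˣ)
    (hconj : ∀ g, ∀ u ∈ U, ρ g * u * (ρ g)⁻¹ ∈ U) (g : G) :
    (E2_conj ρ U hconj g).symm = E2_conj ρ U hconj g⁻¹ := ContinuousMulEquiv.ext fun _ => rfl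

theorem E2_act_mul {a b : EndE V} (hb : IsAff b) (v : V) : act (a * b) v = act a (act b v) := by
  unfold act
  have h1 : b (v, 1) = ((b (v, 1)).1, 1) := Prod.ext rfl (hb (v, 1))
  show (a (b (v, 1))).1 = _
  rw [h1]

theorem E2_act_one (v : V) : act (1 : EndE V) v = v := rfl

theorem E2_act_lift (f : V ≃ᵃ[ℝ] V) (v : V) : act (liftA f) v = f v := by
  show f.linear v + (1:ℝ) • f 0 = f v
  rw [one_smul]
  have := f.map_vadd 0 v
  simpa using this.symm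

theorem E2_continuous_act (v : V) : Continuous fun a : EndE V => act a v :=
  continuous_fst.comp (ContinuousLinearMap.apply ℝ (V × ℝ) (v, (1:ℝ))).continuous

end E2top

section E2seq

/-- Rapidly growing subsequences. -/
theorem E2_exists_subseq {b : ℕ → ℝ} (hb : Tendsto b atTop atTop) (R : ℝ) (hR : 1 ≤ R) :
    ∃ ψ : ℕ → ℕ, StrictMono ψ ∧ (∀ i, 0 < b (ψ i)) ∧ ∀ i j, i < j → R * b (ψ i) < b (ψ j) := by
  have h0 : ∀ k : ℕ, ∃ l, k < l ∧ 0 < b l ∧ R * b k < b l := by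
    intro k
    obtain ⟨l, h1, h2, h3⟩ := ((eventually_gt_atTop k).and
      ((hb.eventually (eventually_gt_atTop 0)).and (hb.eventually (eventually_gt_atTop (R * b k))))).exists
    exact ⟨l, h1, h2, h3⟩
  choose F hF1 hF2 hF3 using h0
  let ψ : ℕ → ℕ := fun i => Nat.rec (F 0) (fun _ k => F k) i
  have hs : ∀ i, ψ (i+1) = F (ψ i) := fun i => rfl
  have hpos : ∀ i, 0 < b (ψ i) := by
    intro i
    cases i with
    | zero => exact hF2 0
    | succ i => rw [hs]; exact hF2 _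
  refine ⟨ψ, strictMono_nat_of_lt_succ fun i => by rw [hs]; exact hF1 _, hpos, ?_⟩
  intro i j hij
  induction j, hij using Nat.le_induction with
  | base => rw [hs]; exact hF3 _
  | succ j hij ih =>
    rw [hs]
    have h1 := hF3 (ψ j)
    have h2 : b (ψ j) ≤ R * b (ψ j) := le_mul_of_one_le_left (hpos j).le hR
    linarith

end E2seq

section E2core

open scoped Pointwise

variable {V G Y : Type*} [NormedAddCommGroup V] [NormedSpace ℝ V] [FiniteDimensional ℝ V]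
  [Group G] [TopologicalSpace Y] [T2Space Y] [MulAction G Y]

/-- the abstract pigeonhole property -/
def E2_Pig (U : Type*) [Group U] [TopologicalSpace U] (κ : (U ≃ₜ* U) → ℝ) : Prop :=
  ∀ (N O S C : Set U) (α : ℕ → U ≃ₜ* U) (s t : ℕ → U) (m : ℕ), N.Countable → IsOpen O →
        O.Nonempty → IsCompact S → IsCompact C → (∀ k, s k ∈ S) → (∀ k, t k ∈ S) →
        (∀ k, 1 ≤ κ (α k)) →
        (∀ k, ∀ o ∈ O, ∃ n ∈ N, ∃ c ∈ C, α k (o * (s k)⁻¹) * t k = n * c) →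
        (∀ x ∈ C, {q : ℕ × U | q.2 ∈ N ∧ ∃ o ∈ O, q.2 * x = α q.1 (o * (s q.1)⁻¹) * t q.1}.encard
          ≤ m) → False

theorem E2_bdd {U : Type*} [TopologicalSpace U] {W : Set U} (hW : IsCompact W) {A : Type*}
    [NormedAddCommGroup A] {f : U → A} (hf : Continuous f) : ∃ R : ℝ, 0 < R ∧ ∀ x ∈ W, ‖f x‖ ≤ R := by
  obtain ⟨R, hR⟩ := hW.exists_bound_of_continuousOn hf.continuousOn
  exact ⟨max R 1, by positivity, fun x hx => (hR x hx).trans (le_max_left _ _)⟩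

/-- Good open sets in the group. -/
theorem E2_exists_O (U : Subgroup (EndE V)ˣ) (hUcl : IsClosed (coeSet U)) {B : Set V} (hB : IsOpen B)
    {o₀ : U} (ho₀ : act ((o₀ : (EndE V)ˣ) : EndE V) 0 ∈ B) {Φ : Set (EndE V)ˣ} (hΦ : Φ.Finite) :
    ∃ (O W : Set U), IsOpen O ∧ o₀ ∈ O ∧ O ⊆ W ∧ IsCompact W ∧
      (∀ o ∈ O, act ((o : (EndE V)ˣ) : EndE V) 0 ∈ B) ∧
      ∀ o ∈ O, ∀ o' ∈ O, ∀ φ ∈ Φ, φ ≠ 1 → (o' : (EndE V)ˣ) * (o : (EndE V)ˣ)⁻¹ ≠ φ := by
  have := E2_locallyCompact U hUcl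
  obtain ⟨W, hW, hWn⟩ := exists_compact_mem_nhds o₀
  have hc1 : Continuous fun u : U => act ((u : (EndE V)ˣ) : EndE V) 0 :=
    (E2_continuous_act 0).comp (Units.continuous_val.comp continuous_subtype_val)
  have h1 : {u : U | act ((u : (EndE V)ˣ) : EndE V) 0 ∈ B} ∈ 𝓝 o₀ := hc1.continuousAt (hB.mem_nhds ho₀)
  have hc2 : Continuous fun p : U × U => (p.2 : (EndE V)ˣ) * (p.1 : (EndE V)ˣ)⁻¹ := by
    fun_prop
  have h2 : ∀ φ ∈ Φ, {p : U × U | φ ≠ 1 → (p.2 : (EndE V)ˣ) * (p.1 : (EndE V)ˣ)⁻¹ ≠ φ} ∈ 𝓝 (o₀, o₀) := by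
    intro φ _
    by_cases hφ : φ = 1
    · refine Filter.mem_of_superset Filter.univ_mem fun p _ h => (h hφ).elim
    · have h3 : {φ}ᶜ ∈ 𝓝 (((o₀ : U) : (EndE V)ˣ) * (((o₀ : U) : (EndE V)ˣ))⁻¹) := by
        refine isClosed_singleton.isOpen_compl.mem_nhds ?_
        rw [mul_inv_cancel]
        exact fun h => hφ (Set.mem_singleton_iff.1 h).symm
      have h4 := hc2.continuousAt (x := (o₀, o₀)) h3
      refine Filter.mem_of_superset h4 fun p hp _ h => hp h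
  have h5 : (⋂ φ ∈ Φ, {p : U × U | φ ≠ 1 → (p.2 : (EndE V)ˣ) * (p.1 : (EndE V)ˣ)⁻¹ ≠ φ}) ∈ 𝓝 (o₀, o₀) :=
    (Filter.biInter_mem hΦ).2 h2
  rw [nhds_prod_eq, Filter.mem_prod_self_iff] at h5
  obtain ⟨T, hT, hT2⟩ := h5
  refine ⟨interior (({u : U | act ((u : (EndE V)ˣ) : EndE V) 0 ∈ B} ∩ T) ∩ W), W, isOpen_interior,
    mem_interior_iff_mem_nhds.2 (Filter.inter_mem (Filter.inter_mem h1 hT) hWn), ?_, hW, ?_, ?_⟩
  · exact fun x hx => (interior_subset hx).2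
  · intro o ho
    exact (interior_subset ho).1.1
  · intro o ho o' ho' φ hφ hφ1
    have h6 : (o, o') ∈ T ×ˢ T := ⟨(interior_subset ho).1.2, (interior_subset ho').1.2⟩
    exact (Set.mem_iInter₂.1 (hT2 h6)) φ hφ hφ1

theorem E2_core (M : AffineDeveloping V G Y) (B₀ : Set V) (hB₀ : IsOpen B₀)
    (hne : (B₀ ∩ range M.dev).Nonempty) (hfin : ∀ v ∈ B₀, (M.dev ⁻¹' {v}).Finite)
    (ρ : G →* (EndE V)ˣ) (hρ : ∀ g, (ρ g : EndE V) = liftA (M.hol g))
    (U D N : Subgroup (EndE V)ˣ) (hUcl : IsClosed (coeSet U)) (hDU : D ≤ U)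
    (hUaff : ∀ u ∈ U, IsAff (u : EndE V))
    (hconj : ∀ g, ∀ u ∈ U, ρ g * u * (ρ g)⁻¹ ∈ U)
    (hcomm : ∀ g, ∀ u ∈ U, ρ g * u * (ρ g)⁻¹ * u⁻¹ ∈ D)
    (hN : N ≤ D) (hNρ : ∀ n ∈ N, ∃ g, ρ g = n)
    (C : Set (EndE V)) (hC : IsCompact C)
    (hDN : ∀ x ∈ D, ∃ n ∈ N, ∃ c ∈ D, (c : EndE V) ∈ C ∧ x = n * c)
    (hσ : ∀ v, ∃ u : U, act ((u : (EndE V)ˣ) : EndE V) 0 = v)
    (κ : (U ≃ₜ* U) → ℝ) (hκP : E2_Pig U κ)
    (S : Set U) (hS : IsCompact S) (a : ℕ → G) (s t : ℕ → U) (hs : ∀ k, s k ∈ S) (ht : ∀ k, t k ∈ S)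
    (hfix : ∀ k, act (ρ (a k) : EndE V) (act ((t k : (EndE V)ˣ) : EndE V) 0) =
      act ((s k : (EndE V)ˣ) : EndE V) 0)
    (ha : ∀ F : Set G, F.Finite → ∀ᶠ k in atTop, a k ∉ F)
    (hκ : ∀ k, 1 ≤ κ (E2_conj ρ U hconj (a k)⁻¹)) : False := by
  have hρaff : ∀ g, IsAff (ρ g : EndE V) := by
    intro g x
    rw [hρ]
    rfl
  have hdev : ∀ (g : G) (y : Y), M.dev (g • y) = act (ρ g : EndE V) (M.dev y) := by
    intro g y
    rw [hρ, E2_act_lift, M.dev_smul]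
  obtain ⟨m, B, ζ, hBo, ⟨b₀, hb₀⟩, hBm, hBζ, K, hK, hζK⟩ := exists_good_ball M B₀ hB₀ hne hfin
  have hfnl : ∀ R : ℝ, {g : G | ‖liftA (M.hol g)‖ ≤ R}.Finite := by
    obtain ⟨v, hv, y, rfl⟩ := hne
    exact finite_norm_le M y (hfin _ hv)
  have hΦ : {g : G | (((fun y => g • y) '' K) ∩ K).Nonempty}.Finite := M.covering.proper K hK
  obtain ⟨o₀, ho₀⟩ := hσ b₀
  obtain ⟨O, W, hO, hoO, hOW, hW, hOB, hOΦ⟩ := E2_exists_O U hUcl hBo (o₀ := o₀) (ho₀.symm ▸ hb₀)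
    (hΦ.image ρ)
  -- bounds
  have hcv : Continuous fun u : U => ((u : (EndE V)ˣ) : EndE V) :=
    Units.continuous_val.comp continuous_subtype_val
  have hcvi : Continuous fun u : U => (((u : (EndE V)ˣ)⁻¹ : (EndE V)ˣ) : EndE V) :=
    Units.continuous_val.comp (continuous_inv.comp continuous_subtype_val)
  obtain ⟨R1, hR1, hR1'⟩ := E2_bdd hW hcv
  obtain ⟨R2, hR2, hR2'⟩ := E2_bdd hW hcvi
  obtain ⟨R3, hR3⟩ : ∃ R3 : ℝ, ∀ g ∈ {g : G | (((fun y => g • y) '' K) ∩ K).Nonempty},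
      ‖(ρ g : EndE V)‖ ≤ R3 ∧ ‖(ρ g⁻¹ : EndE V)‖ ≤ R3 := by
    obtain ⟨c, hc⟩ := (hΦ.image fun g => max ‖(ρ g : EndE V)‖ ‖(ρ g⁻¹ : EndE V)‖).bddAbove
    refine ⟨c, fun g hg => ?_⟩
    have := hc ⟨g, hg, rfl⟩
    exact ⟨(le_max_left _ _).trans this, (le_max_right _ _).trans this⟩
  obtain ⟨R4, hR4, hR4'⟩ := E2_bdd hS hcv
  obtain ⟨R5, hR5, hR5'⟩ := E2_bdd hS hcvi
  -- the elements fixing 0
  set h : ℕ → (EndE V)ˣ := fun k => (s k : (EndE V)ˣ)⁻¹ * ρ (a k) * (t k : (EndE V)ˣ) with hh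
  have hh0 : ∀ k, act (h k : EndE V) 0 = 0 := by
    intro k
    have e1 : (h k : EndE V) = (((s k : (EndE V)ˣ)⁻¹ : (EndE V)ˣ) : EndE V) *
        ((ρ (a k) : EndE V) * ((t k : (EndE V)ˣ) : EndE V)) := by
      rw [hh]; push_cast; rw [mul_assoc]
    have hsi : IsAff ((((s k : (EndE V)ˣ)⁻¹ : (EndE V)ˣ)) : EndE V) := hUaff _ (U.inv_mem (s k).2)
    have haff : IsAff ((ρ (a k) : EndE V) * ((t k : (EndE V)ˣ) : EndE V)) := by
      intro x
      show ((ρ (a k) : EndE V) (((t k : (EndE V)ˣ) : EndE V) x)).2 = x.2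
      rw [hρaff, hUaff _ (t k).2]
    rw [e1, E2_act_mul haff, E2_act_mul (hUaff _ (t k).2), hfix, ← E2_act_mul (hUaff _ (s k).2)]
    rw [← Units.val_mul, inv_mul_cancel]
    rfl
  have hhinf : Tendsto (fun k => ‖(h k : EndE V)‖) atTop atTop := by
    rw [tendsto_atTop]
    intro b
    have h1 := ha _ (hfnl (R4 * b * R5))
    filter_upwards [h1] with k hk
    by_contra hlt
    push Not at hlt
    apply hk
    show ‖liftA (M.hol (a k))‖ ≤ _
    rw [← hρ]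
    have e2 : (ρ (a k) : EndE V) = ((s k : (EndE V)ˣ) : EndE V) * (h k : EndE V) *
        (((t k : (EndE V)ˣ)⁻¹ : (EndE V)ˣ) : EndE V) := by
      rw [← Units.val_mul, ← Units.val_mul]
      congr 1
      rw [hh]
      group
    rw [e2]
    calc _ ≤ ‖((s k : (EndE V)ˣ) : EndE V)‖ * ‖(h k : EndE V)‖ * ‖(((t k : (EndE V)ˣ)⁻¹ : (EndE V)ˣ) : EndE V)‖ :=
          (norm_mul_le _ _).trans (mul_le_mul_of_nonneg_right (norm_mul_le _ _) (norm_nonneg _))
      _ ≤ R4 * b * R5 := by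
          have hb : 0 ≤ b := (norm_nonneg _).trans hlt.le
          have h3 := hR4' _ (hs k)
          have h4 := hR5' _ (ht k)
          gcongr
  obtain ⟨ψ, hψ, hψ0, hψ1⟩ := E2_exists_subseq hhinf (max 1 (R2 * R3 * R1)) (le_max_left _ _)
  -- the compact set
  have hCU : IsCompact {u : U | ((u : (EndE V)ˣ) : EndE V) ∈ C} := E2_isCompact_preimage U hUcl hC
  set C' : Set U := {u : U | ((u : (EndE V)ˣ) : EndE V) ∈ C} * W * S⁻¹ * S with hC'
  have hC'c : IsCompact C' := ((hCU.mul hW).mul hS.inv).mul hS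
  have hGc : Countable G := by
    have h1 : (univ : Set G).Countable := by
      have : (univ : Set G) = ⋃ n : ℕ, {g : G | ‖liftA (M.hol g)‖ ≤ n} := by
        ext g
        simp only [Set.mem_univ, Set.mem_iUnion, true_iff]
        exact exists_nat_ge ‖liftA (M.hol g)‖
      rw [this]
      exact Set.countable_iUnion fun n => (hfnl n).countable
    exact Set.countable_univ_iff.1 h1
  have hNc : {n : U | (n : (EndE V)ˣ) ∈ N}.Countable := by
    have h1 : (range ρ).Countable := Set.countable_range _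
    refine (h1.preimage_of_injOn (f := fun u : U => (u : (EndE V)ˣ)) Subtype.val_injective.injOn).mono ?_
    intro n hn
    obtain ⟨g, hg⟩ := hNρ _ hn
    exact ⟨g, hg⟩
  refine hκP {n : U | (n : (EndE V)ˣ) ∈ N} O S C' (fun k => E2_conj ρ U hconj (a (ψ k))⁻¹) (s ∘ ψ) (t ∘ ψ) m
    hNc hO ⟨o₀, hoO⟩ hS hC'c (fun k => hs _) (fun k => ht _) (fun k => hκ _) ?_ ?_
  · intro k o ho
    have h1 := hcomm (a (ψ k))⁻¹ ((o : (EndE V)ˣ) * (s (ψ k) : (EndE V)ˣ)⁻¹) (U.mul_mem o.2 (U.inv_mem (s (ψ k)).2))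
    obtain ⟨n, hn, c, hcD, hcC, hnc⟩ := hDN _ h1
    have hcU : c ∈ U := hDU hcD
    have hnU : n ∈ U := hDU (hN hn)
    refine ⟨⟨n, hnU⟩, hn, ⟨c, hcU⟩ * o * (s (ψ k))⁻¹ * t (ψ k), ?_, ?_⟩
    · exact Set.mul_mem_mul (Set.mul_mem_mul (Set.mul_mem_mul hcC (hOW ho)) (Set.inv_mem_inv.2 (hs _))) (ht _)
    · apply Subtype.ext
      show ρ (a (ψ k))⁻¹ * ((o : (EndE V)ˣ) * (s (ψ k) : (EndE V)ˣ)⁻¹) * (ρ (a (ψ k))⁻¹)⁻¹ * (t (ψ k) : (EndE V)ˣ) =
        n * (c * (o : (EndE V)ˣ) * (s (ψ k) : (EndE V)ˣ)⁻¹ * (t (ψ k) : (EndE V)ˣ))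
      rw [show n * (c * (o : (EndE V)ˣ) * (s (ψ k) : (EndE V)ˣ)⁻¹ * (t (ψ k) : (EndE V)ˣ)) =
        (n * c) * ((o : (EndE V)ˣ) * (s (ψ k) : (EndE V)ˣ)⁻¹) * (t (ψ k) : (EndE V)ˣ) by group, ← hnc]
      group
  · intro x _
    set Q : Set (ℕ × U) := {q : ℕ × U | q.2 ∈ {n : U | (n : (EndE V)ˣ) ∈ N} ∧
      ∃ o ∈ O, q.2 * x = (E2_conj ρ U hconj (a (ψ q.1))⁻¹) (o * ((s ∘ ψ) q.1)⁻¹) * (t ∘ ψ) q.1} with hQ
    have hdata : ∀ q ∈ Q, ∃ (ν : G) (o : U), ρ ν = (q.2 : (EndE V)ˣ) ∧ o ∈ O ∧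
        (o : (EndE V)ˣ) * h (ψ q.1) = ρ (a (ψ q.1)) * ρ ν * (x : (EndE V)ˣ) := by
      rintro ⟨k, n⟩ ⟨hn, o, ho, hqo⟩
      obtain ⟨ν, hν⟩ := hNρ _ hn
      refine ⟨ν, o, hν, ho, ?_⟩
      have h1 : (n : (EndE V)ˣ) * (x : (EndE V)ˣ) = ρ (a (ψ k))⁻¹ * ((o : (EndE V)ˣ) * (s (ψ k) : (EndE V)ˣ)⁻¹) *
        (ρ (a (ψ k))⁻¹)⁻¹ * (t (ψ k) : (EndE V)ˣ) := congrArg Subtype.val hqo
      show (o : (EndE V)ˣ) * ((s (ψ k) : (EndE V)ˣ)⁻¹ * ρ (a (ψ k)) * (t (ψ k) : (EndE V)ˣ)) = _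
      rw [hν, mul_assoc (ρ (a (ψ k))), h1, map_inv]
      group
    choose! ν o hν hoO' hrel using hdata
    have hact : ∀ q ∈ Q, act (ρ (a (ψ q.1) * ν q) : EndE V) (act ((x : (EndE V)ˣ) : EndE V) 0) =
        act ((o q : (EndE V)ˣ) : EndE V) 0 := by
      intro q hq
      have haffh : IsAff (h (ψ q.1) : EndE V) := by
        intro v
        show ((((s (ψ q.1) : (EndE V)ˣ)⁻¹ : (EndE V)ˣ) : EndE V)
          ((ρ (a (ψ q.1)) : EndE V) (((t (ψ q.1) : (EndE V)ˣ) : EndE V) v))).2 = v.2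
        rw [hUaff _ (U.inv_mem (s (ψ q.1)).2), hρaff, hUaff _ (t (ψ q.1)).2]
      rw [← E2_act_mul (hUaff _ x.2), ← Units.val_mul, map_mul, ← hrel q hq, Units.val_mul,
        E2_act_mul haffh, hh0]
    -- the points in the fibre
    let P : ℕ × U → Y := fun q => (a (ψ q.1) * ν q)⁻¹ • ζ (act ((o q : (EndE V)ˣ) : EndE V) 0)
    have hP : ∀ q ∈ Q, (a (ψ q.1) * ν q) • P q = ζ (act ((o q : (EndE V)ˣ) : EndE V) 0) := by
      intro q _
      exact smul_inv_smul _ _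
    have hmaps : Set.MapsTo P Q (M.dev ⁻¹' {act ((x : (EndE V)ˣ) : EndE V) 0}) := by
      intro q hq
      show M.dev (P q) = act ((x : (EndE V)ˣ) : EndE V) 0
      show M.dev ((a (ψ q.1) * ν q)⁻¹ • ζ (act ((o q : (EndE V)ˣ) : EndE V) 0)) = _
      rw [hdev, hBζ _ (hOB _ (hoO' q hq)), ← hact q hq, ← E2_act_mul (hρaff _), ← Units.val_mul, ← map_mul,
        inv_mul_cancel, map_one]
      rfl
    have hinj : Set.InjOn P Q := by
      intro q hq q' hq' hqq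
      have hφ1 : (a (ψ q'.1) * ν q' * (a (ψ q.1) * ν q)⁻¹) • ζ (act ((o q : (EndE V)ˣ) : EndE V) 0) =
          ζ (act ((o q' : (EndE V)ˣ) : EndE V) 0) := by
        rw [← hP q hq, ← hP q' hq', hqq, smul_smul]
        congr 1
        group
      set φ := a (ψ q'.1) * ν q' * (a (ψ q.1) * ν q)⁻¹ with hφ
      have hφΦ : φ ∈ {g : G | (((fun y => g • y) '' K) ∩ K).Nonempty} :=
        ⟨_, ⟨_, hζK _ (hOB _ (hoO' q hq)), hφ1⟩, hζK _ (hOB _ (hoO' q' hq'))⟩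
      have hrelφ : (o q' : (EndE V)ˣ) * h (ψ q'.1) = ρ φ * ((o q : (EndE V)ˣ) * h (ψ q.1)) := by
        rw [hrel q hq, hrel q' hq', hφ, map_mul, map_inv, map_mul, map_mul]
        group
      -- the indices agree
      have hk : q.1 = q'.1 := by
        rcases lt_trichotomy q.1 q'.1 with hlt | heq | hlt
        · exfalso
          have e1 : h (ψ q'.1) = (o q' : (EndE V)ˣ)⁻¹ * ρ φ * (o q : (EndE V)ˣ) * h (ψ q.1) := by
            rw [mul_assoc ((o q' : (EndE V)ˣ)⁻¹ * ρ φ), mul_assoc ((o q' : (EndE V)ˣ)⁻¹), ← hrelφ]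
            group
          have h1 := hψ1 _ _ hlt
          have h2 : ‖(h (ψ q'.1) : EndE V)‖ ≤ R2 * R3 * R1 * ‖(h (ψ q.1) : EndE V)‖ := by
            rw [e1]
            push_cast
            have b1 := hR2' _ (hOW (hoO' q' hq'))
            have b2 := (hR3 φ hφΦ).1
            have b4 : 0 ≤ R3 := (norm_nonneg _).trans b2
            have b3 := hR1' _ (hOW (hoO' q hq))
            calc _ ≤ ‖(((o q' : (EndE V)ˣ)⁻¹ : (EndE V)ˣ) : EndE V)‖ * ‖(ρ φ : EndE V)‖ *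
                ‖((o q : (EndE V)ˣ) : EndE V)‖ * ‖(h (ψ q.1) : EndE V)‖ :=
                  (norm_mul_le _ _).trans (mul_le_mul_of_nonneg_right ((norm_mul_le _ _).trans
                    (mul_le_mul_of_nonneg_right (norm_mul_le _ _) (norm_nonneg _))) (norm_nonneg _))
              _ ≤ _ := by gcongr
          have h3 : R2 * R3 * R1 * ‖(h (ψ q.1) : EndE V)‖ ≤ max 1 (R2 * R3 * R1) * ‖(h (ψ q.1) : EndE V)‖ :=
            mul_le_mul_of_nonneg_right (le_max_right _ _) (norm_nonneg _)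
          linarith
        · exact heq
        · exfalso
          have e1 : h (ψ q.1) = (o q : (EndE V)ˣ)⁻¹ * ρ φ⁻¹ * (o q' : (EndE V)ˣ) * h (ψ q'.1) := by
            rw [mul_assoc ((o q : (EndE V)ˣ)⁻¹ * ρ φ⁻¹), hrelφ, map_inv]
            group
          have h1 := hψ1 _ _ hlt
          have h2 : ‖(h (ψ q.1) : EndE V)‖ ≤ R2 * R3 * R1 * ‖(h (ψ q'.1) : EndE V)‖ := by
            rw [e1]
            push_cast
            have b1 := hR2' _ (hOW (hoO' q hq))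
            have b2 := (hR3 φ hφΦ).2
            have b4 : 0 ≤ R3 := (norm_nonneg _).trans b2
            have b3 := hR1' _ (hOW (hoO' q' hq'))
            calc _ ≤ ‖(((o q : (EndE V)ˣ)⁻¹ : (EndE V)ˣ) : EndE V)‖ * ‖(ρ φ⁻¹ : EndE V)‖ *
                ‖((o q' : (EndE V)ˣ) : EndE V)‖ * ‖(h (ψ q'.1) : EndE V)‖ :=
                  (norm_mul_le _ _).trans (mul_le_mul_of_nonneg_right ((norm_mul_le _ _).trans
                    (mul_le_mul_of_nonneg_right (norm_mul_le _ _) (norm_nonneg _))) (norm_nonneg _))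
              _ ≤ _ := by gcongr
          have h3 : R2 * R3 * R1 * ‖(h (ψ q'.1) : EndE V)‖ ≤ max 1 (R2 * R3 * R1) * ‖(h (ψ q'.1) : EndE V)‖ :=
            mul_le_mul_of_nonneg_right (le_max_right _ _) (norm_nonneg _)
          linarith
      -- the group element is trivial
      have hρφ : (o q' : (EndE V)ˣ) * (o q : (EndE V)ˣ)⁻¹ = ρ φ := by
        rw [← hk] at hrelφ
        have : (o q' : (EndE V)ˣ) = ρ φ * (o q : (EndE V)ˣ) := by
          have := congrArg (fun z => z * (h (ψ q.1))⁻¹) hrelφ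
          simpa [mul_assoc] using this
        rw [this]
        group
      have hρφ1 : ρ φ = 1 := by
        by_contra hne
        exact hOΦ _ (hoO' q hq) _ (hoO' q' hq') _ ⟨φ, hφΦ, rfl⟩ hne hρφ
      have hoo : (o q' : (EndE V)ˣ) = (o q : (EndE V)ˣ) := by
        rw [hρφ1] at hρφ
        exact mul_inv_eq_one.1 hρφ
      have hφ2 : φ = 1 := by
        rw [hoo] at hφ1
        exact M.covering.free φ _ hφ1
      have hνν : ν q = ν q' := by
        rw [hφ, mul_inv_eq_one, ← hk] at hφ2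
        exact (mul_left_cancel hφ2).symm
      refine Prod.ext hk (Subtype.ext ?_)
      rw [← hν q hq, ← hν q' hq', hνν]
    rcases Q.eq_empty_or_nonempty with hQe | ⟨q, hq⟩
    · rw [hQe, Set.encard_empty]
      exact bot_le
    · calc Q.encard ≤ (M.dev ⁻¹' {act ((x : (EndE V)ˣ) : EndE V) 0}).encard :=
            Set.encard_le_encard_of_injOn hmaps hinj
        _ ≤ (M.dev ⁻¹' {act ((o q : (EndE V)ˣ) : EndE V) 0}).encard := by
            refine Set.encard_le_encard_of_injOn (f := fun y => (a (ψ q.1) * ν q) • y) ?_ ?_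
            · intro y hy
              show M.dev ((a (ψ q.1) * ν q) • y) = _
              rw [hdev, show M.dev y = act ((x : (EndE V)ˣ) : EndE V) 0 from hy, hact q hq]
            · exact (MulAction.injective _).injOn
        _ ≤ m := hBm _ (hOB _ (hoO' q hq))

/-- Module E2: the pigeonhole argument. -/
theorem no_escape (M : AffineDeveloping V G Y) (B₀ : Set V) (hB₀ : IsOpen B₀)
    (hne : (B₀ ∩ range M.dev).Nonempty) (hfin : ∀ v ∈ B₀, (M.dev ⁻¹' {v}).Finite)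
    (ρ : G →* (EndE V)ˣ) (hρ : ∀ g, (ρ g : EndE V) = liftA (M.hol g))
    (U D N : Subgroup (EndE V)ˣ) (hUcl : IsClosed (coeSet U)) (hDU : D ≤ U)
    (hUaff : ∀ u ∈ U, IsAff (u : EndE V))
    (hconj : ∀ g, ∀ u ∈ U, ρ g * u * (ρ g)⁻¹ ∈ U)
    (hcomm : ∀ g, ∀ u ∈ U, ρ g * u * (ρ g)⁻¹ * u⁻¹ ∈ D)
    (hN : N ≤ D) (hNρ : ∀ n ∈ N, ∃ g, ρ g = n)
    (C : Set (EndE V)) (hC : IsCompact C)
    (hDN : ∀ x ∈ D, ∃ n ∈ N, ∃ c ∈ D, (c : EndE V) ∈ C ∧ x = n * c)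
    (σ : V → (EndE V)ˣ) (hσU : ∀ v, σ v ∈ U) (hσc : Continuous fun v => (σ v : EndE V))
    (hσ : ∀ v, act (σ v : EndE V) 0 = v)
    (K : Set Y) (hK : IsCompact K) (g : ℕ → G) (z : ℕ → Y) (hz : ∀ k, z k ∈ K) (q : V)
    (hq : Tendsto (fun k => M.dev (g k • z k)) atTop (𝓝 q))
    (hg : ∀ F : Set G, F.Finite → ∀ᶠ k in atTop, g k ∉ F) : False := by
  have := E2_locallyCompact U hUcl
  have := E2_secondCountable U hUcl
  obtain ⟨κ, hκ1, hκP⟩ := haar_pigeonhole U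
  let τ : V → U := fun v => ⟨σ v, hσU v⟩
  have hτ : Continuous τ := (E2_isClosedEmbedding U hUcl).isEmbedding.continuous_iff.2 hσc
  have hτ0 : ∀ v, act ((τ v : (EndE V)ˣ) : EndE V) 0 = v := hσ
  set S : Set U := τ '' (M.dev '' K ∪ insert q (range fun k => M.dev (g k • z k))) with hS
  have hSc : IsCompact S :=
    ((hK.image M.dev_local.continuous).union hq.isCompact_insert_range).image hτ
  set s : ℕ → U := fun k => τ (M.dev (g k • z k)) with hs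
  set t : ℕ → U := fun k => τ (M.dev (z k)) with ht
  have hsS : ∀ k, s k ∈ S := fun k => ⟨_, Or.inr (Or.inr ⟨k, rfl⟩), rfl⟩
  have htS : ∀ k, t k ∈ S := fun k => ⟨_, Or.inl ⟨_, hz k, rfl⟩, rfl⟩
  have hdev : ∀ (g : G) (y : Y), M.dev (g • y) = act (ρ g : EndE V) (M.dev y) := by
    intro g y
    rw [hρ, E2_act_lift, M.dev_smul]
  have hρaff : ∀ g, IsAff (ρ g : EndE V) := by
    intro g x
    rw [hρ]
    rfl
  have hfix : ∀ k, act (ρ (g k) : EndE V) (act ((t k : (EndE V)ˣ) : EndE V) 0) =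
      act ((s k : (EndE V)ˣ) : EndE V) 0 := by
    intro k
    rw [hs, ht]
    simp only [hτ0]
    rw [hdev]
  have hfix' : ∀ k, act (ρ (g k)⁻¹ : EndE V) (act ((s k : (EndE V)ˣ) : EndE V) 0) =
      act ((t k : (EndE V)ˣ) : EndE V) 0 := by
    intro k
    rw [← hfix k, ← E2_act_mul (hρaff _), ← Units.val_mul, ← map_mul, inv_mul_cancel, map_one]
    rfl
  have hκ2 : ∀ x : G, κ (E2_conj ρ U hconj x) * κ (E2_conj ρ U hconj x⁻¹) = 1 := by
    intro x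
    have := (hκ1 (E2_conj ρ U hconj x)).2
    rwa [E2_conj_symm] at this
  by_cases hfr : ∃ᶠ k in atTop, 1 ≤ κ (E2_conj ρ U hconj (g k)⁻¹)
  · obtain ⟨φ, hφ, hφ1⟩ := Filter.extraction_of_frequently_atTop hfr
    refine E2_core M B₀ hB₀ hne hfin ρ hρ U D N hUcl hDU hUaff hconj hcomm hN hNρ C hC hDN (fun v => ⟨τ v, hτ0 v⟩)
      κ hκP S hSc (g ∘ φ) (s ∘ φ) (t ∘ φ) (fun k => hsS _) (fun k => htS _) (fun k => hfix _) ?_ hφ1
    intro F hF
    exact hφ.tendsto_atTop.eventually (hg F hF)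
  · rw [Filter.not_frequently] at hfr
    obtain ⟨φ, hφ, hφ1⟩ := Filter.extraction_of_frequently_atTop hfr.frequently
    refine E2_core M B₀ hB₀ hne hfin ρ hρ U D N hUcl hDU hUaff hconj hcomm hN hNρ C hC hDN (fun v => ⟨τ v, hτ0 v⟩)
      κ hκP S hSc (fun k => (g (φ k))⁻¹) (t ∘ φ) (s ∘ φ) (fun k => htS _) (fun k => hsS _)
      (fun k => hfix' _) ?_ ?_
    · intro F hF
      have h1 := hφ.tendsto_atTop.eventually (hg (F⁻¹) hF.inv)
      filter_upwards [h1] with k hk hk2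
      exact hk (Set.inv_mem_inv.2 (by simpa using hk2) |> fun h => by simpa using h)
    · intro k
      rw [inv_inv]
      have h1 := hκ2 (g (φ k))
      have h2 := hφ1 k
      push Not at h2
      have h3 := (hκ1 (E2_conj ρ U hconj (g (φ k)))).1
      by_contra h4
      push Not at h4
      have h5 := (hκ1 (E2_conj ρ U hconj (g (φ k))⁻¹)).1
      nlinarith

end E2core

end Pool.Agent.SOL
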