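import Pool.Agent.Helper53.SOLV.Escape

/-! # Module F: the escaping sequence -/

set_option autoImplicit false

open Set Filter Topology

namespace Pool.Agent.SOL

open Pool.Agent.Helper2.MK

/-- If the compact affine manifold is incomplete there is a sequence of points `z k` of a compact
set and a sequence `g k` in the deck group leaving every finite set such that `dev (g k • z k)`
converges. -/
theorem exists_escape {V G Y : Type*} [NormedAddCommGroup V] [NormedSpace ℝ V]
    [Group G] [TopologicalSpace Y] [T2Space Y] [MulAction G Y] [ConnectedSpace Y]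
    (M : AffineDeveloping V G Y) (h : ¬ ∃ e : Y ≃ₜ V, ⇑e = M.dev) :
    ∃ (K : Set Y) (g : ℕ → G) (z : ℕ → Y) (q : V), IsCompact K ∧ (∀ k, z k ∈ K) ∧
      Tendsto (fun k => M.dev (g k • z k)) atTop (𝓝 q) ∧
      ∀ F : Set G, F.Finite → ∀ᶠ k in atTop, g k ∉ F := by
  obtain ⟨g, z, z₀, q, hg, hz, hq⟩ := Pool.Agent.Helper53.SOLV.exists_escape M h
  refine ⟨insert z₀ (range z), g, z, q, hz.isCompact_insert_range, fun k => Or.inr ⟨k, rfl⟩, hq,
    fun F hF => ?_⟩
  have h1 : Tendsto g cofinite cofinite := hg.tendsto_cofinite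
  rw [Nat.cofinite_eq_atTop] at h1
  exact h1.eventually hF.compl_mem_cofinite

end Pool.Agent.SOL
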