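import Mathlib

/-!
# Transitivity of a unipotent hull, abstract form

Let `Γ` and `U` be groups of affine automorphisms of `V`, such that `Γ` normalises `U`, `U` contains
the commutators of `Γ`, is closed under (polynomial) real powers and acts trivially on the irreducible
subquotients, and such that every element of `Γ` agrees somewhere with an element of `U`.  If
no set without interior points is a `Γ`-invariant locally Lipschitz retract of `V`, then `U` is
transitive on `V`, with a smooth section.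
-/

set_option autoImplicit false

open Set

namespace Pool.Agent.SOL.Trans

variable {V : Type*} [NormedAddCommGroup V] [NormedSpace ℝ V]

theorem aff_sub (u : V ≃ᵃ[ℝ] V) (x y : V) : u x - u y = u.linear (x - y) := by
  have := u.toAffineMap.linearMap_vsub x y
  simpa using this.symm

theorem aff_add (u : V ≃ᵃ[ℝ] V) (x w : V) : u (x + w) = u x + u.linear w := by
  have h := aff_sub u (x + w) x
  rw [add_sub_cancel_left] at h
  rw [← h, add_sub_cancel]

theorem mul_linear (u v : V ≃ᵃ[ℝ] V) (x : V) : (u * v).linear x = u.linear (v.linear x) := rfl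

theorem inv_linear_linear (u : V ≃ᵃ[ℝ] V) (x : V) : u⁻¹.linear (u.linear x) = x := by
  rw [← mul_linear, inv_mul_cancel]; rfl

theorem linear_inv_linear (u : V ≃ᵃ[ℝ] V) (x : V) : u.linear (u⁻¹.linear x) = x := by
  rw [← mul_linear, mul_inv_cancel]; rfl

theorem inv_self (u : V ≃ᵃ[ℝ] V) (x : V) : u⁻¹ (u x) = x := by
  rw [← Function.comp_apply (f := ⇑u⁻¹), ← AffineEquiv.coe_mul, inv_mul_cancel]; rfl

theorem self_inv (u : V ≃ᵃ[ℝ] V) (x : V) : u (u⁻¹ x) = x := by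
  rw [← Function.comp_apply (f := ⇑u), ← AffineEquiv.coe_mul, mul_inv_cancel]; rfl

theorem mul_app (u v : V ≃ᵃ[ℝ] V) (x : V) : (u * v) x = u (v x) := rfl

/-- `W` is invariant under the linear parts of the elements of `Γ`. -/
def LInv (Γ : Subgroup (V ≃ᵃ[ℝ] V)) (W : Submodule ℝ V) : Prop :=
  ∀ γ ∈ Γ, ∀ w ∈ W, γ.linear w ∈ W

/-- `W'` and `W` are invariant under `Γ` and `U`, `W' < W`, and there is no invariant subspace
strictly between. -/
structure Cov (Γ U : Subgroup (V ≃ᵃ[ℝ] V)) (W' W : Submodule ℝ V) : Prop where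
  inv' : LInv Γ W'
  uinv' : LInv U W'
  inv : LInv Γ W
  uinv : LInv U W
  lt : W' < W
  cov : ∀ W'' : Submodule ℝ V, LInv Γ W'' → LInv U W'' → W' ≤ W'' → W'' ≤ W →
    W'' = W' ∨ W'' = W

/-- The properties of the unipotent hull `U` used for transitivity. -/
structure UData (Γ U : Subgroup (V ≃ᵃ[ℝ] V)) : Prop where
  /-- `Γ` normalises `U` -/
  normal : ∀ γ ∈ Γ, ∀ u ∈ U, γ * u * γ⁻¹ ∈ U
  /-- `U` contains the commutators of `Γ` -/
  comm : ∀ γ ∈ Γ, ∀ δ ∈ Γ, γ * δ * γ⁻¹ * δ⁻¹ ∈ U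
  /-- `U` acts trivially on the irreducible subquotients -/
  triv : ∀ W' W : Submodule ℝ V, Cov Γ U W' W → ∀ u ∈ U, ∀ w ∈ W, u.linear w - w ∈ W'
  /-- every element of `Γ` agrees somewhere with an element of `U` -/
  fix : ∀ γ ∈ Γ, ∃ x : V, ∃ u ∈ U, γ x = u x
  /-- `U` is closed under real powers, which are polynomial -/
  pow : ∀ u ∈ U, ∃ φ : ℝ → V ≃ᵃ[ℝ] V, (∀ t, φ t ∈ U) ∧ φ 1 = u ∧
    (∀ s t, φ (s + t) = φ s * φ t) ∧
    ∃ (m : ℕ) (P : ℕ → Polynomial ℝ) (A : ℕ → V →ᵃ[ℝ] V),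
      ∀ t x, φ t x = ∑ k ∈ Finset.range m, (P k).eval t • A k x

/-- There is a smooth section of the action of `U` on `V` modulo `W`, at the point `p`. -/
def HasSec (U : Subgroup (V ≃ᵃ[ℝ] V)) (p : V) (W : Submodule ℝ V) : Prop :=
  ∃ σ : V → V ≃ᵃ[ℝ] V, (∀ x, σ x ∈ U) ∧ (∀ x, σ x p - x ∈ W) ∧
    ContDiff ℝ 1 (fun q : V × V => σ q.1 q.2) ∧ ContDiff ℝ 1 (fun q : V × V => (σ q.1)⁻¹ q.2)

theorem poly_mem {W : Submodule ℝ V} (f : ℝ → V)
    (hf : ∀ l : V →ₗ[ℝ] ℝ, ∃ P : Polynomial ℝ, ∀ t, l (f t) = P.eval t)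
    (h : ∀ n : ℕ, f n ∈ W) (t : ℝ) : f t ∈ W := by
  by_contra hne
  obtain ⟨l, hl, hW⟩ := Submodule.exists_le_ker_of_notMem hne
  obtain ⟨P, hP⟩ := hf l
  have h0 : P = 0 := by
    refine Polynomial.eq_zero_of_infinite_isRoot P ?_
    refine Set.Infinite.mono ?_ (Set.infinite_range_of_injective (Nat.cast_injective (R := ℝ)))
    rintro _ ⟨n, rfl⟩
    have h1 : l (f n) = 0 := hW (h n)
    rw [hP] at h1
    exact h1
  apply hl
  rw [hP, h0, Polynomial.eval_zero]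

section

variable {Γ U : Subgroup (V ≃ᵃ[ℝ] V)}

theorem exists_cov [FiniteDimensional ℝ V] {W : Submodule ℝ V} (hW : LInv Γ W) (hUW : LInv U W)
    (h0 : W ≠ ⊥) : ∃ W', Cov Γ U W' W := by
  have hbot : ∀ H : Subgroup (V ≃ᵃ[ℝ] V), LInv H ⊥ := by
    intro H γ _ w hw
    rw [Submodule.mem_bot] at hw ⊢
    rw [hw, map_zero]
  have hne : ({W' | (LInv Γ W' ∧ LInv U W') ∧ W' < W} : Set (Submodule ℝ V)).Nonempty :=
    ⟨⊥, ⟨hbot Γ, hbot U⟩, bot_lt_iff_ne_bot.mpr h0⟩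
  obtain ⟨W', ⟨h1, h2⟩, h3⟩ := WellFounded.has_min
    (wellFounded_gt : WellFounded ((· > ·) : Submodule ℝ V → Submodule ℝ V → Prop)) _ hne
  refine ⟨W', h1.1, h1.2, hW, hUW, h2, fun W'' h4 h4' h5 h6 => ?_⟩
  by_contra hcon
  rw [not_or] at hcon
  exact h3 W'' ⟨⟨h4, h4'⟩, lt_of_le_of_ne h6 hcon.2⟩ (lt_of_le_of_ne h5 (Ne.symm hcon.1))

theorem pow_mem_quot [FiniteDimensional ℝ V] (h : UData Γ U) {W' W : Submodule ℝ V}
    (hc : Cov Γ U W' W) (p : V) {φ : ℝ → V ≃ᵃ[ℝ] V} (hφU : ∀ t, φ t ∈ U)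
    (hadd : ∀ s t, φ (s + t) = φ s * φ t) {m : ℕ} {P : ℕ → Polynomial ℝ} {A : ℕ → V →ᵃ[ℝ] V}
    (hA : ∀ t x, φ t x = ∑ k ∈ Finset.range m, (P k).eval t • A k x) {b : V} (hb : b ∈ W)
    (h1 : φ 1 p - p - b ∈ W') (t : ℝ) : φ t p - p - t • b ∈ W' := by
  have hφ0 : φ 0 = 1 := by
    have h2 := hadd 0 0
    rw [add_zero] at h2
    exact (mul_eq_left (a := φ 0)).mp h2.symm
  refine poly_mem (W := W') (fun t => φ t p - p - t • b) ?_ ?_ t
  · intro l
    refine ⟨(∑ k ∈ Finset.range m, P k * Polynomial.C (l (A k p)))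
      - Polynomial.C (l p) - Polynomial.X * Polynomial.C (l b), fun t => ?_⟩
    simp only [hA, map_sub, map_sum, map_smul, smul_eq_mul, Polynomial.eval_sub,
      Polynomial.eval_finsetSum, Polynomial.eval_mul, Polynomial.eval_C, Polynomial.eval_X]
  · intro n
    induction n with
    | zero => simp [hφ0]
    | succ n ih =>
      have e1 : φ ((n + 1 : ℕ) : ℝ) p - p - ((n + 1 : ℕ) : ℝ) • b
          = (φ (n : ℝ)).linear (φ 1 p - p - b) + ((φ (n : ℝ)).linear b - b)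
            + (φ (n : ℝ) p - p - (n : ℝ) • b) := by
        have e2 : φ ((n + 1 : ℕ) : ℝ) p = φ (n : ℝ) (φ 1 p) := by
          rw [Nat.cast_add, Nat.cast_one, hadd, mul_app]
        have e3 : (φ (n : ℝ)).linear (φ 1 p - p) = φ (n : ℝ) (φ 1 p) - φ (n : ℝ) p :=
          (aff_sub _ _ _).symm
        rw [map_sub (φ (n : ℝ)).linear (φ 1 p - p) b, e3, e2, Nat.cast_add, Nat.cast_one, add_smul,
          one_smul]
        abel
      have g1 : (φ (n : ℝ)).linear (φ 1 p - p - b) ∈ W' := hc.uinv' _ (hφU _) _ h1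
      have g2 : (φ (n : ℝ)).linear b - b ∈ W' := h.triv W' W hc _ (hφU _) b hb
      show φ ((n + 1 : ℕ) : ℝ) p - p - ((n + 1 : ℕ) : ℝ) • b ∈ W'
      rw [e1]
      exact W'.add_mem (W'.add_mem g1 g2) ih

theorem contDiff_aff [FiniteDimensional ℝ V] (A : V →ᵃ[ℝ] V) : ContDiff ℝ 1 A := by
  have h1 : (A : V → V) = fun x => LinearMap.toContinuousLinearMap A.linear x + A 0 := by
    ext x
    have := A.map_vadd 0 x
    simpa using this
  rw [h1]
  exact (ContinuousLinearMap.contDiff _).add contDiff_const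

theorem contDiff_pow [FiniteDimensional ℝ V] {φ : ℝ → V ≃ᵃ[ℝ] V} {m : ℕ}
    {P : ℕ → Polynomial ℝ} {A : ℕ → V →ᵃ[ℝ] V}
    (hA : ∀ t x, φ t x = ∑ k ∈ Finset.range m, (P k).eval t • A k x) :
    ContDiff ℝ 1 (fun q : ℝ × V => φ q.1 q.2) := by
  simp only [hA]
  refine ContDiff.sum fun k _ => ?_
  have hP : ContDiff ℝ 1 (fun t : ℝ => (P k).eval t) := by
    have := Polynomial.contDiff_aeval (𝕜 := ℝ) (P k) 1
    simpa using this
  exact (hP.comp contDiff_fst).smul ((contDiff_aff (A k)).comp contDiff_snd)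

theorem build [FiniteDimensional ℝ V] (h : UData Γ U) {W' W : Submodule ℝ V}
    (hc : Cov Γ U W' W) (p : V) {ι : Type*} [DecidableEq ι] (s : Finset ι) (b : ι → V)
    (hb : ∀ i, b i ∈ W) (hu : ∀ i, ∃ u ∈ U, u p - p - b i ∈ W') (l : ι → V →ₗ[ℝ] ℝ) :
    ∃ σ : V → V ≃ᵃ[ℝ] V, (∀ x, σ x ∈ U) ∧ (∀ x, σ x p - p - ∑ i ∈ s, l i x • b i ∈ W') ∧
      ContDiff ℝ 1 (fun q : V × V => σ q.1 q.2) ∧
      ContDiff ℝ 1 (fun q : V × V => (σ q.1)⁻¹ q.2) := by
  induction s using Finset.induction_on with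
  | empty =>
    refine ⟨fun _ => 1, fun _ => U.one_mem, fun x => ?_, contDiff_snd, ?_⟩
    · simp
    · simp only [inv_one]
      exact contDiff_snd
  | insert i s hi ih =>
    obtain ⟨σ, h1, h2, h3, h4⟩ := ih
    obtain ⟨u, hu1, hu2⟩ := hu i
    obtain ⟨φ, hφU, hφ1, hadd, m, P, A, hA⟩ := h.pow u hu1
    have hφ0 : φ 0 = 1 := by
      have h2 := hadd 0 0
      rw [add_zero] at h2
      exact (mul_eq_left (a := φ 0)).mp h2.symm
    have hinv : ∀ t, (φ t)⁻¹ = φ (-t) := by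
      intro t
      rw [inv_eq_iff_mul_eq_one, ← hadd, add_neg_cancel, hφ0]
    rw [← hφ1] at hu2
    have hlc : ContDiff ℝ 1 (l i) := by
      have : ⇑(l i) = ⇑(LinearMap.toContinuousLinearMap (l i)) := rfl
      rw [this]
      exact ContinuousLinearMap.contDiff _
    refine ⟨fun x => φ (l i x) * σ x, fun x => U.mul_mem (hφU _) (h1 x), fun x => ?_, ?_, ?_⟩
    · have e0 := pow_mem_quot h hc p hφU hadd hA (hb i) hu2 (l i x)
      have hsW : ∑ j ∈ s, l j x • b j ∈ W := W.sum_mem fun j _ => W.smul_mem _ (hb j)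
      have e1 : (φ (l i x)).linear (∑ j ∈ s, l j x • b j) - ∑ j ∈ s, l j x • b j ∈ W' :=
        h.triv W' W hc _ (hφU _) _ hsW
      have e2 : (φ (l i x)).linear (σ x p - p - ∑ j ∈ s, l j x • b j) ∈ W' :=
        hc.uinv' _ (hφU _) _ (h2 x)
      have e3 : (φ (l i x) * σ x) p - p - ∑ j ∈ insert i s, l j x • b j
          = (φ (l i x)).linear (σ x p - p - ∑ j ∈ s, l j x • b j)
            + ((φ (l i x)).linear (∑ j ∈ s, l j x • b j) - ∑ j ∈ s, l j x • b j)
            + (φ (l i x) p - p - l i x • b i) := by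
        have e4 : (φ (l i x)).linear (σ x p - p) = φ (l i x) (σ x p) - φ (l i x) p :=
          (aff_sub _ _ _).symm
        rw [map_sub (φ (l i x)).linear (σ x p - p), e4, Finset.sum_insert hi, mul_app]
        abel
      rw [e3]
      exact W'.add_mem (W'.add_mem e2 e1) e0
    · exact (contDiff_pow hA).comp ((hlc.comp contDiff_fst).prodMk h3)
    · have e1 : ContDiff ℝ 1 ((fun q : V × V => (σ q.1)⁻¹ q.2) ∘ fun q : V × V =>
          (q.1, φ (-(l i q.1)) q.2)) :=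
        h4.comp (contDiff_fst.prodMk
        ((contDiff_pow hA).comp (((hlc.comp contDiff_fst).neg).prodMk
          (contDiff_snd (E := V) (F := V) (𝕜 := ℝ)))))
      have e2 : (fun q : V × V => (φ (l i q.1) * σ q.1)⁻¹ q.2) =
          ((fun q : V × V => (σ q.1)⁻¹ q.2) ∘ fun q : V × V => (q.1, φ (-(l i q.1)) q.2)) := by
        ext q
        simp only [Function.comp, mul_inv_rev, mul_app, hinv]
      rw [e2]
      exact e1

theorem step_full [FiniteDimensional ℝ V] (h : UData Γ U) {W' W : Submodule ℝ V}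
    (hc : Cov Γ U W' W) {p : V} (hS : HasSec U p W)
    (hT : ∀ w ∈ W, ∃ u ∈ U, u p - p - w ∈ W') : HasSec U p W' := by
  classical
  obtain ⟨σ, h1, h2, h3, h4⟩ := hS
  let B := Module.finBasis ℝ W
  obtain ⟨P, hP⟩ := W.subtype.exists_leftInverse_of_injective (by simp)
  have hP' : ∀ w : W, P w = w := fun w => by
    have := LinearMap.congr_fun hP w
    simpa using this
  obtain ⟨τ, t1, t2, t3, t4⟩ := build h hc p Finset.univ (fun i => (B i : V)) (fun i => (B i).2)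
    (fun i => hT _ (B i).2) (fun i => (B.coord i).comp P)
  have hsum : ∀ w ∈ W, ∑ i, ((B.coord i).comp P) w • (B i : V) = w := by
    intro w hw
    have e1 := B.sum_repr ⟨w, hw⟩
    have e2 := congrArg (Submodule.subtype W) e1
    rw [map_sum] at e2
    simp only [map_smul, Submodule.subtype_apply] at e2
    have e3 : P w = ⟨w, hw⟩ := hP' ⟨w, hw⟩
    simp only [LinearMap.comp_apply, e3, Module.Basis.coord_apply]
    exact e2
  have hyW : ∀ x, (σ x)⁻¹ x - p ∈ W := by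
    intro x
    have e1 : (σ x)⁻¹ x - p = -((σ x)⁻¹.linear (σ x p - x)) := by
      rw [← aff_sub, inv_self]; abel
    rw [e1]
    exact W.neg_mem (hc.uinv _ (U.inv_mem (h1 x)) _ (h2 x))
  have hy : ContDiff ℝ 1 (fun x : V => (σ x)⁻¹ x - p) :=
    (h4.comp (contDiff_id.prodMk contDiff_id)).sub contDiff_const
  refine ⟨fun x => σ x * τ ((σ x)⁻¹ x - p), fun x => U.mul_mem (h1 x) (t1 _), fun x => ?_, ?_, ?_⟩
  · have e1 := t2 ((σ x)⁻¹ x - p)
    rw [hsum _ (hyW x)] at e1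
    have e2 : (σ x * τ ((σ x)⁻¹ x - p)) p - x
        = (σ x).linear (τ ((σ x)⁻¹ x - p) p - p - ((σ x)⁻¹ x - p)) := by
      have e3 : τ ((σ x)⁻¹ x - p) p - p - ((σ x)⁻¹ x - p) = τ ((σ x)⁻¹ x - p) p - (σ x)⁻¹ x := by
        abel
      rw [e3, ← aff_sub, self_inv, mul_app]
    rw [e2]
    exact hc.uinv' _ (h1 x) _ e1
  · exact h3.comp (contDiff_fst.prodMk (t3.comp ((hy.comp contDiff_fst).prodMk
      (contDiff_snd (E := V) (F := V) (𝕜 := ℝ)))))
  · have e1 : ContDiff ℝ 1 ((fun q : V × V => (τ q.1)⁻¹ q.2) ∘ fun q : V × V =>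
        ((σ q.1)⁻¹ q.1 - p, (σ q.1)⁻¹ q.2)) :=
      t4.comp ((hy.comp (contDiff_fst (E := V) (F := V) (𝕜 := ℝ))).prodMk h4)
    have e2 : (fun q : V × V => (σ q.1 * τ ((σ q.1)⁻¹ q.1 - p))⁻¹ q.2) =
        ((fun q : V × V => (τ q.1)⁻¹ q.2) ∘ fun q : V × V =>
          ((σ q.1)⁻¹ q.1 - p, (σ q.1)⁻¹ q.2)) := by
      ext q
      simp only [Function.comp, mul_inv_rev, mul_app]
    rw [e2]
    exact e1

/-- The dichotomy. -/
theorem dichotomy [FiniteDimensional ℝ V] (h : UData Γ U) {W' W : Submodule ℝ V}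
    (hc : Cov Γ U W' W) {p : V} (hS : HasSec U p W) :
    (∀ w ∈ W, ∃ u ∈ U, u p - p - w ∈ W') ∨ ∀ u ∈ U, u p - p ∈ W → u p - p ∈ W' := by
  obtain ⟨σ, h1, h2, h3, h4⟩ := hS
  let T : Submodule ℝ V :=
    { carrier := {w | w ∈ W ∧ ∃ u ∈ U, u p - p - w ∈ W'}
      zero_mem' := ⟨W.zero_mem, 1, U.one_mem, by simp⟩
      add_mem' := by
        rintro a b ⟨ha, u, hu, hu'⟩ ⟨hb, v, hv, hv'⟩
        refine ⟨W.add_mem ha hb, u * v, U.mul_mem hu hv, ?_⟩
        have e1 : (u * v) p - p - (a + b) = u.linear (v p - p - b) + (u.linear b - b)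
            + (u p - p - a) := by
          have e2 : u.linear (v p - p) = u (v p) - u p := (aff_sub _ _ _).symm
          rw [map_sub u.linear (v p - p) b, e2, mul_app]; abel
        rw [e1]
        exact W'.add_mem (W'.add_mem (hc.uinv' _ hu _ hv') (h.triv W' W hc u hu b hb)) hu'
      smul_mem' := by
        rintro c b ⟨hb, u, hu, hu'⟩
        obtain ⟨φ, hφU, hφ1, hadd, m, P, A, hA⟩ := h.pow u hu
        rw [← hφ1] at hu'
        exact ⟨W.smul_mem _ hb, φ c, hφU c, pow_mem_quot h hc p hφU hadd hA hb hu' c⟩ }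
  have hTmem : ∀ w, w ∈ T ↔ w ∈ W ∧ ∃ u ∈ U, u p - p - w ∈ W' := fun w => Iff.rfl
  have hW'T : W' ≤ T := by
    intro w hw
    rw [hTmem]
    refine ⟨hc.lt.le hw, 1, U.one_mem, ?_⟩
    have e1 : (1 : V ≃ᵃ[ℝ] V) p - p - w = -w := by simp
    rw [e1]
    exact W'.neg_mem hw
  have hTW : T ≤ W := fun w hw => ((hTmem w).mp hw).1
  have hTuinv : LInv U T := by
    intro u hu w hw
    have e1 := T.add_mem (hW'T (h.triv W' W hc u hu w (hTW hw))) hw
    rwa [sub_add_cancel] at e1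
  have hTinv : LInv Γ T := by
    intro γ hγ w hw
    rw [hTmem] at hw
    obtain ⟨hwW, u, hu, hu'⟩ := hw
    rw [hTmem]
    refine ⟨hc.inv γ hγ w hwW, ?_⟩
    -- `v γ p - p ∈ W`
    set v : V ≃ᵃ[ℝ] V := (σ (γ p))⁻¹ with hv
    have hvU : v ∈ U := U.inv_mem (h1 _)
    have hvp : v (γ p) - p ∈ W := by
      have e1 : v (γ p) - p = -(v.linear (σ (γ p) p - γ p)) := by
        rw [← aff_sub, hv, inv_self]; abel
      rw [e1]
      exact W.neg_mem (hc.uinv _ hvU _ (h2 _))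
    -- `z = (v γ) u (v γ)⁻¹`
    set z : V ≃ᵃ[ℝ] V := v * (γ * u * γ⁻¹) * v⁻¹ with hz
    have hzU : z ∈ U := U.mul_mem (U.mul_mem hvU (h.normal γ hγ u hu)) (U.inv_mem hvU)
    have hzq : z (v (γ p)) = v (γ (u p)) := by
      rw [hz, mul_app, mul_app, inv_self, mul_app, mul_app, inv_self]
    refine ⟨z, hzU, ?_⟩
    -- `z p - p - γ w`
    have e1 : z p - p - γ.linear w =
        (v.linear (γ.linear w) - γ.linear w) + v.linear (γ.linear (u p - p - w))
          - (z.linear (v (γ p) - p) - (v (γ p) - p)) := by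
      have e2 : z.linear (v (γ p) - p) = v (γ (u p)) - z p := by
        rw [← aff_sub, hzq]
      have e3 : v.linear (γ.linear (u p - p - w))
          = v (γ (u p)) - v (γ p) - v.linear (γ.linear w) := by
        rw [map_sub γ.linear (u p - p) w, map_sub v.linear, ← aff_sub γ, ← aff_sub v]
      rw [e2, e3]; abel
    rw [e1]
    refine W'.sub_mem (W'.add_mem ?_ ?_) ?_
    · exact h.triv W' W hc v hvU _ (hc.inv γ hγ w hwW)
    · exact hc.uinv' _ hvU _ (hc.inv' γ hγ _ hu')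
    · exact h.triv W' W hc z hzU _ hvp
  rcases hc.cov T hTinv hTuinv hW'T hTW with hT | hT
  · right
    intro u hu hup
    have : u p - p ∈ T := by
      rw [hTmem]
      exact ⟨hup, u, hu, by rw [sub_self]; exact W'.zero_mem⟩
    rwa [hT] at this
  · left
    intro w hw
    rw [← hT, hTmem] at hw
    exact hw.2

/-- A projection with kernel `W'`. -/
theorem exists_proj (W' : Submodule ℝ V) :
    ∃ q : V →ₗ[ℝ] V, (∀ v, q v = 0 ↔ v ∈ W') ∧ ∀ v, q v - v ∈ W' := by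
  obtain ⟨C, hC⟩ := W'.exists_isCompl
  refine ⟨Submodule.projection C W' hC.symm, fun v => ?_, fun v => ?_⟩
  · exact Submodule.projection_apply_eq_zero_iff hC.symm
  · have := W'.neg_mem (Submodule.sub_projection_mem hC.symm v)
    rwa [neg_sub] at this

/-- The case in which the orbits of `U` in `V / W'` are graphs over `V / W`. -/
theorem step_null [FiniteDimensional ℝ V] (h : UData Γ U)
    (hret : ∀ (C : Set V) (r : V → V), (∀ γ ∈ Γ, ∀ v ∈ C, γ v ∈ C) →
      LocallyLipschitz r → (∀ v, r v ∈ C) → (∀ v ∈ C, r v = v) → (interior C).Nonempty)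
    {W' W : Submodule ℝ V} (hc : Cov Γ U W' W) {p : V} (hS : HasSec U p W)
    (hT : ∀ u ∈ U, u p - p ∈ W → u p - p ∈ W') : False := by
  obtain ⟨σ, h1, h2, h3, h4⟩ := hS
  have hle : W' ≤ W := hc.lt.le
  -- (K)
  have hyW : ∀ x, (σ x)⁻¹ x - p ∈ W := by
    intro x
    have e1 : (σ x)⁻¹ x - p = -((σ x)⁻¹.linear (σ x p - x)) := by
      rw [← aff_sub, inv_self]; abel
    rw [e1]
    exact W.neg_mem (hc.uinv _ (U.inv_mem (h1 x)) _ (h2 x))
  have hK : ∀ u ∈ U, ∀ x, u x - x ∈ W → u x - x ∈ W' := by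
    intro u hu x hx
    set s := σ x with hs
    have hsU : s ∈ U := h1 x
    set y := s⁻¹ x with hy
    have hxy : s y = x := self_inv s x
    set v : V ≃ᵃ[ℝ] V := s⁻¹ * u * s with hv
    have hvU : v ∈ U := U.mul_mem (U.mul_mem (U.inv_mem hsU) hu) hsU
    have hvy : v y - y = s⁻¹.linear (u x - x) := by
      rw [hv, mul_app, mul_app, hxy, ← aff_sub, ← hy]
    have hvy' : u x - x = s.linear (v y - y) := by
      rw [hvy, linear_inv_linear]
    have e1 : v y - y ∈ W := by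
      rw [hvy]; exact hc.uinv _ (U.inv_mem hsU) _ hx
    have e2 : v.linear (y - p) - (y - p) ∈ W' := h.triv W' W hc v hvU _ (hyW x)
    have e3 : v p - p = (v y - y) - (v.linear (y - p) - (y - p)) := by
      rw [← aff_sub]; abel
    have e4 : v p - p ∈ W := by
      rw [e3]; exact W.sub_mem e1 (hle e2)
    have e5 := hT v hvU e4
    have e6 : v y - y = (v p - p) + (v.linear (y - p) - (y - p)) := by
      rw [← aff_sub]; abel
    rw [hvy']
    refine hc.uinv' _ hsU _ ?_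
    rw [e6]
    exact W'.add_mem e5 e2
  -- a projection with kernel `W'`
  obtain ⟨q, hq1, hq2⟩ := exists_proj W'
  have hqq : ∀ a b, a - b ∈ W' → q a = q b := by
    intro a b hab
    have := (hq1 (a - b)).mpr hab
    rw [map_sub] at this
    exact sub_eq_zero.mp this
  have hqW : ∀ w ∈ W, q w ∈ W := by
    intro w hw
    have := W.add_mem (hle (hq2 w)) hw
    rwa [sub_add_cancel] at this
  have hqid : ∀ v, q (q v) = q v := fun v => hqq _ _ (hq2 v)
  set f : V → V := fun x => q ((σ x)⁻¹ x - p) with hf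
  have hfW : ∀ x, f x ∈ W := fun x => hqW _ (hyW x)
  have hfq : ∀ x, q (f x) = f x := fun x => hqid _
  have hfC : ContDiff ℝ 1 f := by
    have e1 : ContDiff ℝ 1 (fun x : V => (σ x)⁻¹ x - p) :=
      (h4.comp (contDiff_id.prodMk contDiff_id)).sub contDiff_const
    have e2 : ContDiff ℝ 1 (LinearMap.toContinuousLinearMap q) := ContinuousLinearMap.contDiff _
    exact e2.comp e1
  -- (F1)
  have F1 : ∀ u ∈ U, ∀ x, f (u x) = f x := by
    intro u hu x
    refine hqq _ _ ?_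
    have e1 : (σ (u x))⁻¹ (u x) = ((σ (u x))⁻¹ * u * σ x) ((σ x)⁻¹ x) := by
      rw [mul_app, mul_app, self_inv]
    have e2 : ((σ (u x))⁻¹ * u * σ x) ∈ U :=
      U.mul_mem (U.mul_mem (U.inv_mem (h1 _)) hu) (h1 _)
    have e3 : (σ (u x))⁻¹ (u x) - p - ((σ x)⁻¹ x - p)
        = ((σ (u x))⁻¹ * u * σ x) ((σ x)⁻¹ x) - (σ x)⁻¹ x := by
      rw [← e1]; abel
    rw [e3]
    refine hK _ e2 _ ?_
    rw [← e3]
    exact W.sub_mem (hyW _) (hyW _)
  -- (F3)
  have F3 : ∀ x, ∀ w ∈ W, f (x + w) = f x + q w := by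
    intro x w hw
    rw [hf]
    simp only
    rw [← map_add]
    refine hqq _ _ ?_
    have e1 : (σ (x + w))⁻¹ (x + w) = ((σ (x + w))⁻¹ * σ x) ((σ x)⁻¹ (x + w)) := by
      rw [mul_app, self_inv]
    have e2 : ((σ (x + w))⁻¹ * σ x) ∈ U := U.mul_mem (U.inv_mem (h1 _)) (h1 _)
    have e3 : (σ x)⁻¹ (x + w) = (σ x)⁻¹ x + (σ x)⁻¹.linear w := aff_add _ _ _
    have e4 : (σ x)⁻¹.linear w - w ∈ W' := h.triv W' W hc _ (U.inv_mem (h1 x)) w hw
    have e5 : (σ (x + w))⁻¹ (x + w) - p - ((σ x)⁻¹ x - p + w)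
        = (((σ (x + w))⁻¹ * σ x) ((σ x)⁻¹ (x + w)) - (σ x)⁻¹ (x + w))
          + ((σ x)⁻¹.linear w - w) := by
      rw [← e1, e3]; abel
    rw [e5]
    refine W'.add_mem (hK _ e2 _ ?_) e4
    rw [← e1, e3]
    have e6 : (σ (x + w))⁻¹ (x + w) - ((σ x)⁻¹ x + (σ x)⁻¹.linear w)
        = ((σ (x + w))⁻¹ (x + w) - p) - ((σ x)⁻¹ x - p) - (σ x)⁻¹.linear w
          + (x + w - (x + w)) := by abel
    have e7 : (σ (x + w))⁻¹ (x + w) - p ∈ W := by
      have e8 := hyW (x + w)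
      exact e8
    rw [e6, sub_self, add_zero]
    exact W.sub_mem (W.sub_mem e7 (hyW _)) (hc.uinv _ (U.inv_mem (h1 x)) _ hw)
  -- (F2)
  have F2 : ∀ γ ∈ Γ, ∀ x y, f (γ x) - f (γ y) = q (γ.linear (f x - f y)) := by
    intro γ hγ x y
    have e0 : ∀ x, f (γ x) = f (γ ((σ x)⁻¹ x)) := by
      intro x
      have e1 : γ x = (γ * σ x * γ⁻¹) (γ ((σ x)⁻¹ x)) := by
        rw [mul_app, mul_app, inv_self, self_inv]
      conv_lhs => rw [e1]
      exact F1 _ (h.normal γ hγ _ (h1 x)) _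
    rw [e0 x, e0 y]
    have e2 : (σ x)⁻¹ x - (σ y)⁻¹ y ∈ W := by
      have := W.sub_mem (hyW x) (hyW y)
      rwa [sub_sub_sub_cancel_right] at this
    have e3 : γ ((σ x)⁻¹ x) = γ ((σ y)⁻¹ y) + γ.linear ((σ x)⁻¹ x - (σ y)⁻¹ y) := by
      rw [← aff_sub]; abel
    rw [e3, F3 _ _ (hc.inv γ hγ _ e2), add_sub_cancel_left]
    refine hqq _ _ ?_
    rw [← map_sub]
    refine hc.inv' γ hγ _ ?_
    have e4 : (σ x)⁻¹ x - (σ y)⁻¹ y - (f x - f y)
        = -((q ((σ x)⁻¹ x - p) - ((σ x)⁻¹ x - p)) - (q ((σ y)⁻¹ y - p) - ((σ y)⁻¹ y - p))) := by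
      rw [hf]; simp only; abel
    rw [e4]
    exact W'.neg_mem (W'.sub_mem (hq2 _) (hq2 _))
  -- fixed points of the individual elements
  have hfix : ∀ γ ∈ Γ, ∃ x, f (γ x) = f x := by
    intro γ hγ
    obtain ⟨x, u, hu, hxu⟩ := h.fix γ hγ
    exact ⟨x, by rw [hxu]; exact F1 u hu x⟩
  -- a common fixed point
  obtain ⟨x₀, hx₀⟩ : ∃ x₀, ∀ γ ∈ Γ, f (γ x₀) = f x₀ := by
    by_cases htriv : ∀ γ ∈ Γ, ∀ w ∈ W, γ.linear w - w ∈ W'
    · refine ⟨p, fun γ hγ => ?_⟩
      obtain ⟨x, hx⟩ := hfix γ hγ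
      have e1 := F2 γ hγ p x
      rw [hqq _ _ (htriv γ hγ _ (W.sub_mem (hfW p) (hfW x))), map_sub, hfq, hfq, hx] at e1
      exact sub_left_inj.mp e1
    · push Not at htriv
      obtain ⟨γ₁, hγ₁, w₁, hw₁, hne⟩ := htriv
      let K : Submodule ℝ V := W ⊓ W'.comap ((γ₁.linear : V →ₗ[ℝ] V) - LinearMap.id)
      have hKmem : ∀ w, w ∈ K ↔ w ∈ W ∧ γ₁.linear w - w ∈ W' := fun w => Iff.rfl
      have hW'K : W' ≤ K := by
        intro w hw
        rw [hKmem]
        exact ⟨hle hw, W'.sub_mem (hc.inv' γ₁ hγ₁ w hw) hw⟩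
      have hKuinv : LInv U K := by
        intro u hu w hw
        have e1 := K.add_mem (hW'K (h.triv W' W hc u hu w hw.1)) hw
        rwa [sub_add_cancel] at e1
      have hKinv : LInv Γ K := by
        intro γ hγ w hw
        rw [hKmem] at hw ⊢
        refine ⟨hc.inv γ hγ w hw.1, ?_⟩
        set c : V ≃ᵃ[ℝ] V := γ₁ * γ * γ₁⁻¹ * γ⁻¹ with hcdef
        have hcU : c ∈ U := h.comm γ₁ hγ₁ γ hγ
        have e1 : γ₁.linear (γ.linear w) = c.linear (γ.linear (γ₁.linear w)) := by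
          rw [hcdef, mul_linear, mul_linear, mul_linear, inv_linear_linear, inv_linear_linear]
        have e2 : γ₁.linear (γ.linear w) - γ.linear w
            = (c.linear (γ.linear (γ₁.linear w)) - γ.linear (γ₁.linear w))
              + γ.linear (γ₁.linear w - w) := by
          rw [e1, map_sub]; abel
        rw [e2]
        refine W'.add_mem (h.triv W' W hc c hcU _ (hc.inv γ hγ _ (hc.inv γ₁ hγ₁ _ hw.1))) ?_
        exact hc.inv' γ hγ _ hw.2
      have hKW' : K = W' := by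
        rcases hc.cov K hKinv hKuinv hW'K inf_le_left with h5 | h5
        · exact h5
        · exfalso
          rw [← h5, hKmem] at hw₁
          exact hne hw₁.2
      obtain ⟨x₀, hx₀⟩ := hfix γ₁ hγ₁
      refine ⟨x₀, fun γ hγ => ?_⟩
      set c : V ≃ᵃ[ℝ] V := γ₁ * γ * γ₁⁻¹ * γ⁻¹ with hcdef
      have hcU : c ∈ U := h.comm γ₁ hγ₁ γ hγ
      have e1 : γ₁ (γ x₀) = c (γ (γ₁ x₀)) := by
        rw [hcdef, mul_app, mul_app, mul_app, inv_self, inv_self]
      have e2 : f (γ₁ (γ x₀)) = f (γ x₀) := by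
        rw [e1, F1 c hcU]
        have e3 := F2 γ hγ (γ₁ x₀) x₀
        rw [hx₀, sub_self, map_zero, map_zero] at e3
        exact sub_eq_zero.mp e3
      have e3 := F2 γ₁ hγ₁ (γ x₀) x₀
      rw [e2, hx₀] at e3
      set z := f (γ x₀) - f x₀ with hz
      have hzW : z ∈ W := W.sub_mem (hfW _) (hfW _)
      have e4 : γ₁.linear z - z ∈ W' := by
        have e5 := W'.neg_mem (hq2 (γ₁.linear z))
        rw [← e3, neg_sub] at e5
        exact e5
      have e5 : z ∈ K := by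
        rw [hKmem]; exact ⟨hzW, e4⟩
      rw [hKW'] at e5
      have e6 : z = 0 := by
        have e7 := (hq1 z).mpr e5
        rw [hz, map_sub, hfq, hfq] at e7
        exact e7
      exact sub_eq_zero.mp e6
  -- the invariant retract
  have hAinv : ∀ γ ∈ Γ, ∀ v ∈ {x | f x = f x₀}, γ v ∈ {x | f x = f x₀} := by
    intro γ hγ x hx
    have e1 := F2 γ hγ x x₀
    have hx' : f x = f x₀ := hx
    rw [hx', sub_self, map_zero, map_zero, hx₀ _ hγ] at e1
    exact sub_eq_zero.mp e1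
  have hr : LocallyLipschitz (fun x => x + (f x₀ - f x)) := by
    have : ContDiff ℝ 1 (fun x => x + (f x₀ - f x)) := contDiff_id.add (contDiff_const.sub hfC)
    exact this.locallyLipschitz
  obtain ⟨x, hx⟩ := hret {x | f x = f x₀} (fun x => x + (f x₀ - f x)) hAinv hr (fun x => by
      show f (x + (f x₀ - f x)) = f x₀
      rw [F3 _ _ (W.sub_mem (hfW _) (hfW _)), map_sub, hfq, hfq]; abel)
    (fun x hx => by
      have hx' : f x = f x₀ := hx
      rw [hx', sub_self, add_zero])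
  obtain ⟨w, hwW, hwW'⟩ := SetLike.exists_of_lt hc.lt
  have hcont : Filter.Tendsto (fun t : ℝ => x + t • w) (nhds 0) (nhds x) := by
    have : Continuous (fun t : ℝ => x + t • w) := by fun_prop
    have h0 := this.tendsto 0
    simpa using h0
  have hev : ∀ᶠ t : ℝ in nhds 0, f (x + t • w) = f x₀ :=
    hcont.eventually (mem_interior_iff_mem_nhds.mp hx)
  have hev' : ∀ᶠ t : ℝ in nhdsWithin 0 {0}ᶜ, t ≠ 0 ∧ f (x + t • w) = f x₀ :=
    (eventually_mem_nhdsWithin).and (hev.filter_mono nhdsWithin_le_nhds)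
  obtain ⟨t, ht, hft⟩ := hev'.exists
  have hx'' : x ∈ {x | f x = f x₀} := interior_subset hx
  have hx' : f x = f x₀ := hx''
  rw [F3 _ _ (W.smul_mem t hwW), hx', map_smul, add_eq_left, smul_eq_zero] at hft
  rcases hft with h5 | h5
  · exact ht h5
  · exact hwW' ((hq1 w).mp h5)

/-- **Transitivity.** -/
theorem hasSec_bot [FiniteDimensional ℝ V] (h : UData Γ U)
    (hret : ∀ (C : Set V) (r : V → V), (∀ γ ∈ Γ, ∀ v ∈ C, γ v ∈ C) →
      LocallyLipschitz r → (∀ v, r v ∈ C) → (∀ v ∈ C, r v = v) → (interior C).Nonempty) (p : V) :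
    HasSec U p ⊥ := by
  have main : ∀ (n : ℕ) (W : Submodule ℝ V), Module.finrank ℝ W = n → LInv Γ W → LInv U W →
      HasSec U p W → HasSec U p ⊥ := by
    intro n
    induction n using Nat.strong_induction_on with
    | _ n ih =>
      intro W hn hW hUW hS
      by_cases h0 : W = ⊥
      · rw [← h0]; exact hS
      · obtain ⟨W', hc⟩ := exists_cov hW hUW h0
        have hlt : Module.finrank ℝ W' < n := by
          rw [← hn]; exact Submodule.finrank_lt_finrank_of_lt hc.lt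
        refine ih _ hlt W' rfl hc.inv' hc.uinv' ?_
        rcases dichotomy h hc hS with hT | hT
        · exact step_full h hc hS hT
        · exact (step_null h hret hc hS hT).elim
  refine main _ ⊤ rfl (fun γ _ w _ => Submodule.mem_top) (fun γ _ w _ => Submodule.mem_top) ?_
  refine ⟨fun _ => 1, fun _ => U.one_mem, fun _ => Submodule.mem_top, contDiff_snd, ?_⟩
  simp only [inv_one]
  exact contDiff_snd

/-- `U` is transitive on `V`, with a smooth section. -/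
theorem transitive [FiniteDimensional ℝ V] (h : UData Γ U)
    (hret : ∀ (C : Set V) (r : V → V), (∀ γ ∈ Γ, ∀ v ∈ C, γ v ∈ C) →
      LocallyLipschitz r → (∀ v, r v ∈ C) → (∀ v ∈ C, r v = v) → (interior C).Nonempty) (p : V) :
    ∃ σ : V → V ≃ᵃ[ℝ] V, (∀ x, σ x ∈ U) ∧ (∀ x, σ x p = x) ∧
      ContDiff ℝ 1 (fun q : V × V => σ q.1 q.2) ∧
      ContDiff ℝ 1 (fun q : V × V => (σ q.1)⁻¹ q.2) := by
  obtain ⟨σ, h1, h2, h3, h4⟩ := hasSec_bot h hret p
  exact ⟨σ, h1, fun x => sub_eq_zero.mp ((Submodule.mem_bot ℝ).mp (h2 x)), h3, h4⟩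

end

end Pool.Agent.SOL.Trans
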