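import Pool.Agent.SOL.Zar
import Pool.Agent.SOL.B3
import Pool.Agent.SOL.Trans

/-!
# Module D: a unipotent hull is transitive

The statement `exists_section` translates `Trans.transitive` to groups of affine endomorphisms of
`V × ℝ`.
-/

set_option autoImplicit false

open Set Filter Topology

namespace Pool.Agent.SOL.Trans

section actions

variable {V : Type*} [NormedAddCommGroup V] [NormedSpace ℝ V]

theorem app_one {a : EndE V} (ha : IsAff a) (x : V) : a (x, 1) = (act a x, 1) :=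
  Prod.ext rfl (ha (x, 1))

theorem app_zero {a : EndE V} (ha : IsAff a) (x : V) : a (x, 0) = (linA a x, 0) :=
  Prod.ext rfl (ha (x, 0))

theorem act_mul (a : EndE V) {b : EndE V} (hb : IsAff b) (x : V) :
    act (a * b) x = act a (act b x) := by
  change (a (b (x, 1))).1 = _
  rw [app_one hb]
  rfl

theorem linA_mul (a : EndE V) {b : EndE V} (hb : IsAff b) (x : V) :
    linA (a * b) x = linA a (linA b x) := by
  change (a (b (x, 0))).1 = _
  rw [app_zero hb]
  rfl

theorem act_one (x : V) : act (1 : EndE V) x = x := rfl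

theorem linA_one (x : V) : linA (1 : EndE V) x = x := rfl

theorem isAff_one : IsAff (1 : EndE V) := fun _ => rfl

theorem isAff_mul {a b : EndE V} (ha : IsAff a) (hb : IsAff b) : IsAff (a * b) := fun x => by
  change (a (b x)).2 = _
  rw [ha, hb]

theorem isAff_inv {a : (EndE V)ˣ} (ha : IsAff (a : EndE V)) : IsAff ((a⁻¹ : (EndE V)ˣ) : EndE V) :=
  fun x => by
  have h1 := ha (((a⁻¹ : (EndE V)ˣ) : EndE V) x)
  have h2 : (a : EndE V) (((a⁻¹ : (EndE V)ˣ) : EndE V) x) = x := by
    change ((a : EndE V) * ((a⁻¹ : (EndE V)ˣ) : EndE V)) x = x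
    rw [Units.mul_inv]; rfl
  rw [h2] at h1
  exact h1.symm

/-- The affine units. -/
def affU (V : Type*) [NormedAddCommGroup V] [NormedSpace ℝ V] : Subgroup (EndE V)ˣ where
  carrier := {u | IsAff (u : EndE V)}
  one_mem' := isAff_one
  mul_mem' := fun ha hb => isAff_mul ha hb
  inv_mem' := fun ha => isAff_inv ha

theorem linA_add (a : EndE V) (x y : V) : linA a (x + y) = linA a x + linA a y := by
  have h : ((x + y, 0) : V × ℝ) = (x, 0) + (y, 0) := by simp
  simp only [linA, h, map_add, Prod.fst_add]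

theorem linA_smul (a : EndE V) (c : ℝ) (x : V) : linA a (c • x) = c • linA a x := by
  have h : ((c • x, 0) : V × ℝ) = c • (x, 0) := by simp
  simp only [linA, h, map_smul, Prod.smul_fst]

theorem act_add (a : EndE V) (x w : V) : act a (w + x) = linA a w + act a x := by
  have h : ((w + x, 1) : V × ℝ) = (w, 0) + (x, 1) := by simp
  simp only [linA, act, h, map_add, Prod.fst_add]

/-- The linear part as a linear map. -/
def linL (a : EndE V) : V →ₗ[ℝ] V where
  toFun := linA a
  map_add' := linA_add a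
  map_smul' := linA_smul a

/-- The affine map of an endomorphism. -/
def actL (a : EndE V) : V →ᵃ[ℝ] V where
  toFun := act a
  linear := linL a
  map_vadd' := fun x w => act_add a x w

/-- The affine automorphism of an affine unit. -/
def toAff : affU V →* (V ≃ᵃ[ℝ] V) where
  toFun u :=
    { toFun := act (u.1 : EndE V)
      invFun := act ((u.1⁻¹ : (EndE V)ˣ) : EndE V)
      left_inv := fun x => by
        rw [← act_mul _ u.2, Units.inv_mul]; rfl
      right_inv := fun x => by
        rw [← act_mul _ (isAff_inv u.2), Units.mul_inv]; rfl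
      linear :=
        { toFun := linA (u.1 : EndE V)
          map_add' := linA_add _
          map_smul' := linA_smul _
          invFun := linA ((u.1⁻¹ : (EndE V)ˣ) : EndE V)
          left_inv := fun x => by
            rw [← linA_mul _ u.2, Units.inv_mul]; rfl
          right_inv := fun x => by
            rw [← linA_mul _ (isAff_inv u.2), Units.mul_inv]; rfl }
      map_vadd' := fun x w => act_add _ x w }
  map_one' := rfl
  map_mul' := fun a b => by
    ext x
    exact act_mul _ b.2 x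

theorem toAff_apply (u : affU V) (x : V) : toAff u x = act (u.1 : EndE V) x := rfl

theorem toAff_linear (u : affU V) (x : V) : (toAff u).linear x = linA (u.1 : EndE V) x := rfl

/-- The image of a group of affine units. -/
def img (Γ : Subgroup (EndE V)ˣ) : Subgroup (V ≃ᵃ[ℝ] V) := (Γ.comap (affU V).subtype).map toAff

theorem mem_img {Γ : Subgroup (EndE V)ˣ} (hΓ : ∀ γ ∈ Γ, IsAff (γ : EndE V)) {x : V ≃ᵃ[ℝ] V} :
    x ∈ img Γ ↔ ∃ (γ : (EndE V)ˣ) (h : γ ∈ Γ), toAff ⟨γ, hΓ γ h⟩ = x := by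
  constructor
  · rintro ⟨γ, h1, h2⟩
    exact ⟨γ.1, h1, h2⟩
  · rintro ⟨γ, h, rfl⟩
    exact ⟨⟨γ, hΓ γ h⟩, h, rfl⟩

theorem mem_img_of {Γ : Subgroup (EndE V)ˣ} {γ : (EndE V)ˣ} (h : γ ∈ Γ)
    (hγ : IsAff (γ : EndE V)) : toAff ⟨γ, hγ⟩ ∈ img Γ := ⟨⟨γ, hγ⟩, h, rfl⟩

/-- A semisimple affine map has a fixed point. -/
theorem exists_fixed {s : EndE V} (hs : IsAff s) (hss : IsSS s) : ∃ x : V, act s x = x := by
  obtain ⟨p, hp, hps⟩ := hss
  have key : ∀ (r : Polynomial ℝ) (w : V × ℝ), (Polynomial.aeval s r w).2 = r.eval 1 * w.2 := by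
    intro r
    induction r using Polynomial.induction_on' with
    | add f g hf hg =>
      intro w
      rw [map_add, Polynomial.eval_add, add_mul, ← hf w, ← hg w]
      rfl
    | monomial n c =>
      intro w
      rw [Polynomial.aeval_monomial, Polynomial.eval_monomial, one_pow, mul_one]
      have h1 : ∀ n : ℕ, ((s ^ n) w).2 = w.2 := by
        intro n
        induction n with
        | zero => rfl
        | succ n ih =>
          rw [pow_succ']
          change (s ((s ^ n) w)).2 = _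
          rw [hs, ih]
      have h2 : ((algebraMap ℝ (EndE V) c * s ^ n) w) = c • ((s ^ n) w) := by
        rw [Algebra.algebraMap_eq_smul_one, smul_mul_assoc, one_mul]
        rfl
      rw [h2, Prod.smul_snd, h1, smul_eq_mul]
  have h0 : p.eval 1 = 0 := by
    have h1 := key p (0, 1)
    rw [hps] at h1
    simpa using h1.symm
  obtain ⟨q, hq⟩ := Polynomial.dvd_iff_isRoot.mpr h0
  have hq1 : q.eval 1 ≠ 0 := by
    intro h1
    obtain ⟨r, hr⟩ := Polynomial.dvd_iff_isRoot.mpr h1
    have h2 : (Polynomial.X - Polynomial.C (1 : ℝ)) * (Polynomial.X - Polynomial.C 1) ∣ p :=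
      ⟨r, by rw [hq, hr, mul_assoc]⟩
    exact Polynomial.not_isUnit_X_sub_C (1 : ℝ) (hp _ h2)
  set w : V × ℝ := (q.eval 1)⁻¹ • (Polynomial.aeval s q (0, 1)) with hw
  have hw2 : w.2 = 1 := by
    rw [hw, Prod.smul_snd, key, smul_eq_mul, mul_one, inv_mul_cancel₀ hq1]
  have hsw : s w = w := by
    have h1 : (s - 1) (Polynomial.aeval s q (0, 1)) = 0 := by
      have h2 : (Polynomial.aeval s (Polynomial.X - Polynomial.C (1 : ℝ))) = s - 1 := by
        simp
      have h3 : (s - 1) * Polynomial.aeval s q = 0 := by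
        rw [← h2, ← map_mul, ← hq, hps]
      have h4 := congrArg (fun f : EndE V => f (0, 1)) h3
      exact h4
    have h5 : (s - 1) w = 0 := by rw [hw, map_smul, h1, smul_zero]
    have h6 : s w - w = 0 := h5
    exact sub_eq_zero.mp h6
  refine ⟨w.1, ?_⟩
  have h7 : (w.1, (1 : ℝ)) = w := by rw [← hw2]
  rw [act, h7, hsw]

end actions

section triv

variable {V : Type*} [NormedAddCommGroup V] [NormedSpace ℝ V]

theorem triv_of_sunip {Γ U : Subgroup (EndE V)ˣ} {m : ℕ} (hΓ : ∀ γ ∈ Γ, IsAff (γ : EndE V))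
    (hU : ∀ u ∈ U, IsAff (u : EndE V)) (hS : SUnip U m)
    (hnorm : ∀ γ ∈ Γ, ∀ u ∈ U, γ * u * γ⁻¹ ∈ U)
    {W' W : Submodule ℝ V} (hc : Trans.Cov (img Γ) (img U) W' W) {u : V ≃ᵃ[ℝ] V}
    (hu : u ∈ img U) {w : V} (hw : w ∈ W) : u.linear w - w ∈ W' := by
  have hnorm' : ∀ γ ∈ img Γ, ∀ u ∈ img U, γ⁻¹ * u * γ ∈ img U := by
    intro γ' hγ' u' hu'
    obtain ⟨γ, hγ, rfl⟩ := (mem_img hΓ).mp hγ'
    obtain ⟨u, hu, rfl⟩ := (mem_img hU).mp hu'
    have h1 := hnorm γ⁻¹ (Γ.inv_mem hγ) u hu
    rw [inv_inv] at h1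
    rw [← map_inv, ← map_mul, ← map_mul]
    exact mem_img_of h1 _
  let K : Submodule ℝ V :=
    { carrier := {w | w ∈ W ∧ ∀ u ∈ img U, u.linear w - w ∈ W'}
      zero_mem' := ⟨W.zero_mem, fun u _ => by rw [map_zero, sub_zero]; exact W'.zero_mem⟩
      add_mem' := by
        rintro a b ⟨ha, ha'⟩ ⟨hb, hb'⟩
        refine ⟨W.add_mem ha hb, fun u hu => ?_⟩
        rw [map_add, add_sub_add_comm]
        exact W'.add_mem (ha' u hu) (hb' u hu)
      smul_mem' := by
        rintro c a ⟨ha, ha'⟩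
        refine ⟨W.smul_mem c ha, fun u hu => ?_⟩
        rw [map_smul, ← smul_sub]
        exact W'.smul_mem c (ha' u hu) }
  have hKmem : ∀ w, w ∈ K ↔ w ∈ W ∧ ∀ u ∈ img U, u.linear w - w ∈ W' := fun w => Iff.rfl
  have hW'K : W' ≤ K := fun w hw => by
    rw [hKmem]
    exact ⟨hc.lt.le hw, fun u hu => W'.sub_mem (hc.uinv' u hu w hw) hw⟩
  have hKW : K ≤ W := fun w hw => hw.1
  have hKU : Trans.LInv (img U) K := by
    intro u hu w hw
    have e1 := K.add_mem (hW'K (hw.2 u hu)) hw
    rwa [sub_add_cancel] at e1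
  have hKΓ : Trans.LInv (img Γ) K := by
    intro γ hγ w hw
    rw [hKmem] at hw ⊢
    refine ⟨hc.inv γ hγ w hw.1, fun u hu => ?_⟩
    have h1 := hc.inv' γ hγ _ (hw.2 _ (hnorm' γ hγ u hu))
    rw [map_sub, Trans.mul_linear, Trans.mul_linear, Trans.linear_inv_linear] at h1
    exact h1
  rcases hc.cov K hKΓ hKU hW'K hKW with hK | hK
  · exfalso
    obtain ⟨w₀, hw₀, hw₀'⟩ := SetLike.exists_of_lt hc.lt
    have main : ∀ n : ℕ, ∃ l : List (EndE V)ˣ, l.length = n ∧ (∀ x ∈ l, x ∈ U) ∧
        ∃ w ∈ W, w ∉ W' ∧ (l.map fun x : (EndE V)ˣ => (x : EndE V) - 1).prod (w₀, 0) = (w, 0) := by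
      intro n
      induction n with
      | zero => exact ⟨[], rfl, by simp, w₀, hw₀, hw₀', rfl⟩
      | succ n ih =>
        obtain ⟨l, h1, h2, w, h3, h4, h5⟩ := ih
        have h6 : w ∉ K := by rw [hK]; exact h4
        have h7 : ∃ u ∈ img U, u.linear w - w ∉ W' := by
          by_contra hcon
          push Not at hcon
          exact h6 ((hKmem w).mpr ⟨h3, hcon⟩)
        obtain ⟨u, hu, hne⟩ := h7
        obtain ⟨v, hv, rfl⟩ := (mem_img hU).mp hu
        refine ⟨v :: l, by simp [h1], ?_, _, W.sub_mem (hc.uinv _ hu w h3) h3, hne, ?_⟩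
        · intro x hx
          rcases List.mem_cons.mp hx with h | h
          · rw [h]; exact hv
          · exact h2 x h
        · rw [List.map_cons, List.prod_cons]
          change ((v : EndE V) - 1) ((l.map fun x : (EndE V)ˣ => (x : EndE V) - 1).prod (w₀, 0)) = _
          rw [h5]
          change (v : EndE V) (w, 0) - (w, 0) = _
          rw [app_zero (hU v hv)]
          simp only [Prod.mk_sub_mk, sub_zero]
          rfl
    obtain ⟨l, h1, h2, w, h3, h4, h5⟩ := main m
    rw [hS l h1 h2] at h5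
    have h6 : (0 : V) = w := congrArg Prod.fst h5
    exact h4 (h6 ▸ W'.zero_mem)
  · rw [← hK] at hw
    exact hw.2 u hu

end triv

end Pool.Agent.SOL.Trans

namespace Pool.Agent.SOL

open Pool.Agent.SOL.Trans

/-- A unipotent hull is transitive, unless there is an invariant retract without interior
points. -/
theorem exists_section {V : Type*} [NormedAddCommGroup V] [NormedSpace ℝ V] [FiniteDimensional ℝ V]
    (Γ U : Subgroup (EndE V)ˣ) (m : ℕ) (hΓ : ∀ γ ∈ Γ, IsAff (γ : EndE V))
    (hU : ∀ u ∈ U, IsAff (u : EndE V)) (hS : SUnip U m)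
    (hpow : ∀ u ∈ U, ∀ t : ℝ, ∃ x ∈ U, (x : EndE V) = upow (u : EndE V) t)
    (hnorm : ∀ γ ∈ Γ, ∀ u ∈ U, γ * u * γ⁻¹ ∈ U)
    (hcomm : ∀ γ ∈ Γ, ∀ δ ∈ Γ, γ * δ * γ⁻¹ * δ⁻¹ ∈ U)
    (hJU : ∀ γ ∈ Γ, ∃ u ∈ U, IsJU γ u)
    (hret : ∀ (C : Set V) (r : V → V), (∀ γ ∈ Γ, ∀ v ∈ C, act (γ : EndE V) v ∈ C) →
      LocallyLipschitz r → (∀ v, r v ∈ C) → (∀ v ∈ C, r v = v) → (interior C).Nonempty) :
    ∃ σ : V → (EndE V)ˣ, (∀ v, σ v ∈ U) ∧ Continuous (fun v => (σ v : EndE V)) ∧
      ∀ v, act (σ v : EndE V) 0 = v := by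
  have hnil : ∀ u ∈ U, IsNilpotent ((u : EndE V) - 1) := by
    intro u hu
    refine ⟨m, ?_⟩
    have h1 := hS (List.replicate m u) (by simp) (fun x hx => by
      rw [List.eq_of_mem_replicate hx]; exact hu)
    simpa using h1
  have h : Trans.UData (img Γ) (img U) := by
    refine ⟨?_, ?_, ?_, ?_, ?_⟩
    · intro γ' hγ' u' hu'
      obtain ⟨γ, hγ, rfl⟩ := (mem_img hΓ).mp hγ'
      obtain ⟨u, hu, rfl⟩ := (mem_img hU).mp hu'
      rw [← map_inv, ← map_mul, ← map_mul]
      exact mem_img_of (hnorm γ hγ u hu) _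
    · intro γ' hγ' δ' hδ'
      obtain ⟨γ, hγ, rfl⟩ := (mem_img hΓ).mp hγ'
      obtain ⟨δ, hδ, rfl⟩ := (mem_img hΓ).mp hδ'
      rw [← map_inv, ← map_inv, ← map_mul, ← map_mul, ← map_mul]
      exact mem_img_of (hcomm γ hγ δ hδ) _
    · intro W' W hc u hu w hw
      exact triv_of_sunip hΓ hU hS hnorm hc hu hw
    · intro γ' hγ'
      obtain ⟨γ, hγ, rfl⟩ := (mem_img hΓ).mp hγ'
      obtain ⟨u, hu, s, h1, h2, h3, h4⟩ := hJU γ hγ
      have hs : IsAff (s : EndE V) := by
        have e1 : s = γ * u⁻¹ := by rw [h1, mul_inv_cancel_right]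
        rw [e1]
        exact isAff_mul (hΓ γ hγ) (isAff_inv (hU u hu))
      obtain ⟨x, hx⟩ := exists_fixed hs h3
      refine ⟨x, _, mem_img_of hu (hU u hu), ?_⟩
      rw [toAff_apply, toAff_apply]
      change act (γ : EndE V) x = act (u : EndE V) x
      rw [h1, h2, Units.val_mul, act_mul _ hs, hx]
    · intro u' hu'
      obtain ⟨u, hu, rfl⟩ := (mem_img hU).mp hu'
      choose y hy hy' using hpow u hu
      let z : ℝ → affU V := fun t => ⟨y t, hU _ (hy t)⟩
      refine ⟨fun t => toAff (z t), fun t => mem_img_of (hy t) _, ?_, ?_, ?_⟩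
      · have h1 := upow_natCast (hnil u hu) 1
        rw [Nat.cast_one, pow_one] at h1
        have h2 : z 1 = ⟨u, hU u hu⟩ := by
          apply Subtype.ext
          apply Units.ext
          change (y 1 : EndE V) = u
          rw [hy', h1]
        exact congrArg toAff h2
      · intro s t
        have h2 : z (s + t) = z s * z t := by
          apply Subtype.ext
          apply Units.ext
          change (y (s + t) : EndE V) = (y s : EndE V) * (y t : EndE V)
          rw [hy', hy', hy', upow_add (hnil u hu)]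
        change toAff (z (s + t)) = toAff (z s) * toAff (z t)
        rw [h2, map_mul]
      · refine ⟨Module.finrank ℝ (EndE V) + 1,
          fun j => Polynomial.C ((j.factorial : ℝ)⁻¹) * descPochhammer ℝ j,
          fun j => actL (((u : EndE V) - 1) ^ j), fun t x => ?_⟩
        change act (y t : EndE V) x = _
        rw [hy', upow, act]
        have e1 : ∀ (s : Finset ℕ) (c : ℕ → ℝ) (a : ℕ → EndE V),
            ((∑ j ∈ s, c j • a j) (x, 1)).1 = ∑ j ∈ s, c j • act (a j) x := by
          intro s c a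
          rw [sum_apply, Prod.fst_sum]
          rfl
        rw [e1]
        refine Finset.sum_congr rfl fun j _ => ?_
        rw [Polynomial.eval_mul, Polynomial.eval_C, div_eq_inv_mul]
        rfl
  obtain ⟨σ, h1, h2, h3, h4⟩ := Trans.transitive h (fun C r hC hr hrC hid =>
    hret C r (fun γ hγ v hv => hC _ (mem_img_of hγ (hΓ γ hγ)) v hv) hr hrC hid) 0
  have h5 : ∀ v, ∃ (γ : (EndE V)ˣ) (h : γ ∈ U), toAff ⟨γ, hU γ h⟩ = σ v :=
    fun v => (mem_img hU).mp (h1 v)
  choose τ hτ hτ' using h5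
  have h6 : ∀ v x, act (τ v : EndE V) x = σ v x := by
    intro v x
    rw [← hτ' v]
    rfl
  refine ⟨τ, hτ, ?_, fun v => by rw [h6, h2]⟩
  rw [continuous_clm_apply]
  rintro ⟨w, t⟩
  have e1 : ∀ v, (τ v : EndE V) (w, t) = (σ v w - σ v 0 + t • σ v 0, t) := by
    intro v
    have e2 : ((w, t) : V × ℝ) = (w, 1) - (0, 1) + t • (0, 1) := by
      ext <;> simp
    rw [← h6, ← h6, e2, map_add, map_sub, map_smul, app_one (hU _ (hτ v)),
      app_one (hU _ (hτ v))]
    ext <;> simp
  simp only [e1]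
  have hc : ∀ x : V, Continuous fun v => σ v x := fun x =>
    h3.continuous.comp (continuous_id.prodMk continuous_const)
  exact (((hc w).sub (hc 0)).add ((hc 0).const_smul t)).prodMk continuous_const

end Pool.Agent.SOL
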