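import Pool.Agent.SOL.A2
import Pool.Agent.SOL.B4
import Pool.Agent.SOL.Coc
import Pool.Agent.SOL.E2
import Pool.Agent.SOL.Escape
import Pool.Agent.SOL.Section
import Pool.Agent.SOL.Lift
import Pool.Agent.Helper4.MKT.Local

/-!
# Compact affine manifolds with virtually solvable holonomy and finite-to-one developing map
-/

set_option autoImplicit false

open Set Filter Topology

namespace Pool.Agent.SOL

open Pool.Agent.Helper2.MK

section

variable {V G Y : Type*} [NormedAddCommGroup V] [NormedSpace ℝ V] [FiniteDimensional ℝ V]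
  [Group G] [TopologicalSpace Y] [T2Space Y] [MulAction G Y]

/-- The case where the conclusion of `exists_sunip` holds for the whole holonomy group. -/
theorem complete_of_sunip [ConnectedSpace Y] (M : AffineDeveloping V G Y)
    {B : Set V} (hB : IsOpen B) (hne : (B ∩ range M.dev).Nonempty)
    (hfin : ∀ v ∈ B, (M.dev ⁻¹' {v}).Finite)
    (hJU : ∀ γ ∈ (rhoOf M).range, ∃ u, IsJU γ u) {m : ℕ} (hS : SUnip (unipGrp (rhoOf M).range) m) :
    ∃ e : Y ≃ₜ V, ⇑e = M.dev := by
  by_contra hcon
  have : ContinuousConstSMul G Y := ⟨M.covering.continuous_smul⟩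
  let _ : MeasurableSpace V := borel V
  have : BorelSpace V := ⟨rfl⟩
  set Γ := (rhoOf M).range with hΓ
  have hΓaff : ∀ γ ∈ Γ, IsAff (γ : EndE V) := by
    rintro _ ⟨g, rfl⟩
    exact isAff_liftA _
  have hΓmem : ∀ g, rhoOf M g ∈ Γ := fun g => ⟨g, rfl⟩
  have hSN : SUnip (commGrp Γ) m := hS.mono (commGrp_le_unipGrp Γ)
  have hDU : zgrp (commGrp Γ) ≤ zgrp (unipGrp Γ) := zgrp_mono (commGrp_le_unipGrp Γ)
  -- transitivity
  obtain ⟨σ, hσU, hσp, hσ⟩ := exists_section Γ (zgrp (unipGrp Γ)) m hΓaff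
    (fun u hu => isAff_hull hS hΓaff hu) (sunip_zgrp hS) (fun u hu t => upow_mem_zgrp hS hu t)
    (fun γ hγ u hu => conj_mem_hull hS hγ hu)
    (fun γ hγ δ hδ => le_zgrp _ (commGrp_le_unipGrp Γ (Subgroup.subset_closure ⟨γ, hγ, δ, hδ, rfl⟩)))
    (fun γ hγ => by
      obtain ⟨u, hu⟩ := hJU γ hγ
      exact ⟨u, le_zgrp _ (Subgroup.subset_closure (Or.inl ⟨γ, hγ, hu⟩)), hu⟩)
    (fun C r hC hr hrC hid => by
      have h1 : range M.dev ⊆ C := Pool.Agent.Helper4.MKT.range_subset_retract (h := M.holHom)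
        (fun K hK => M.covering.proper K hK) M.covering.free M.dev_local M.dev_smul M.volume_hol
        M.covering.cocompact (fun g v hv => by
          have := hC _ (hΓmem g) v hv
          rwa [act_rhoOf] at this) hr hrC hid
      obtain ⟨y⟩ : Nonempty Y := inferInstance
      exact ⟨M.dev y, interior_mono h1
        (M.dev_local.isOpenMap.isOpen_range.interior_eq.symm ▸ mem_range_self y)⟩)
  -- cocompactness
  have hnil : Group.IsNilpotent (commGrp Γ) := isNilpotent_of_sunip hSN
  obtain ⟨C, hC, hDN⟩ := cocompact (N := commGrp Γ) hSN inferInstance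
  obtain ⟨K, g, z, q, hK, hz, hq, hg⟩ := exists_escape M hcon
  refine no_escape M B hB hne hfin (rhoOf M) (fun g => rfl) (zgrp (unipGrp Γ)) (zgrp (commGrp Γ))
    (commGrp Γ) ?_ hDU (fun u hu => isAff_hull hS hΓaff hu) (fun g u hu => conj_mem_hull hS (hΓmem g) hu)
    (fun g u hu => comm_mem_hull hS (hΓmem g) hu) (le_zgrp _) (fun n hn => commGrp_le Γ hn) C hC
    hDN σ hσU ?_ hσ K hK g z hz q hq hg
  · rw [coeSet_zgrp hS]
    exact isClosed_zcl _
  · exact hσp

/-- **Theorem.** A compact affine manifold with parallel volume and virtually solvable affine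
holonomy is complete if its developing map is finite-to-one over some nonempty open subset of the
developing image. -/
theorem complete_of_solvable [ConnectedSpace Y] (M : AffineDeveloping V G Y)
    (hsol : ∃ H : Subgroup G, H.FiniteIndex ∧ Group.IsSolvable (H.map M.holHom))
    (hfin : ∃ B : Set V, IsOpen B ∧ (B ∩ range M.dev).Nonempty ∧
      ∀ v ∈ B, (M.dev ⁻¹' {v}).Finite) : ∃ e : Y ≃ₜ V, ⇑e = M.dev := by
  obtain ⟨B, hB, hne, hfin⟩ := hfin
  obtain ⟨H, hH, hsol⟩ := hsol
  have hsol' : Group.IsSolvable (H.map (rhoOf M)) := by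
    have h1 : H.map (rhoOf M) = (H.map M.holHom).map (liftM (V := V)).toHomUnits := by
      rw [Subgroup.map_map]
      rfl
    rw [h1]
    exact Group.isSolvable_of_surjective
      (MonoidHom.subgroupMap_surjective (liftM (V := V)).toHomUnits (H.map M.holHom))
  obtain ⟨Γ₁, hle, hidx, hJU, m, hS⟩ := exists_sunip (H.map (rhoOf M)) hsol'
  set G₁ : Subgroup G := H ⊓ Γ₁.comap (rhoOf M) with hG₁
  have hfi : G₁.FiniteIndex := by
    refine ⟨?_⟩
    have h1 : (Γ₁.comap (rhoOf M)).relIndex H ≠ 0 := by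
      rw [Subgroup.relIndex_comap]
      exact hidx
    have h2 : G₁.relIndex H * H.index = G₁.index := Subgroup.relIndex_mul_index inf_le_left
    rw [← h2, hG₁, Subgroup.inf_relIndex_left]
    exact mul_ne_zero h1 hH.index_ne_zero
  have hmap : (rhoOf (restrictFI M G₁)).range = Γ₁ := by
    ext γ
    constructor
    · rintro ⟨g, rfl⟩
      exact g.2.2
    · intro hγ
      obtain ⟨g, hg, rfl⟩ := hle hγ
      exact ⟨⟨g, hg, hγ⟩, rfl⟩
  exact complete_of_sunip (restrictFI M G₁) hB hne hfin (by rw [hmap]; exact hJU)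
    (by rw [hmap]; exact hS)

end

end Pool.Agent.SOL
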