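import Pool.Agent.SOL.Defs
import Pool.Agent.Helper6.Solv.Malcev

/-!
# Module A: Mal'cev's theorem over the complex numbers
-/

set_option autoImplicit false

namespace Pool.Agent.SOL

/-- A solvable group of linear maps has a subgroup of finite index with a full flag. -/
theorem exists_flag {W : Type*} [AddCommGroup W] [Module ℂ W] [FiniteDimensional ℂ W]
    (Γ : Subgroup (Module.End ℂ W)ˣ) (hΓ : Group.IsSolvable Γ) :
    ∃ Γ₁ : Subgroup (Module.End ℂ W)ˣ, Γ₁ ≤ Γ ∧ Γ₁.relIndex Γ ≠ 0 ∧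
      ∃ (n : ℕ) (F : ℕ → Submodule ℂ W), F 0 = ⊥ ∧ F n = ⊤ ∧ Monotone F ∧
        ∀ i, ∀ γ ∈ Γ₁, ∃ c : ℂ, ∀ w ∈ F (i + 1), (γ : Module.End ℂ W) w - c • w ∈ F i := by
  let ρ : Γ →* Module.End ℂ W := (Units.coeHom _).comp Γ.subtype
  obtain ⟨H, hH, L, hL0, hLn, hLm, -, hL⟩ :=
    Helper6.Solv.exists_flag (Module.finrank ℂ W) Γ W ρ rfl
  refine ⟨H.map Γ.subtype, Subgroup.map_subtype_le H, ?_, _, L, hL0, hLn, hLm, ?_⟩
  · rw [Subgroup.relIndex, Subgroup.subgroupOf, Subgroup.comap_map_eq_self_of_injective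
      Γ.subtype_injective]
    exact hH.index_ne_zero
  · rintro i _ ⟨γ, hγ, rfl⟩
    exact hL γ hγ i

end Pool.Agent.SOL
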