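import Pool.Agent.SOL.B2
import Pool.Agent.Helper6.Solv.Malcev

/-!
# Module A2: Jordan decompositions and the unipotent hull of a solvable group
-/

set_option autoImplicit false

open Set
open scoped TensorProduct

namespace Pool.Agent.SOL

/-- A Zariski closure is contained in every linear subspace that contains the set. -/
theorem zcl_subset_submodule {W : Type*} [AddCommGroup W] [Module ℝ W] {S : Set W}
    (M : Submodule ℝ W) (h : S ⊆ M) : zcl S ⊆ M := by
  intro x hx
  by_contra hxM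
  obtain ⟨f, hfx, hfM⟩ := Submodule.exists_le_ker_of_notMem hxM
  exact hfx (hx f (linear_mem_polyFun f) fun s hs => hfM (h hs))

section jordan

variable {E : Type*} [NormedAddCommGroup E] [NormedSpace ℝ E] [FiniteDimensional ℝ E]

/-- Continuous endomorphisms as endomorphisms. -/
def toEnd : (E →L[ℝ] E) →ₐ[ℝ] Module.End ℝ E :=
  { ContinuousLinearMap.toLinearMapRingHom (R₁ := ℝ) (M₁ := E) with
    commutes' := fun _ => rfl }

omit [FiniteDimensional ℝ E] in
theorem toEnd_apply (a : E →L[ℝ] E) (x : E) : toEnd a x = a x := rfl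

omit [FiniteDimensional ℝ E] in
theorem toEnd_injective : Function.Injective (toEnd : (E →L[ℝ] E) →ₐ[ℝ] Module.End ℝ E) := by
  intro a b h
  ext x
  exact LinearMap.congr_fun h x

theorem toEnd_surjective : Function.Surjective (toEnd : (E →L[ℝ] E) →ₐ[ℝ] Module.End ℝ E) := by
  intro f
  exact ⟨LinearMap.toContinuousLinearMap f, rfl⟩

/-- Multiplicative Jordan decomposition. -/
theorem exists_ju (γ : (E →L[ℝ] E)ˣ) : ∃ u, IsJU γ u := by
  obtain ⟨n, hn, s, hs, hnn, hss, hγ⟩ :=
    Module.End.exists_isNilpotent_isSemisimple (K := ℝ) (f := toEnd (γ : E →L[ℝ] E))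
  obtain ⟨n', rfl⟩ := toEnd_surjective n
  obtain ⟨s', rfl⟩ := toEnd_surjective s
  have hcomm : ∀ a b : Module.End ℝ E, a ∈ Algebra.adjoin ℝ {toEnd (γ : E →L[ℝ] E)} →
      b ∈ Algebra.adjoin ℝ {toEnd (γ : E →L[ℝ] E)} → Commute a b := by
    intro a b ha hb
    have h := Algebra.commute_of_mem_adjoin_self (R := ℝ) (a := toEnd (γ : E →L[ℝ] E)) ha
    exact Algebra.commute_of_mem_adjoin_singleton_of_commute hb h.symm
  have hcns : Commute n' s' := toEnd_injective (by
    rw [map_mul, map_mul]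
    exact hcomm _ _ hn hs)
  have hn' : IsNilpotent n' := by
    obtain ⟨k, hk⟩ := hnn
    exact ⟨k, toEnd_injective (by rw [map_pow, hk, map_zero])⟩
  have hγ' : (γ : E →L[ℝ] E) = n' + s' := toEnd_injective (by rw [hγ, map_add])
  have hcγ : Commute (γ : E →L[ℝ] E) n' := by
    rw [hγ']
    exact (Commute.refl n').add_left hcns.symm
  have hsu : IsUnit s' := by
    have h1 : s' = γ + (-n') := by rw [hγ']; abel
    rw [h1]
    exact hn'.neg.isUnit_add_left_of_commute γ.isUnit hcγ.symm.neg_left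
  obtain ⟨s₀, hs₀⟩ := hsu
  have hcs : Commute (s₀ : E →L[ℝ] E) γ := by
    rw [hs₀, hγ']
    exact hcns.symm.add_right (Commute.refl s')
  have hcs' : s₀ * γ = γ * s₀ := Units.ext hcs
  refine ⟨s₀⁻¹ * γ, s₀, by group, ?_, ?_, ?_⟩
  · rw [mul_inv_cancel_left, mul_assoc, ← hcs', inv_mul_cancel_left]
  · refine ⟨minpoly ℝ (toEnd s'), hss.minpoly_squarefree, toEnd_injective ?_⟩
    rw [hs₀, ← Polynomial.aeval_algHom_apply, minpoly.aeval, map_zero]
  · have h1 : ((s₀⁻¹ * γ : (E →L[ℝ] E)ˣ) : E →L[ℝ] E) - 1 = ((s₀⁻¹ : (E →L[ℝ] E)ˣ) : E →L[ℝ] E) * n' := by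
      rw [Units.val_mul, hγ', mul_add, ← hs₀, Units.inv_mul]
      abel
    rw [h1]
    have h2 : Commute ((s₀⁻¹ : (E →L[ℝ] E)ˣ) : E →L[ℝ] E) n' := by
      have h3 : Commute (s₀ : E →L[ℝ] E) n' := by rw [hs₀]; exact hcns.symm
      exact h3.units_inv_left
    exact h2.isNilpotent_mul_left hn'

end jordan

section flag

variable {V : Type*} [AddCommGroup V] [Module ℂ V]

/-- Acting trivially on the quotients of a flag. -/
def Triv (L : ℕ → Submodule ℂ V) (T : Module.End ℂ V) : Prop :=
  ∀ i, ∀ w ∈ L (i + 1), T w - w ∈ L i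

/-- Acting by scalars on the quotients of a flag. -/
def Scal (L : ℕ → Submodule ℂ V) (T : Module.End ℂ V) : Prop :=
  ∀ i, ∃ c : ℂ, ∀ w ∈ L (i + 1), T w - c • w ∈ L i

theorem Triv.scal {L : ℕ → Submodule ℂ V} {T : Module.End ℂ V} (h : Triv L T) : Scal L T :=
  fun i => ⟨1, fun w hw => by rw [one_smul]; exact h i w hw⟩

theorem Scal.mem {L : ℕ → Submodule ℂ V} (hL : Monotone L) (h0 : L 0 = ⊥) {T : Module.End ℂ V}
    (h : Scal L T) {i : ℕ} {w : V} (hw : w ∈ L i) : T w ∈ L i := by
  cases i with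
  | zero =>
    rw [h0, Submodule.mem_bot] at hw
    rw [hw, map_zero]
    exact Submodule.zero_mem _
  | succ i =>
    obtain ⟨c, hc⟩ := h i
    have h1 := hL (Nat.le_succ i) (hc w hw)
    have h2 : T w = (T w - c • w) + c • w := by abel
    rw [h2]
    exact Submodule.add_mem _ h1 (Submodule.smul_mem _ _ hw)

theorem Triv.mul {L : ℕ → Submodule ℂ V} (hL : Monotone L) (h0 : L 0 = ⊥) {S T : Module.End ℂ V}
    (hS : Triv L S) (hT : Triv L T) : Triv L (S * T) := by
  intro i w hw
  have h1 := hS.scal.mem hL h0 (hT i w hw)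
  have h2 := hS i w hw
  have h3 : (S * T) w - w = S (T w - w) + (S w - w) := by
    rw [map_sub, Module.End.mul_apply]
    abel
  rw [h3]
  exact Submodule.add_mem _ h1 h2

theorem inv_mem_of_mem [FiniteDimensional ℂ V] {S T : Module.End ℂ V} (hTS : T * S = 1)
    (M : Submodule ℂ V) (hS : ∀ w ∈ M, S w ∈ M) {w : V} (hw : w ∈ M) : T w ∈ M := by
  have h1 : M.map S ≤ M := by
    rintro _ ⟨x, hx, rfl⟩
    exact hS x hx
  have hinj : Function.Injective S := by
    intro x y hxy
    have h2 : ∀ z, T (S z) = z := fun z => by rw [← Module.End.mul_apply, hTS]; rfl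
    rw [← h2 x, ← h2 y, hxy]
  have h2 : Module.finrank ℂ (M.map S) = Module.finrank ℂ M :=
    (Submodule.equivMapOfInjective S hinj M).finrank_eq.symm
  have h3 : M.map S = M := Submodule.eq_of_le_of_finrank_eq h1 h2
  rw [← h3] at hw
  obtain ⟨x, hx, rfl⟩ := hw
  rw [← Module.End.mul_apply, hTS]
  exact hx

theorem Triv.inv [FiniteDimensional ℂ V] {L : ℕ → Submodule ℂ V} (hL : Monotone L)
    (h0 : L 0 = ⊥) {S T : Module.End ℂ V} (hTS : T * S = 1) (hS : Triv L S) : Triv L T := by
  intro i w hw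
  have h1 : T w - w = - T (S w - w) := by
    rw [map_sub, ← Module.End.mul_apply T S, hTS, Module.End.one_apply]
    abel
  rw [h1]
  exact Submodule.neg_mem _ (inv_mem_of_mem hTS (L i) (fun w hw => hS.scal.mem hL h0 hw)
    (hS i w hw))

/-- A unipotent map which acts by scalars acts trivially. -/
theorem Scal.triv {L : ℕ → Submodule ℂ V} (hL : Monotone L) (h0 : L 0 = ⊥)
    {T : Module.End ℂ V} (h : Scal L T) (hT : IsNilpotent (T - 1)) : Triv L T := by
  intro i w hw
  obtain ⟨c, hc⟩ := h i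
  obtain ⟨k, hk⟩ := hT
  have hmem : ∀ w ∈ L i, (T - 1) w ∈ L i := by
    intro w hw
    rw [LinearMap.sub_apply, Module.End.one_apply]
    exact Submodule.sub_mem _ (h.mem hL h0 hw) hw
  have key : ∀ m : ℕ, ((T - 1) ^ m) w - (c - 1) ^ m • w ∈ L i := by
    intro m
    induction m with
    | zero => simp
    | succ m ih =>
      have h1 : ((T - 1) ^ (m + 1)) w - (c - 1) ^ (m + 1) • w
          = (T - 1) (((T - 1) ^ m) w - (c - 1) ^ m • w) + (c - 1) ^ m • (T w - c • w) := by
        rw [pow_succ', Module.End.mul_apply, map_sub, map_smul]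
        simp only [LinearMap.sub_apply, Module.End.one_apply, smul_sub, pow_succ, mul_sub, sub_smul,
          mul_one, smul_smul]
        abel
      rw [h1]
      exact Submodule.add_mem _ (hmem _ ih) (Submodule.smul_mem _ _ (hc w hw))
  by_cases hc1 : c = 1
  · have := hc w hw
    rwa [hc1, one_smul] at this
  · have h1 := key k
    rw [hk, LinearMap.zero_apply, zero_sub, Submodule.neg_mem_iff] at h1
    have h2 : w ∈ L i := (Submodule.smul_mem_iff _ (pow_ne_zero k (sub_ne_zero.2 hc1))).1 h1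
    exact Submodule.sub_mem _ (h.mem hL h0 h2) h2

/-- A commutator of maps which act by scalars acts trivially. -/
theorem triv_commutator {L : ℕ → Submodule ℂ V} (hL : Monotone L) (h0 : L 0 = ⊥)
    {S T X R : Module.End ℂ V} (hS : Scal L S) (hT : Scal L T) (hR : Scal L R)
    (hRTS : T * S * R = 1) (hX : S * T = X * (T * S)) : Triv L X := by
  intro i w hw
  have h1 : R w ∈ L (i + 1) := hR.mem hL h0 hw
  obtain ⟨c, hc⟩ := hS i
  obtain ⟨d, hd⟩ := hT i
  set v := R w with hv
  have h2 : (T * S) v = w := by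
    rw [hv, ← Module.End.mul_apply, hRTS, Module.End.one_apply]
  have h3 : (S * T) v - (c * d) • v ∈ L i := by
    have e : (S * T) v - (c * d) • v = S (T v - d • v) + d • (S v - c • v) := by
      rw [map_sub, map_smul, Module.End.mul_apply, smul_sub, smul_smul, mul_comm d c]
      abel
    rw [e]
    exact Submodule.add_mem _ (hS.mem hL h0 (hd v h1)) (Submodule.smul_mem _ _ (hc v h1))
  have h4 : (T * S) v - (c * d) • v ∈ L i := by
    have e : (T * S) v - (c * d) • v = T (S v - c • v) + c • (T v - d • v) := by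
      rw [map_sub, map_smul, Module.End.mul_apply, smul_sub, smul_smul]
      abel
    rw [e]
    exact Submodule.add_mem _ (hT.mem hL h0 (hc v h1)) (Submodule.smul_mem _ _ (hd v h1))
  have h5 : X w - w = ((S * T) v - (c * d) • v) - ((T * S) v - (c * d) • v) := by
    rw [hX, Module.End.mul_apply X, h2]
    abel
  rw [h5]
  exact Submodule.sub_mem _ h3 h4

end flag

section main

variable {E : Type*} [NormedAddCommGroup E] [NormedSpace ℝ E]

/-- The complexification of an endomorphism. -/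
noncomputable def cpx : (E →L[ℝ] E) →ₐ[ℝ] Module.End ℂ (ℂ ⊗[ℝ] E) :=
  (Module.End.baseChangeHom ℝ ℂ E).comp toEnd

theorem cpx_tmul (a : E →L[ℝ] E) (z : ℂ) (x : E) : cpx a (z ⊗ₜ[ℝ] x) = z ⊗ₜ[ℝ] (a x) := rfl

theorem cpx_injective : Function.Injective (cpx : (E →L[ℝ] E) →ₐ[ℝ] Module.End ℂ (ℂ ⊗[ℝ] E)) := by
  intro a b h
  ext x
  let r : ℂ ⊗[ℝ] E →ₗ[ℝ] E := TensorProduct.lift ((LinearMap.lsmul ℝ E).comp Complex.reLm)
  have hr : ∀ y : E, r ((1 : ℂ) ⊗ₜ[ℝ] y) = y := by
    intro y
    simp [r]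
  have h1 := LinearMap.congr_fun h ((1 : ℂ) ⊗ₜ[ℝ] x)
  rw [cpx_tmul, cpx_tmul] at h1
  rw [← hr (a x), h1, hr]

variable [FiniteDimensional ℝ E]

omit [FiniteDimensional ℝ E] in
/-- The elements which act by scalars on a quotient of a flag form a linear subspace. -/
theorem scal_of_zcl (L : ℕ → Submodule ℂ (ℂ ⊗[ℝ] E)) {S : Set (E →L[ℝ] E)}
    (hS : ∀ x ∈ S, Scal L (cpx x)) {x : E →L[ℝ] E} (hx : x ∈ zcl S) : Scal L (cpx x) := by
  intro i
  let M : Submodule ℝ (E →L[ℝ] E) :=
    { carrier := {a | ∃ c : ℂ, ∀ w ∈ L (i + 1), cpx a w - c • w ∈ L i}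
      zero_mem' := ⟨0, fun w _ => by
        rw [map_zero, LinearMap.zero_apply, zero_smul, sub_zero]
        exact Submodule.zero_mem _⟩
      add_mem' := by
        rintro a b ⟨c, hc⟩ ⟨d, hd⟩
        refine ⟨c + d, fun w hw => ?_⟩
        have e : cpx (a + b) w - (c + d) • w = (cpx a w - c • w) + (cpx b w - d • w) := by
          rw [map_add, LinearMap.add_apply, add_smul]
          abel
        rw [e]
        exact Submodule.add_mem _ (hc w hw) (hd w hw)
      smul_mem' := by
        rintro r a ⟨c, hc⟩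
        refine ⟨(r : ℂ) * c, fun w hw => ?_⟩
        have e : cpx (r • a) w - ((r : ℂ) * c) • w = (r : ℂ) • (cpx a w - c • w) := by
          rw [map_smul, smul_sub, smul_smul]
          rfl
        rw [e]
        exact Submodule.smul_mem _ _ (hc w hw) }
  exact zcl_subset_submodule M (fun y hy => hS y hy i) hx

/-- A solvable group has a subgroup of finite index whose elements have Jordan decompositions and
whose unipotent parts and commutators generate a unipotent group. -/
theorem exists_sunip (Γ : Subgroup (E →L[ℝ] E)ˣ) (hΓ : Group.IsSolvable Γ) :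
    ∃ Γ₁ : Subgroup (E →L[ℝ] E)ˣ, Γ₁ ≤ Γ ∧ Γ₁.relIndex Γ ≠ 0 ∧ (∀ γ ∈ Γ₁, ∃ u, IsJU γ u) ∧
      ∃ m, SUnip (unipGrp Γ₁) m := by
  let ρ : Γ →* Module.End ℂ (ℂ ⊗[ℝ] E) :=
    ((cpx : (E →L[ℝ] E) →ₐ[ℝ] Module.End ℂ (ℂ ⊗[ℝ] E)) : (E →L[ℝ] E) →* _).comp
      ((Units.coeHom _).comp Γ.subtype)
  obtain ⟨H, hH, L, hL0, hLn, hLm, -, hL⟩ :=
    Helper6.Solv.exists_flag (Module.finrank ℂ (ℂ ⊗[ℝ] E)) Γ (ℂ ⊗[ℝ] E) ρ rfl
  set n := Module.finrank ℂ (ℂ ⊗[ℝ] E) with hn
  have hscal : ∀ γ ∈ H.map Γ.subtype, Scal L (cpx (γ : E →L[ℝ] E)) := by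
    rintro _ ⟨γ, hγ, rfl⟩ i
    exact hL γ hγ i
  refine ⟨H.map Γ.subtype, Subgroup.map_subtype_le H, ?_, fun γ _ => exists_ju γ, n, ?_⟩
  · rw [Subgroup.relIndex, Subgroup.subgroupOf, Subgroup.comap_map_eq_self_of_injective
      Γ.subtype_injective]
    exact hH.index_ne_zero
  · -- the group of elements which act trivially on the quotients
    let T : Subgroup (E →L[ℝ] E)ˣ :=
      { carrier := {x | Triv L (cpx (x : E →L[ℝ] E))}
        one_mem' := by
          intro i w _
          rw [Units.val_one, map_one, Module.End.one_apply, sub_self]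
          exact Submodule.zero_mem _
        mul_mem' := by
          intro x y hx hy
          change Triv L (cpx ((x * y : (E →L[ℝ] E)ˣ) : E →L[ℝ] E))
          rw [Units.val_mul, map_mul]
          exact Triv.mul hLm hL0 hx hy
        inv_mem' := by
          intro x hx
          exact Triv.inv hLm hL0 (by rw [← map_mul, Units.inv_mul, map_one]) hx }
    have hT : unipGrp (H.map Γ.subtype) ≤ T := by
      unfold unipGrp
      rw [Subgroup.closure_le]
      rintro x (⟨g, hg, hgx⟩ | ⟨g, hg, h, hh, rfl⟩)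
      · have h1 : Scal L (cpx (x : E →L[ℝ] E)) := by
          refine scal_of_zcl L ?_ (ju_mem_zcl hgx)
          rintro _ ⟨k, rfl⟩
          have := hscal (g ^ k) (Subgroup.pow_mem _ hg k)
          rwa [Units.val_pow_eq_pow_val] at this
        refine h1.triv hLm hL0 ?_
        obtain ⟨s, -, -, -, k, hk⟩ := hgx
        exact ⟨k, by rw [← map_one cpx, ← map_sub, ← map_pow, hk, map_zero]⟩
      · have e1 : Scal L (cpx ((h * g)⁻¹ : (E →L[ℝ] E)ˣ).val) :=
          hscal _ (Subgroup.inv_mem _ (Subgroup.mul_mem _ hh hg))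
        refine triv_commutator hLm hL0 (hscal g hg) (hscal h hh) e1 ?_ ?_
        · rw [← map_mul, ← map_mul, ← Units.val_mul, ← Units.val_mul, mul_inv_cancel,
            Units.val_one, map_one]
        · rw [← map_mul, ← map_mul, ← map_mul, ← Units.val_mul, ← Units.val_mul, ← Units.val_mul]
          congr 2
          group
    have key : ∀ l : List (E →L[ℝ] E)ˣ, (∀ x ∈ l, x ∈ T) → ∀ i, ∀ w ∈ L (i + l.length),
        cpx ((l.map fun x : (E →L[ℝ] E)ˣ => (x : E →L[ℝ] E) - 1).prod) w ∈ L i := by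
      intro l
      induction l with
      | nil =>
        intro _ i w hw
        rw [List.map_nil, List.prod_nil, map_one]
        exact hw
      | cons x l ih =>
        intro hx i w hw
        rw [List.map_cons, List.prod_cons, map_mul, Module.End.mul_apply]
        have h1 := ih (fun y hy => hx y (List.mem_cons_of_mem _ hy)) (i + 1) w (by
          rw [List.length_cons] at hw
          rwa [add_right_comm, add_assoc])
        have h2 : Triv L (cpx (x : E →L[ℝ] E)) := hx x List.mem_cons_self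
        have h3 := h2 i _ h1
        rw [map_sub, map_one, LinearMap.sub_apply, Module.End.one_apply]
        exact h3
    intro l hl hx
    apply cpx_injective
    rw [map_zero]
    refine LinearMap.ext fun w => ?_
    have h1 := key l (fun x h => hT (hx x h)) 0 w (by rw [zero_add, hl, hLn]; trivial)
    rw [hL0, Submodule.mem_bot] at h1
    rw [h1]
    rfl

end main

end Pool.Agent.SOL
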