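import Pool.Agent.SOL.Zar

/-!
# Module B2: unipotent parts are in the Zariski closure of the powers

Exponential polynomials `∑ p_μ(t) μ^j` are elements of the monoid algebra `ℂ[X][ℂˣ]`.
-/

set_option autoImplicit false

open Set Polynomial
open scoped TensorProduct

namespace Pool.Agent.SOL

/-- Exponential polynomials. -/
abbrev EP : Type := MonoidAlgebra (Polynomial ℂ) ℂˣ

/-- The value `∑ p_μ(t) μ^j` of an exponential polynomial. -/
noncomputable def evE (j : ℕ) (t : ℂ) : EP →+* ℂ :=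
  MonoidAlgebra.liftNCRingHom (Polynomial.evalRingHom t)
    ((Units.coeHom ℂ).comp (powMonoidHom j)) (fun _ _ => Commute.all _ _)

theorem evE_single (j : ℕ) (t : ℂ) (μ : ℂˣ) (p : Polynomial ℂ) :
    evE j t (MonoidAlgebra.single μ p) = p.eval t * (μ : ℂ) ^ j := by
  rw [evE, MonoidAlgebra.liftNCRingHom_single]
  simp

theorem evE_apply (j : ℕ) (t : ℂ) (e : EP) :
    evE j t e = ∑ μ ∈ e.coeff.support, (e.coeff μ).eval t * (μ : ℂ) ^ j := by
  conv_lhs => rw [← MonoidAlgebra.sum_coeff_single e]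
  rw [Finsupp.sum, map_sum]
  exact Finset.sum_congr rfl fun μ _ => evE_single j t μ _

/-- The shift operator on sequences. -/
def shiftL : (ℕ → ℂ) →ₗ[ℂ] (ℕ → ℂ) where
  toFun a k := a (k + 1)
  map_add' _ _ := rfl
  map_smul' _ _ := rfl

theorem seq_mem (μ : ℂ) : ∀ (d : ℕ) (p : Polynomial ℂ), p.degree < d →
    (fun k : ℕ => p.eval (k : ℂ) * μ ^ k) ∈ Module.End.maxGenEigenspace shiftL μ := by
  intro d
  induction d with
  | zero =>
    intro p hp
    have hp0 : p = 0 := by
      rw [← Polynomial.degree_eq_bot]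
      rw [Nat.cast_zero] at hp
      exact Nat.WithBot.lt_zero_iff.1 hp
    have : (fun k : ℕ => p.eval (k : ℂ) * μ ^ k) = 0 := by
      funext k
      simp [hp0]
    rw [this]
    exact Submodule.zero_mem _
  | succ d ih =>
    intro p hp
    set q : Polynomial ℂ := C μ * (taylor 1 p - p) with hq
    have hdeg : q.degree < d := by
      by_cases hp0 : p = 0
      · rw [hq, hp0, map_zero, sub_zero, mul_zero, degree_zero]
        exact WithBot.bot_lt_coe d
      have h1 : (taylor 1 p - p).degree < p.degree :=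
        degree_sub_lt_right (degree_taylor p 1) hp0 (leadingCoeff_taylor _ _)
      have h2 : q.degree ≤ (taylor 1 p - p).degree := by
        rw [hq]
        by_cases hμ : μ = 0
        · rw [hμ, C_0, zero_mul, degree_zero]
          exact bot_le
        · rw [degree_C_mul hμ]
      have h3 : p.degree ≤ d := by
        rw [degree_le_iff_coeff_zero]
        intro m hm
        rw [degree_lt_iff_coeff_zero] at hp
        exact hp m (by
          have : d < m := by exact_mod_cast hm
          omega)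
      exact lt_of_le_of_lt h2 (lt_of_lt_of_le h1 h3)
    have h1 := ih q hdeg
    rw [Module.End.mem_maxGenEigenspace] at h1 ⊢
    obtain ⟨k, hk⟩ := h1
    refine ⟨k + 1, ?_⟩
    rw [pow_succ, Module.End.mul_apply]
    have e : (shiftL - μ • (1 : Module.End ℂ (ℕ → ℂ))) (fun k : ℕ => p.eval (k : ℂ) * μ ^ k)
        = fun k : ℕ => q.eval (k : ℂ) * μ ^ k := by
      funext i
      simp only [LinearMap.sub_apply, LinearMap.smul_apply, Module.End.one_apply, Pi.sub_apply,
        Pi.smul_apply, smul_eq_mul, shiftL, LinearMap.coe_mk, AddHom.coe_mk, hq, eval_mul, eval_C,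
        eval_sub, taylor_eval, Nat.cast_add, Nat.cast_one, pow_succ]
      ring_nf
    rw [e]
    exact hk

/-- An exponential polynomial which vanishes on the diagonal is zero. -/
theorem expPoly_eq_zero (e : EP) (h : ∀ k : ℕ, evE k k e = 0) : e = 0 := by
  have hind := (Module.End.independent_maxGenEigenspace shiftL).comp
    (f := fun μ : ℂˣ => (μ : ℂ)) Units.val_injective
  rw [iSupIndep_iff_finsetSum_eq_zero_imp_eq_zero] at hind
  have h1 := hind e.coeff.support (fun μ => fun k : ℕ => (e.coeff μ).eval (k : ℂ) * (μ : ℂ) ^ k)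
    (fun μ _ => seq_mem μ ((e.coeff μ).natDegree + 1) (e.coeff μ) (by
      refine lt_of_le_of_lt degree_le_natDegree ?_
      exact_mod_cast Nat.lt_succ_self _))
    (by
      funext k
      rw [Finset.sum_apply, ← evE_apply, h k]
      rfl)
  rw [← MonoidAlgebra.coeff_eq_zero, ← Finsupp.support_eq_empty]
  rw [Finset.eq_empty_iff_forall_notMem]
  intro μ hμ
  have h2 := h1 μ hμ
  have h3 : e.coeff μ = 0 := by
    refine Polynomial.eq_zero_of_infinite_isRoot _ ?_
    refine Set.Infinite.mono ?_ (Set.infinite_range_of_injective (Nat.cast_injective (R := ℂ)))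
    rintro _ ⟨k, rfl⟩
    have h4 := congrFun h2 k
    simp only [Pi.zero_apply] at h4
    rcases mul_eq_zero.1 h4 with h5 | h5
    · exact h5
    · exact absurd h5 (pow_ne_zero _ μ.ne_zero)
  rw [Finsupp.mem_support_iff] at hμ
  exact hμ h3

/-- A squarefree annihilating polynomial of a unit can be chosen with nonzero constant term. -/
theorem exists_squarefree_eval_ne {A : Type*} [Ring A] [Algebra ℝ A] {s : Aˣ} (h : IsSS (s : A)) :
    ∃ p : Polynomial ℝ, Squarefree p ∧ Polynomial.aeval (s : A) p = 0 ∧ p.eval 0 ≠ 0 := by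
  obtain ⟨p, hp, hps⟩ := h
  by_cases h0 : p.eval 0 = 0
  · obtain ⟨q, rfl⟩ : X ∣ p := by
      rw [Polynomial.X_dvd_iff, coeff_zero_eq_eval_zero]
      exact h0
    refine ⟨q, hp.of_mul_right, ?_, fun h1 => ?_⟩
    · rw [map_mul, aeval_X] at hps
      exact (Units.mul_right_eq_zero s).1 hps
    · obtain ⟨r, rfl⟩ : X ∣ q := by
        rw [Polynomial.X_dvd_iff, coeff_zero_eq_eval_zero]
        exact h1
      have h2 := hp X ⟨r, by ring⟩
      exact Polynomial.not_isUnit_X h2
  · exact ⟨p, hp, hps, h0⟩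

/-- Linear functionals of the powers of a semisimple unit are exponential sums. -/
theorem exists_EP_pow {A : Type*} [Ring A] [Algebra ℝ A] {s : Aˣ} (h : IsSS (s : A))
    (ψ : A →ₗ[ℝ] ℝ) : ∃ e : EP, ∀ (j : ℕ) (t : ℂ), evE j t e = (ψ ((s : A) ^ j) : ℂ) := by
  classical
  obtain ⟨q, hq, hqs, hq0⟩ := exists_squarefree_eval_ne h
  have hqne : q ≠ 0 := hq.ne_zero
  set Q : Polynomial ℂ := q.map (algebraMap ℝ ℂ) with hQ
  have hQne : Q ≠ 0 := (Polynomial.map_ne_zero_iff (algebraMap ℝ ℂ).injective).2 hqne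
  have hsep : Q.Separable := (PerfectField.separable_iff_squarefree.2 hq).map
  set R : Finset ℂ := Q.roots.toFinset with hR
  have hroot : ∀ μ ∈ R, μ ≠ 0 := by
    rintro μ hμ rfl
    rw [hR, Multiset.mem_toFinset, mem_roots hQne, IsRoot.def, hQ, eval_map_algebraMap] at hμ
    apply hq0
    have h1 : aeval (0 : ℂ) q = algebraMap ℝ ℂ (q.eval 0) := by
      rw [← map_zero (algebraMap ℝ ℂ), aeval_algebraMap_apply]
      simp
    rw [h1] at hμ
    exact (algebraMap ℝ ℂ).injective (by rw [hμ, map_zero])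
  let ι : A →ₐ[ℝ] TensorProduct ℝ ℂ A := Algebra.TensorProduct.includeRight
  have hQs : aeval (ι (s : A)) Q = 0 := by
    rw [hQ, aeval_map_algebraMap, aeval_algHom_apply, hqs, map_zero]
  let Ψ : TensorProduct ℝ ℂ A →ₗ[ℂ] ℂ :=
    LinearMap.liftBaseChange ℂ (Complex.ofRealCLM.toLinearMap ∘ₗ ψ)
  have hΨ : ∀ a : A, Ψ (ι a) = (ψ a : ℂ) := by
    intro a
    change Ψ ((1 : ℂ) ⊗ₜ[ℝ] a) = _
    rw [LinearMap.liftBaseChange_tmul, one_smul]
    rfl
  have hdvd : ∀ D : Polynomial ℂ, (∀ μ ∈ R, D.eval μ = 0) → Q ∣ D := by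
    intro D hD
    by_cases hD0 : D = 0
    · rw [hD0]; exact dvd_zero _
    have h1 : Q = C Q.leadingCoeff * (Q.roots.map fun a => X - C a).prod :=
      (IsAlgClosed.splits Q).eq_prod_roots
    have h2 : Q.roots ≤ D.roots := by
      rw [Multiset.le_iff_subset (nodup_roots hsep)]
      intro μ hμ
      rw [mem_roots hD0]
      exact hD μ (Multiset.mem_toFinset.2 hμ)
    have h3 : (Q.roots.map fun a => X - C a).prod ∣ D :=
      (Multiset.prod_X_sub_C_dvd_iff_le_roots hD0 _).2 h2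
    rw [h1]
    exact (IsUnit.mul_left_dvd (Polynomial.isUnit_C.2
      (isUnit_iff_ne_zero.2 (leadingCoeff_ne_zero.2 hQne)))).2 h3
  have hpow : ∀ j : ℕ, (ι (s : A)) ^ j
      = ∑ μ ∈ R, μ ^ j • aeval (ι (s : A)) (Lagrange.basis R id μ) := by
    intro j
    have h1 : Q ∣ X ^ j - Lagrange.interpolate R id (fun μ => μ ^ j) := by
      refine hdvd _ fun μ hμ => ?_
      have h2 := Lagrange.eval_interpolate_at_node (s := R) (v := id) (fun μ : ℂ => μ ^ j)
        (Set.injOn_id _) hμ
      rw [id] at h2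
      rw [eval_sub, eval_pow, eval_X, h2, sub_self]
    obtain ⟨r, hr⟩ := h1
    have h2 : aeval (ι (s : A)) (X ^ j - Lagrange.interpolate R id (fun μ => μ ^ j)) = 0 := by
      rw [hr, map_mul, hQs, zero_mul]
    rw [map_sub, map_pow, aeval_X, sub_eq_zero, Lagrange.interpolate_apply, map_sum] at h2
    rw [h2]
    refine Finset.sum_congr rfl fun μ _ => ?_
    rw [map_mul, aeval_C]
    exact (Algebra.smul_def _ _).symm
  refine ⟨∑ μ ∈ R.attach, MonoidAlgebra.single (Units.mk0 (μ : ℂ) (hroot μ μ.2))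
    (C (Ψ (aeval (ι (s : A)) (Lagrange.basis R id (μ : ℂ))))), fun j t => ?_⟩
  rw [map_sum, ← hΨ, map_pow, hpow, map_sum]
  rw [← Finset.sum_attach R]
  refine Finset.sum_congr rfl fun μ _ => ?_
  rw [evE_single, eval_C, Units.val_mk0, map_smul, smul_eq_mul, mul_comm]

/-- Natural powers of a unipotent element as a binomial sum. -/
theorem unip_pow {A : Type*} [Ring A] [Algebra ℝ A] {u : A} {N : ℕ} (hu : (u - 1) ^ N = 0)
    (k : ℕ) : u ^ k = ∑ m ∈ Finset.range N, (k.choose m : ℝ) • (u - 1) ^ m := by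
  have h1 : u ^ k = ∑ m ∈ Finset.range (k + 1), (k.choose m : ℝ) • (u - 1) ^ m := by
    have h2 : u = (u - 1) + 1 := by abel
    conv_lhs => rw [h2, (Commute.one_right (u - 1)).add_pow]
    refine Finset.sum_congr rfl fun m _ => ?_
    rw [one_pow, mul_one, ← nsmul_eq_mul', Nat.cast_smul_eq_nsmul]
  have h2 : ∀ M, (∑ m ∈ Finset.range (N + M), (k.choose m : ℝ) • (u - 1) ^ m)
      = ∑ m ∈ Finset.range N, (k.choose m : ℝ) • (u - 1) ^ m := by
    intro M
    rw [Finset.sum_range_add, add_eq_left]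
    refine Finset.sum_eq_zero fun m _ => ?_
    rw [pow_add, hu, zero_mul, smul_zero]
  have h3 : ∀ M, (∑ m ∈ Finset.range (k + 1 + M), (k.choose m : ℝ) • (u - 1) ^ m)
      = ∑ m ∈ Finset.range (k + 1), (k.choose m : ℝ) • (u - 1) ^ m := by
    intro M
    rw [Finset.sum_range_add, add_eq_left]
    refine Finset.sum_eq_zero fun m _ => ?_
    rw [Nat.choose_eq_zero_of_lt (by omega), Nat.cast_zero, zero_smul]
  rw [h1, ← h3 N, add_comm (k + 1) N, h2]

theorem choose_eval (k m : ℕ) :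
    (C ((m.factorial : ℂ)⁻¹) * descPochhammer ℂ m).eval (k : ℂ) = ((k.choose m : ℝ) : ℂ) := by
  rw [eval_mul, eval_C, descPochhammer_eval_eq_descFactorial, Nat.descFactorial_eq_factorial_mul_choose]
  have : (m.factorial : ℂ) ≠ 0 := by exact_mod_cast Nat.factorial_ne_zero m
  push_cast
  field_simp

/-- Linear functionals of `s ^ j u ^ k`. -/
theorem exists_EP_linear {A : Type*} [Ring A] [Algebra ℝ A] {s u : Aˣ} (h : IsSS (s : A))
    (hu : IsNilpotent ((u : A) - 1)) (ψ : A →ₗ[ℝ] ℝ) :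
    ∃ e : EP, ∀ j k : ℕ, evE j k e = (ψ ((s : A) ^ j * (u : A) ^ k) : ℂ) := by
  obtain ⟨N, hN⟩ := hu
  have h1 : ∀ m : ℕ, ∃ e : EP, ∀ (j : ℕ) (t : ℂ),
      evE j t e = (ψ ((s : A) ^ j * ((u : A) - 1) ^ m) : ℂ) := fun m =>
    exists_EP_pow h (ψ ∘ₗ LinearMap.mulRight ℝ (((u : A) - 1) ^ m))
  choose e he using h1
  refine ⟨∑ m ∈ Finset.range N, MonoidAlgebra.single 1 (C ((m.factorial : ℂ)⁻¹) *
    descPochhammer ℂ m) * e m, fun j k => ?_⟩
  rw [map_sum, unip_pow hN k, Finset.mul_sum, map_sum, Complex.ofReal_sum]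
  refine Finset.sum_congr rfl fun m _ => ?_
  rw [map_mul, evE_single, choose_eval, he, Units.val_one, one_pow, mul_one, mul_smul_comm,
    map_smul, smul_eq_mul, Complex.ofReal_mul]

/-- Polynomial functions of `s ^ j u ^ k` are exponential polynomials. -/
theorem exists_EP_poly {A : Type*} [Ring A] [Algebra ℝ A] {s u : Aˣ} (h : IsSS (s : A))
    (hu : IsNilpotent ((u : A) - 1)) {f : A → ℝ} (hf : f ∈ polyFun A) :
    ∃ e : EP, ∀ j k : ℕ, evE j k e = (f ((s : A) ^ j * (u : A) ^ k) : ℂ) := by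
  induction hf using Algebra.adjoin_induction with
  | mem f hf =>
    obtain ⟨ψ, rfl⟩ := hf
    exact exists_EP_linear h hu ψ
  | algebraMap c =>
    refine ⟨MonoidAlgebra.single 1 (C (c : ℂ)), fun j k => ?_⟩
    rw [evE_single, eval_C, Units.val_one, one_pow, mul_one]
    rfl
  | add f g _ _ hf hg =>
    obtain ⟨e, he⟩ := hf
    obtain ⟨e', he'⟩ := hg
    refine ⟨e + e', fun j k => ?_⟩
    rw [map_add, he, he', Pi.add_apply, Complex.ofReal_add]
  | mul f g _ _ hf hg =>
    obtain ⟨e, he⟩ := hf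
    obtain ⟨e', he'⟩ := hg
    refine ⟨e * e', fun j k => ?_⟩
    rw [map_mul, he, he', Pi.mul_apply, Complex.ofReal_mul]

/-- The unipotent part is in the Zariski closure of the powers. -/
theorem ju_mem_zcl {A : Type*} [Ring A] [Algebra ℝ A] [FiniteDimensional ℝ A] {g u : Aˣ}
    (h : IsJU g u) : (u : A) ∈ zcl (range fun n : ℕ => (g : A) ^ n) := by
  obtain ⟨s, hgs, hsu, hs, hu⟩ := h
  intro f hf hS
  obtain ⟨e, he⟩ := exists_EP_poly hs hu hf
  have hcomm : Commute (s : A) (u : A) := by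
    change (s : A) * u = u * s
    rw [← Units.val_mul, ← Units.val_mul, hsu]
  have h1 : e = 0 := by
    refine expPoly_eq_zero e fun k => ?_
    rw [he, ← hcomm.mul_pow, ← Units.val_mul, ← hgs, hS _ ⟨k, rfl⟩, Complex.ofReal_zero]
  have h2 := he 0 1
  rw [h1, map_zero, pow_zero, one_mul, pow_one] at h2
  exact_mod_cast h2.symm

end Pool.Agent.SOL
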