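import Pool.Agent.Helper2.MK.Data

/-!
# Affine manifolds with virtually solvable holonomy: definitions

Blueprint: `MP_df2bd8_SOL.md`.
-/

set_option autoImplicit false

open Set Filter Topology

namespace Pool.Agent.SOL

/-! ## Polynomial functions and Zariski closure -/

/-- The algebra of real polynomial functions on a real vector space. -/
def polyFun (W : Type*) [AddCommGroup W] [Module ℝ W] : Subalgebra ℝ (W → ℝ) :=
  Algebra.adjoin ℝ (range fun φ : W →ₗ[ℝ] ℝ => (φ : W → ℝ))

/-- The Zariski closure of a subset of a real vector space. -/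
def zcl {W : Type*} [AddCommGroup W] [Module ℝ W] (S : Set W) : Set W :=
  {x | ∀ f ∈ polyFun W, (∀ s ∈ S, f s = 0) → f x = 0}

/-- The subset of an algebra given by a subgroup of its group of units. -/
def coeSet {A : Type*} [Ring A] (N : Subgroup Aˣ) : Set A := (fun x : Aˣ => (x : A)) '' (N : Set Aˣ)

/-- The group generated by the units in the Zariski closure of `N` (for a group of unipotent elements
this set is already a group, statement `S_zgrp`). -/
def zgrp {A : Type*} [Ring A] [Algebra ℝ A] (N : Subgroup Aˣ) : Subgroup Aˣ :=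
  Subgroup.closure {x : Aˣ | (x : A) ∈ zcl (coeSet N)}

/-! ## Unipotent and semisimple elements -/

/-- `s` is annihilated by a squarefree real polynomial. -/
def IsSS {A : Type*} [Ring A] [Algebra ℝ A] (s : A) : Prop :=
  ∃ p : Polynomial ℝ, Squarefree p ∧ Polynomial.aeval s p = 0

/-- `u` is a unipotent part of `g` (multiplicative Jordan decomposition `g = s u`). -/
def IsJU {A : Type*} [Ring A] [Algebra ℝ A] (g u : Aˣ) : Prop :=
  ∃ s : Aˣ, g = s * u ∧ s * u = u * s ∧ IsSS (s : A) ∧ IsNilpotent ((u : A) - 1)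

/-- Products of `m` factors `x - 1`, `x ∈ N`, vanish. -/
def SUnip {A : Type*} [Ring A] (N : Subgroup Aˣ) (m : ℕ) : Prop :=
  ∀ l : List Aˣ, l.length = m → (∀ x ∈ l, x ∈ N) → (l.map fun x : Aˣ => (x : A) - 1).prod = 0

/-- The group generated by the unipotent parts of the elements of `Γ` and the commutators. -/
def unipGrp {A : Type*} [Ring A] [Algebra ℝ A] (Γ : Subgroup Aˣ) : Subgroup Aˣ :=
  Subgroup.closure ({u : Aˣ | ∃ g ∈ Γ, IsJU g u} ∪ {x : Aˣ | ∃ g ∈ Γ, ∃ h ∈ Γ, x = g * h * g⁻¹ * h⁻¹})

/-- The commutator subgroup of `Γ`. -/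
def commGrp {A : Type*} [Ring A] (Γ : Subgroup Aˣ) : Subgroup Aˣ :=
  Subgroup.closure {x : Aˣ | ∃ g ∈ Γ, ∃ h ∈ Γ, x = g * h * g⁻¹ * h⁻¹}

/-- Real powers of a unipotent element: the binomial series. -/
noncomputable def upow {A : Type*} [Ring A] [Algebra ℝ A] (u : A) (t : ℝ) : A :=
  ∑ j ∈ Finset.range (Module.finrank ℝ A + 1),
    ((descPochhammer ℝ j).eval t / (j.factorial : ℝ)) • (u - 1) ^ j

/-! ## Affine maps as linear maps of `V × ℝ` -/

/-- The algebra of endomorphisms of `V × ℝ`. -/
abbrev EndE (V : Type*) [NormedAddCommGroup V] [NormedSpace ℝ V] := (V × ℝ) →L[ℝ] (V × ℝ)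

section

variable {V : Type*} [NormedAddCommGroup V] [NormedSpace ℝ V]

/-- `a` comes from an affine map. -/
def IsAff (a : EndE V) : Prop := ∀ x, (a x).2 = x.2

/-- The affine action on `V`. -/
def act (a : EndE V) (v : V) : V := (a (v, 1)).1

/-- The linear part. -/
def linA (a : EndE V) (v : V) : V := (a (v, 0)).1

/-- The continuous linear map of `V × ℝ` given by an affine map. -/
noncomputable def liftA [FiniteDimensional ℝ V] (f : V ≃ᵃ[ℝ] V) : EndE V :=
  LinearMap.toContinuousLinearMap
    { toFun := fun x => (f.linear x.1 + x.2 • f 0, x.2)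
      map_add' := fun x y => by
        ext
        · simp only [Prod.fst_add, Prod.snd_add, map_add, add_smul]
          abel
        · rfl
      map_smul' := fun c x => by
        ext
        · simp only [Prod.smul_fst, Prod.smul_snd, map_smul, RingHom.id_apply, smul_add, smul_smul,
            smul_eq_mul]
        · rfl }

end

end Pool.Agent.SOL
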