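import Mathlib

/-! # Module D1: common fixed vectors of commuting semisimple maps -/

set_option autoImplicit false

namespace Pool.Agent.SOL

section

variable {W : Type*} [AddCommGroup W] [Module ℝ W]

theorem l_aeval {a : Module.End ℝ W} {l : W →ₗ[ℝ] ℝ} (hl : ∀ w, l (a w) = l w)
    (p : Polynomial ℝ) (x : W) : l (Polynomial.aeval a p x) = p.eval 1 * l x := by
  induction p using Polynomial.induction_on' with
  | add p q hp hq => rw [map_add, LinearMap.add_apply, map_add, hp, hq, Polynomial.eval_add]; ring
  | monomial n c =>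
    have h1 : ∀ n : ℕ, l ((a ^ n) x) = l x := by
      intro n
      induction n with
      | zero => simp
      | succ n ih => rw [pow_succ', Module.End.mul_apply, hl, ih]
    rw [Polynomial.aeval_monomial, Polynomial.eval_monomial, one_pow, mul_one,
      Module.End.mul_apply, Module.algebraMap_end_apply, map_smul, h1, smul_eq_mul]

theorem aeval_mem {a : Module.End ℝ W} {P : Submodule ℝ W} (hP : ∀ w ∈ P, a w ∈ P)
    (p : Polynomial ℝ) {x : W} (hx : x ∈ P) : Polynomial.aeval a p x ∈ P := by
  induction p using Polynomial.induction_on' with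
  | add p q hp hq => rw [map_add, LinearMap.add_apply]; exact P.add_mem hp hq
  | monomial n c =>
    have h1 : ∀ n : ℕ, (a ^ n) x ∈ P := by
      intro n
      induction n with
      | zero => simpa using hx
      | succ n ih => rw [pow_succ', Module.End.mul_apply]; exact hP _ ih
    rw [Polynomial.aeval_monomial, Module.End.mul_apply, Module.algebraMap_end_apply]
    exact P.smul_mem _ (h1 n)

/-- Commuting semisimple maps preserving a nonzero linear function have a common fixed vector on
which it is `1`. -/
theorem exists_common_fixed [FiniteDimensional ℝ W]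
    (T : Set (Module.End ℝ W)) (hcomm : ∀ a ∈ T, ∀ b ∈ T, a * b = b * a)
    (hss : ∀ a ∈ T, ∃ p : Polynomial ℝ, Squarefree p ∧ Polynomial.aeval a p = 0)
    (l : W →ₗ[ℝ] ℝ) (hl : ∀ a ∈ T, ∀ w, l (a w) = l w) (hl0 : l ≠ 0) :
    ∃ w, l w = 1 ∧ ∀ a ∈ T, a w = w := by
  let Q : Submodule ℝ W → Prop := fun P => (∀ a ∈ T, ∀ w ∈ P, a w ∈ P) ∧ ∃ x ∈ P, l x ≠ 0
  have hQ : ∃ P, Q P := by
    refine ⟨⊤, fun _ _ _ _ => Submodule.mem_top, ?_⟩
    by_contra h
    push Not at h
    exact hl0 (LinearMap.ext fun x => h x Submodule.mem_top)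
  obtain ⟨P, hP, hmin⟩ := WellFounded.has_min
    (measure fun P : Submodule ℝ W => Module.finrank ℝ P).wf {P | Q P} hQ
  obtain ⟨hPT, x, hx, hlx⟩ := hP
  have key : ∀ a ∈ T, ∀ w ∈ P, a w = w := by
    intro a ha
    let P' : Submodule ℝ W := P ⊓ LinearMap.ker (a - 1)
    have hP'Q : Q P' := by
      constructor
      · rintro b hb w ⟨hw, hw'⟩
        refine ⟨hPT b hb w hw, ?_⟩
        have h1 : a w = w := by
          have := LinearMap.mem_ker.1 hw'
          rwa [LinearMap.sub_apply, Module.End.one_apply, sub_eq_zero] at this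
        change b w ∈ LinearMap.ker (a - 1)
        rw [LinearMap.mem_ker, LinearMap.sub_apply, Module.End.one_apply, sub_eq_zero]
        have h2 := LinearMap.congr_fun (hcomm a ha b hb) w
        rw [Module.End.mul_apply, Module.End.mul_apply, h1] at h2
        exact h2
      · obtain ⟨p, hp, hpa⟩ := hss a ha
        have h1 : p.eval 1 = 0 := by
          have h2 := l_aeval (hl a ha) p x
          rw [hpa, LinearMap.zero_apply, map_zero] at h2
          exact (mul_eq_zero.1 h2.symm).resolve_right hlx
        obtain ⟨q, rfl⟩ := Polynomial.dvd_iff_isRoot.2 h1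
        have hq : q.eval 1 ≠ 0 := by
          intro h2
          obtain ⟨r, rfl⟩ := Polynomial.dvd_iff_isRoot.2 h2
          have h3 := hp (Polynomial.X - Polynomial.C 1) ⟨r, by ring⟩
          exact Polynomial.not_isUnit_X_sub_C (1 : ℝ) h3
        refine ⟨Polynomial.aeval a q x, ⟨aeval_mem (hPT a ha) q hx, ?_⟩, ?_⟩
        · change _ ∈ LinearMap.ker (a - 1)
          rw [LinearMap.mem_ker]
          have h3 := LinearMap.congr_fun hpa x
          rw [map_mul, Module.End.mul_apply, LinearMap.zero_apply, map_sub, Polynomial.aeval_X,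
            Polynomial.aeval_C, map_one] at h3
          exact h3
        · rw [l_aeval (hl a ha)]
          exact mul_ne_zero hq hlx
    have h1 : P' = P := by
      have h2 : P' ≤ P := inf_le_left
      have h3 : ¬ Module.finrank ℝ P' < Module.finrank ℝ P := hmin P' hP'Q
      exact Submodule.eq_of_le_of_finrank_le h2 (not_lt.1 h3)
    intro w hw
    rw [← h1] at hw
    have := LinearMap.mem_ker.1 hw.2
    rwa [LinearMap.sub_apply, Module.End.one_apply, sub_eq_zero] at this
  refine ⟨(l x)⁻¹ • x, ?_, fun a ha => ?_⟩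
  · rw [map_smul, smul_eq_mul, inv_mul_cancel₀ hlx]
  · exact key a ha _ (P.smul_mem _ hx)

end

end Pool.Agent.SOL
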