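import Pool.Agent.SOL.Defs

/-!
# Polynomial functions, polynomial maps and the Zariski closure
-/

set_option autoImplicit false

open Set Filter Topology

namespace Pool.Agent.SOL

section basic

variable {W W' W'' : Type*} [AddCommGroup W] [Module ℝ W] [AddCommGroup W'] [Module ℝ W']
  [AddCommGroup W''] [Module ℝ W'']

theorem linear_mem_polyFun (φ : W →ₗ[ℝ] ℝ) : (fun x => φ x) ∈ polyFun W :=
  Algebra.subset_adjoin ⟨φ, rfl⟩

theorem const_mem_polyFun (c : ℝ) : (fun _ : W => c) ∈ polyFun W :=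
  (polyFun W).algebraMap_mem c

theorem mul_mem_polyFun {f g : W → ℝ} (hf : f ∈ polyFun W) (hg : g ∈ polyFun W) :
    (fun x => f x * g x) ∈ polyFun W := (polyFun W).mul_mem hf hg

theorem add_mem_polyFun {f g : W → ℝ} (hf : f ∈ polyFun W) (hg : g ∈ polyFun W) :
    (fun x => f x + g x) ∈ polyFun W := (polyFun W).add_mem hf hg

theorem sum_mem_polyFun {ι : Type*} (s : Finset ι) {f : ι → W → ℝ}
    (hf : ∀ i ∈ s, f i ∈ polyFun W) : (fun x => ∑ i ∈ s, f i x) ∈ polyFun W := by
  have h := (polyFun W).sum_mem hf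
  have e : (∑ i ∈ s, f i) = fun x => ∑ i ∈ s, f i x := by
    ext x
    simp
  rwa [e] at h

/-- A map between real vector spaces is polynomial if its coordinates are polynomial. -/
def IsPoly (φ : W → W') : Prop := ∀ ψ : W' →ₗ[ℝ] ℝ, (fun x => ψ (φ x)) ∈ polyFun W

theorem IsPoly.comp_mem {φ : W → W'} (hφ : IsPoly φ) {f : W' → ℝ} (hf : f ∈ polyFun W') :
    (fun x => f (φ x)) ∈ polyFun W := by
  induction hf using Algebra.adjoin_induction with
  | mem f hf =>
    obtain ⟨ψ, rfl⟩ := hf
    exact hφ ψ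
  | algebraMap c => exact const_mem_polyFun c
  | add f g _ _ hf hg => exact add_mem_polyFun hf hg
  | mul f g _ _ hf hg => exact mul_mem_polyFun hf hg

theorem IsPoly.comp {φ : W → W'} {χ : W' → W''} (hχ : IsPoly χ) (hφ : IsPoly φ) :
    IsPoly fun x => χ (φ x) := fun ψ => hφ.comp_mem (hχ ψ)

theorem isPoly_linear (L : W →ₗ[ℝ] W') : IsPoly L := fun ψ => linear_mem_polyFun (ψ ∘ₗ L)

theorem isPoly_id : IsPoly fun x : W => x := fun ψ => linear_mem_polyFun ψ

theorem isPoly_const (c : W') : IsPoly fun _ : W => c := fun ψ => const_mem_polyFun (ψ c)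

theorem IsPoly.add {φ χ : W → W'} (hφ : IsPoly φ) (hχ : IsPoly χ) :
    IsPoly fun x => φ x + χ x := fun ψ => by
  simp only [map_add]
  exact add_mem_polyFun (hφ ψ) (hχ ψ)

theorem IsPoly.smul {f : W → ℝ} (hf : f ∈ polyFun W) {φ : W → W'} (hφ : IsPoly φ) :
    IsPoly fun x => f x • φ x := fun ψ => by
  simp only [map_smul, smul_eq_mul]
  exact mul_mem_polyFun hf (hφ ψ)

theorem IsPoly.neg {φ : W → W'} (hφ : IsPoly φ) : IsPoly fun x => -φ x := by
  have := IsPoly.smul (const_mem_polyFun (W := W) (-1)) hφ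
  simpa using this

theorem IsPoly.sub {φ χ : W → W'} (hφ : IsPoly φ) (hχ : IsPoly χ) :
    IsPoly fun x => φ x - χ x := by
  simp only [sub_eq_add_neg]
  exact hφ.add hχ.neg

theorem IsPoly.sum {ι : Type*} (s : Finset ι) {φ : ι → W → W'} (hφ : ∀ i ∈ s, IsPoly (φ i)) :
    IsPoly fun x => ∑ i ∈ s, φ i x := fun ψ => by
  simp only [map_sum]
  exact sum_mem_polyFun s fun i hi => hφ i hi ψ

theorem subset_zcl (S : Set W) : S ⊆ zcl S := fun x hx _ _ h => h x hx

theorem zcl_map {φ : W → W'} (hφ : IsPoly φ) {S : Set W} {T : Set W'} (h : ∀ x ∈ S, φ x ∈ zcl T)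
    {x : W} (hx : x ∈ zcl S) : φ x ∈ zcl T := fun f hf hT =>
  hx (fun x => f (φ x)) (hφ.comp_mem hf) fun s hs => h s hs f hf hT

theorem zcl_mono {S T : Set W} (h : S ⊆ T) : zcl S ⊆ zcl T := fun _ hx f hf hT =>
  hx f hf fun s hs => hT s (h hs)

theorem zcl_zcl (S : Set W) : zcl (zcl S) = zcl S :=
  Subset.antisymm (fun _ hx f hf hS => hx f hf fun _ hs => hs f hf hS) (subset_zcl _)

/-- A polynomial identity which holds on `S` holds on its Zariski closure. -/
theorem zcl_eq {φ : W → W'} (hφ : IsPoly φ) {S : Set W} {c : W'} (h : ∀ x ∈ S, φ x = c) {x : W}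
    (hx : x ∈ zcl S) : φ x = c := by
  rw [← sub_eq_zero]
  by_contra hne
  obtain ⟨ψ, hψ⟩ : ∃ ψ : W' →ₗ[ℝ] ℝ, ψ (φ x - c) ≠ 0 := by
    by_contra hcon
    push Not at hcon
    exact hne ((Module.forall_dual_apply_eq_zero_iff ℝ _).1 hcon)
  have h1 := hx (fun x => ψ (φ x - c)) ((hφ.sub (isPoly_const c)) ψ) fun s hs => by
    rw [h s hs, sub_self, map_zero]
  exact hψ h1

end basic

section algebra

variable {W A : Type*} [AddCommGroup W] [Module ℝ W] [Ring A] [Algebra ℝ A]

theorem isPoly_mul_left (a : A) : IsPoly fun x : A => a * x :=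
  isPoly_linear (LinearMap.mulLeft ℝ a)

theorem isPoly_mul_right (a : A) : IsPoly fun x : A => x * a :=
  isPoly_linear (LinearMap.mulRight ℝ a)

/-- The product of polynomial maps into a finite-dimensional algebra is polynomial. -/
theorem IsPoly.mul [FiniteDimensional ℝ A] {φ χ : W → A} (hφ : IsPoly φ) (hχ : IsPoly χ) :
    IsPoly fun x => φ x * χ x := by
  intro ψ
  let b := Module.finBasis ℝ A
  have e : ∀ x, ψ (φ x * χ x) = ∑ i, ∑ j, (b.repr (φ x) i * b.repr (χ x) j) * ψ (b i * b j) := by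
    intro x
    conv_lhs => rw [← b.sum_repr (φ x), ← b.sum_repr (χ x)]
    rw [Finset.sum_mul_sum, map_sum]
    refine Finset.sum_congr rfl fun i _ => ?_
    rw [map_sum]
    refine Finset.sum_congr rfl fun j _ => ?_
    rw [smul_mul_smul_comm, map_smul, smul_eq_mul]
  simp only [e]
  refine sum_mem_polyFun _ fun i _ => sum_mem_polyFun _ fun j _ => ?_
  exact mul_mem_polyFun (mul_mem_polyFun (hφ (b.coord i)) (hχ (b.coord j)))
    (const_mem_polyFun _)

theorem IsPoly.pow [FiniteDimensional ℝ A] {φ : W → A} (hφ : IsPoly φ) (n : ℕ) :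
    IsPoly fun x => φ x ^ n := by
  induction n with
  | zero => simpa using isPoly_const (W := W) (1 : A)
  | succ n ih =>
    simp only [pow_succ]
    exact ih.mul hφ

/-- The Zariski closure of a multiplicatively closed set is multiplicatively closed. -/
theorem mul_mem_zcl {S : Set A} (hS : ∀ x ∈ S, ∀ y ∈ S, x * y ∈ S) {x y : A} (hx : x ∈ zcl S)
    (hy : y ∈ zcl S) : x * y ∈ zcl S := by
  have h1 : ∀ a ∈ S, a * y ∈ zcl S := fun a ha =>
    zcl_map (isPoly_mul_left a) (fun z hz => subset_zcl _ (hS a ha z hz)) hy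
  exact zcl_map (isPoly_mul_right y) h1 hx

end algebra

section topology

variable {W : Type*} [NormedAddCommGroup W] [NormedSpace ℝ W] [FiniteDimensional ℝ W]

theorem continuous_of_mem_polyFun {f : W → ℝ} (hf : f ∈ polyFun W) : Continuous f := by
  induction hf using Algebra.adjoin_induction with
  | mem f hf =>
    obtain ⟨φ, rfl⟩ := hf
    exact φ.continuous_of_finiteDimensional
  | algebraMap c => exact continuous_const
  | add f g _ _ hf hg => exact hf.add hg
  | mul f g _ _ hf hg => exact hf.mul hg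

theorem isClosed_zcl (S : Set W) : IsClosed (zcl S) := by
  have e : zcl S = ⋂ f ∈ {f : W → ℝ | f ∈ polyFun W ∧ ∀ s ∈ S, f s = 0}, {x | f x = 0} := by
    ext x
    simp only [zcl, mem_ofPred_eq, mem_iInter, and_imp]
  rw [e]
  exact isClosed_biInter fun f hf =>
    isClosed_eq (continuous_of_mem_polyFun hf.1) continuous_const

theorem contDiff_of_mem_polyFun {f : W → ℝ} (hf : f ∈ polyFun W) : ContDiff ℝ ⊤ f := by
  induction hf using Algebra.adjoin_induction with
  | mem f hf =>
    obtain ⟨φ, rfl⟩ := hf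
    exact (LinearMap.toContinuousLinearMap φ).contDiff
  | algebraMap c => exact contDiff_const
  | add f g _ _ hf hg => exact hf.add hg
  | mul f g _ _ hf hg => exact hf.mul hg

theorem IsPoly.continuous {W' : Type*} [NormedAddCommGroup W'] [NormedSpace ℝ W']
    [FiniteDimensional ℝ W'] {φ : W → W'} (hφ : IsPoly φ) : Continuous φ := by
  let b := Module.finBasis ℝ W'
  have e : φ = fun x => ∑ i, b.coord i (φ x) • b i := by
    ext x
    exact (b.sum_repr (φ x)).symm
  rw [e]
  exact continuous_finsetSum _ fun i _ =>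
    (continuous_of_mem_polyFun (hφ (b.coord i))).smul continuous_const

theorem IsPoly.contDiff {W' : Type*} [NormedAddCommGroup W'] [NormedSpace ℝ W']
    [FiniteDimensional ℝ W'] {φ : W → W'} (hφ : IsPoly φ) : ContDiff ℝ ⊤ φ := by
  let b := Module.finBasis ℝ W'
  have e : φ = fun x => ∑ i, b.coord i (φ x) • b i := by
    ext x
    exact (b.sum_repr (φ x)).symm
  rw [e]
  exact ContDiff.sum fun i _ => (contDiff_of_mem_polyFun (hφ (b.coord i))).smul contDiff_const

theorem IsPoly.locallyLipschitz {W' : Type*} [NormedAddCommGroup W'] [NormedSpace ℝ W']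
    [FiniteDimensional ℝ W'] {φ : W → W'} (hφ : IsPoly φ) : LocallyLipschitz φ :=
  (hφ.contDiff.of_le le_top : ContDiff ℝ 1 φ).locallyLipschitz

end topology

section curve

variable {W W' : Type*} [AddCommGroup W] [Module ℝ W]

/-- A polynomial function on `ℝ` which vanishes at the natural numbers is zero. -/
theorem polyFun_real_eq_zero {f : ℝ → ℝ} (hf : f ∈ polyFun ℝ) (h : ∀ n : ℕ, f n = 0) (t : ℝ) :
    f t = 0 := by
  have h1 : ∃ p : Polynomial ℝ, ∀ x, f x = p.eval x := by
    clear h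
    induction hf using Algebra.adjoin_induction with
    | mem f hf =>
      obtain ⟨φ, rfl⟩ := hf
      refine ⟨Polynomial.C (φ 1) * Polynomial.X, fun x => ?_⟩
      have h2 : φ x = x • φ 1 := by rw [← map_smul, smul_eq_mul, mul_one]
      change φ x = _
      rw [Polynomial.eval_mul, Polynomial.eval_C, Polynomial.eval_X, h2, smul_eq_mul, mul_comm]
    | algebraMap c => exact ⟨Polynomial.C c, fun x => by simp⟩
    | add f g _ _ hf hg =>
      obtain ⟨p, hp⟩ := hf
      obtain ⟨q, hq⟩ := hg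
      exact ⟨p + q, fun x => by simp [hp, hq]⟩
    | mul f g _ _ hf hg =>
      obtain ⟨p, hp⟩ := hf
      obtain ⟨q, hq⟩ := hg
      exact ⟨p * q, fun x => by simp [hp, hq]⟩
  obtain ⟨p, hp⟩ := h1
  have h2 : p = 0 := by
    refine Polynomial.eq_zero_of_infinite_isRoot p ?_
    refine Set.Infinite.mono ?_ (Set.infinite_range_of_injective (Nat.cast_injective (R := ℝ)))
    rintro _ ⟨n, rfl⟩
    change p.eval (n : ℝ) = 0
    rw [← hp]
    exact h n
  rw [hp, h2, Polynomial.eval_zero]

/-- A polynomial curve which lies in a Zariski closed set at the natural numbers lies in it. -/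
theorem curve_mem_zcl {c : ℝ → W} (hc : IsPoly c) {S : Set W} (h : ∀ n : ℕ, c n ∈ zcl S) (t : ℝ) :
    c t ∈ zcl S := fun f hf hS =>
  polyFun_real_eq_zero (hc.comp_mem hf) (fun n => h n f hf hS) t

end curve

end Pool.Agent.SOL
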